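import Pool.Agent.H1.Jac.Defs

/-!
# Asymptotic inequalities I

Part of `MP_4e17b9_nt`. `ℓ = log k → ∞`. `C ≥ 0`, `δ, c, W > 0`.

`asym1`: `w = ⌈W K ℓ⌉₊`, so `w + 1 ≤ W K ℓ + 2 ≤ exp (2 ℓ^(1/3))` for large `k`
(`K ≤ exp (ℓ^(1/3))`). Take `r = ⌈8 (log ℓ + C)⌉₊` (or `r + 1 = …`). For `0 ≤ S ≤ log ℓ + C` and `n = r + 1`, `r + 2`:
`S^n/n! ≤ (e S/n)^n ≤ exp (-n)` as `n ≥ 8 (log ℓ + C) ≥ e² S` (`n! ≥ (n/e)^n`), and
`exp (-n) ≤ exp (-8 log ℓ) = ℓ^(-8) ≤ (δ/4) c/ℓ` for large `ℓ`. Second inequality: `(w + 1)^(r + 1) ≤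
exp (2 ℓ^(1/3) (8 (log ℓ + C) + 2))`, and `2 ℓ^(1/3) (8 log ℓ + 8 C + 2) + log (2 ℓ/(δ c)) ≤ ℓ^(2/5)` for large `ℓ`.

`asym2`: `(log ℓ + C) w ≤ exp (ℓ^(2/5))`: the same.
-/

set_option autoImplicit false

namespace Pool.Agent.H1.Jac

open Filter

private theorem asymA_key (δ c C W : ℝ) (hW : 0 < W) : ∀ᶠ x : ℝ in atTop,
    1 ≤ x ∧ 4 / (δ * c) ≤ x ∧ W * x + 2 ≤ Real.exp (x ^ (1 / 3 : ℝ)) ∧
    2 * x ^ (1 / 3 : ℝ) * (8 * (Real.log x + C) + 2) + Real.log (2 / (δ * c)) + Real.log x ≤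
      x ^ (2 / 5 : ℝ) ∧
    Real.log x + C + 2 * x ^ (1 / 3 : ℝ) ≤ x ^ (2 / 5 : ℝ) := by
  have hu : Tendsto (fun x : ℝ => x ^ (1 / 15 : ℝ)) atTop atTop :=
    tendsto_rpow_atTop (by norm_num)
  have hv : Tendsto (fun x : ℝ => x ^ (1 / 3 : ℝ)) atTop atTop :=
    tendsto_rpow_atTop (by norm_num)
  have hz : Tendsto (fun x : ℝ => x ^ (2 / 5 : ℝ)) atTop atTop :=
    tendsto_rpow_atTop (by norm_num)
  have hlog : ∀ᶠ x : ℝ in atTop, Real.log x ≤ 1 / 64 * x ^ (1 / 15 : ℝ) := by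
    have h := (isLittleO_log_rpow_atTop (r := (1 / 15 : ℝ)) (by norm_num)).bound
      (by norm_num : (0 : ℝ) < 1 / 64)
    filter_upwards [h, eventually_ge_atTop (1 : ℝ)] with x hx h1
    rw [Real.norm_eq_abs, Real.norm_eq_abs, abs_of_nonneg (Real.log_nonneg h1),
      abs_of_nonneg (Real.rpow_nonneg (by linarith) _)] at hx
    exact hx
  have hexp : ∀ᶠ t : ℝ in atTop, W * t ^ 3 + 2 ≤ Real.exp t := by
    have h := (Real.isLittleO_pow_exp_atTop (n := 3)).bound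
      (by positivity : (0 : ℝ) < 1 / (2 * W))
    filter_upwards [h, eventually_ge_atTop (4 : ℝ)] with t ht h4
    rw [Real.norm_eq_abs, Real.norm_eq_abs, abs_of_nonneg (by positivity : (0 : ℝ) ≤ t ^ 3),
      abs_of_nonneg (Real.exp_pos t).le] at ht
    have h5 : W * t ^ 3 ≤ 1 / 2 * Real.exp t := by
      calc W * t ^ 3 ≤ W * (1 / (2 * W) * Real.exp t) := by gcongr
        _ = 1 / 2 * Real.exp t := by field_simp
    have h6 : t + 1 ≤ Real.exp t := Real.add_one_le_exp t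
    linarith
  filter_upwards [eventually_ge_atTop (1 : ℝ), eventually_ge_atTop (4 / (δ * c)), hlog,
    hv.eventually hexp, hu.eventually_ge_atTop (8 * (8 * C + 2)), hu.eventually_ge_atTop 8,
    hz.eventually_ge_atTop (4 * Real.log (2 / (δ * c))), hz.eventually_ge_atTop (4 * C)]
    with x h1 h2 h3 h4 h5 h6 h7 h8
  have hx0 : 0 < x := by linarith
  have huv : x ^ (1 / 3 : ℝ) * x ^ (1 / 15 : ℝ) = x ^ (2 / 5 : ℝ) := by
    rw [← Real.rpow_add hx0]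
    norm_num
  have hxx : (x ^ (1 / 3 : ℝ)) ^ 3 = x := by
    rw [← Real.rpow_natCast, ← Real.rpow_mul hx0.le]
    norm_num
  have hv1 : 1 ≤ x ^ (1 / 3 : ℝ) := Real.one_le_rpow h1 (by norm_num)
  have huz : x ^ (1 / 15 : ℝ) ≤ x ^ (2 / 5 : ℝ) :=
    Real.rpow_le_rpow_of_exponent_le h1 (by norm_num)
  rw [hxx] at h4
  refine ⟨h1, h2, h4, ?_, ?_⟩
  · have e1 : 16 * (x ^ (1 / 3 : ℝ) * Real.log x) ≤ 1 / 4 * x ^ (2 / 5 : ℝ) := by
      rw [← huv]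
      have : x ^ (1 / 3 : ℝ) * Real.log x ≤
          x ^ (1 / 3 : ℝ) * (1 / 64 * x ^ (1 / 15 : ℝ)) := by gcongr
      linarith
    have e2 : 2 * (x ^ (1 / 3 : ℝ) * (8 * C + 2)) ≤ 1 / 4 * x ^ (2 / 5 : ℝ) := by
      rw [← huv]
      have : x ^ (1 / 3 : ℝ) * (8 * (8 * C + 2)) ≤
          x ^ (1 / 3 : ℝ) * (x ^ (1 / 15 : ℝ)) := by gcongr
      linarith
    have e3 : 2 * x ^ (1 / 3 : ℝ) * (8 * (Real.log x + C) + 2) =
        16 * (x ^ (1 / 3 : ℝ) * Real.log x) + 2 * (x ^ (1 / 3 : ℝ) * (8 * C + 2)) := by ring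
    rw [e3]
    linarith
  · have e2 : 8 * x ^ (1 / 3 : ℝ) ≤ x ^ (2 / 5 : ℝ) := by
      rw [← huv]
      have : x ^ (1 / 3 : ℝ) * 8 ≤ x ^ (1 / 3 : ℝ) * (x ^ (1 / 15 : ℝ)) := by gcongr
      linarith
    linarith

private theorem asymA_ev (δ c C W : ℝ) (hW : 0 < W) : ∀ᶠ k : ℕ in atTop,
    1 ≤ Real.log k ∧ 4 / (δ * c) ≤ Real.log k ∧
    W * Real.log k + 2 ≤ Real.exp (Real.log k ^ (1 / 3 : ℝ)) ∧
    2 * Real.log k ^ (1 / 3 : ℝ) * (8 * (Real.log (Real.log k) + C) + 2) +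
      Real.log (2 / (δ * c)) + Real.log (Real.log k) ≤ Real.log k ^ (2 / 5 : ℝ) ∧
    Real.log (Real.log k) + C + 2 * Real.log k ^ (1 / 3 : ℝ) ≤ Real.log k ^ (2 / 5 : ℝ) :=
  (Real.tendsto_log_atTop.comp tendsto_natCast_atTop_atTop).eventually
    (asymA_key δ c C W hW)

/-- the bound of `w + 1` -/
private theorem asymA_w {W x K : ℝ} (hW : 0 < W) (hx : 1 ≤ x) (hK : x ≤ K)
    (hK' : K ≤ Real.exp (x ^ (1 / 3 : ℝ))) (h : W * x + 2 ≤ Real.exp (x ^ (1 / 3 : ℝ))) :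
    (⌈W * K * x⌉₊ : ℝ) + 1 ≤ Real.exp (2 * x ^ (1 / 3 : ℝ)) := by
  have hx0 : 0 < x := by linarith
  have hK0 : 0 < K := by linarith
  have h1 : (⌈W * K * x⌉₊ : ℝ) < W * K * x + 1 := Nat.ceil_lt_add_one (by positivity)
  have h2 : W * K * x ≤ W * x * Real.exp (x ^ (1 / 3 : ℝ)) := by
    calc W * K * x = W * x * K := by ring
      _ ≤ W * x * Real.exp (x ^ (1 / 3 : ℝ)) := by gcongr
  have h3 : 1 ≤ Real.exp (x ^ (1 / 3 : ℝ)) := Real.one_le_exp (Real.rpow_nonneg hx0.le _)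
  have h4 : Real.exp (2 * x ^ (1 / 3 : ℝ)) =
      Real.exp (x ^ (1 / 3 : ℝ)) * Real.exp (x ^ (1 / 3 : ℝ)) := by
    rw [← Real.exp_add]
    congr 1
    ring
  have h5 : (W * x + 2) * Real.exp (x ^ (1 / 3 : ℝ)) ≤
      Real.exp (x ^ (1 / 3 : ℝ)) * Real.exp (x ^ (1 / 3 : ℝ)) := by gcongr
  rw [h4]
  nlinarith

/-- the bound of `S ^ n / n!` -/
private theorem asymA_fac {A S : ℝ} {n : ℕ} (hS : 0 ≤ S) (hSA : S ≤ A) (hn : 8 * A + 1 ≤ n) :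
    S ^ n / (n.factorial : ℝ) ≤ Real.exp (-(8 * A)) := by
  have hA : 0 ≤ A := hS.trans hSA
  have hn0 : (0 : ℝ) < n := by linarith
  have h1 : (n : ℝ) ^ n / (n.factorial : ℝ) ≤ Real.exp n :=
    Real.pow_div_factorial_le_exp (n : ℝ) hn0.le n
  have h2 : S ≤ 1 / 8 * n := by linarith
  have h3 : S ^ n ≤ (1 / 8 * n : ℝ) ^ n := pow_le_pow_left₀ hS h2 n
  have h4 : S ^ n / (n.factorial : ℝ) ≤ (1 / 8) ^ n * ((n : ℝ) ^ n / (n.factorial : ℝ)) := by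
    rw [← mul_div_assoc, ← mul_pow]
    gcongr
  have h5 : (1 / 8 : ℝ) ≤ Real.exp (-2) := by
    have h6 : Real.exp 1 < 2.7182818286 := Real.exp_one_lt_d9
    have h7 : Real.exp 2 = Real.exp 1 * Real.exp 1 := by
      rw [← Real.exp_add]
      norm_num
    have h8 : Real.exp 2 ≤ 8 := by
      rw [h7]
      nlinarith [Real.exp_pos 1]
    rw [Real.exp_neg, ← one_div]
    exact one_div_le_one_div_of_le (Real.exp_pos 2) h8
  have h6 : (1 / 8 : ℝ) ^ n ≤ Real.exp (-2 * n) := by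
    calc (1 / 8 : ℝ) ^ n ≤ (Real.exp (-2)) ^ n := pow_le_pow_left₀ (by norm_num) h5 n
      _ = Real.exp (-2 * n) := by
        rw [← Real.exp_nat_mul]
        congr 1
        ring
  calc S ^ n / (n.factorial : ℝ) ≤ (1 / 8) ^ n * ((n : ℝ) ^ n / (n.factorial : ℝ)) := h4
    _ ≤ Real.exp (-2 * n) * Real.exp n := by gcongr
    _ = Real.exp (-(n : ℝ)) := by
      rw [← Real.exp_add]
      congr 1
      ring
    _ ≤ Real.exp (-(8 * A)) := Real.exp_le_exp.2 (by linarith)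

theorem asym1 (δ c C W : ℝ) (hδ : 0 < δ) (hc : 0 < c) (hC : 0 ≤ C) (hW : 0 < W) :
    ∀ᶠ k : ℕ in atTop, ∀ K : ℝ, Real.log k ≤ K → K ≤ Real.exp (Real.log k ^ (1 / 3 : ℝ)) →
    ∃ r : ℕ, (∀ S : ℝ, 0 ≤ S → S ≤ Real.log (Real.log k) + C →
      S ^ (r + 1) / ((r + 1).factorial : ℝ) + S ^ (r + 2) / ((r + 2).factorial : ℝ) ≤
        δ / 2 * (c / Real.log k)) ∧
      ((⌈W * K * Real.log k⌉₊ : ℝ) + 1) ^ (r + 1) ≤
        δ / 2 * (c / Real.log k) * Real.exp (Real.log k ^ (2 / 5 : ℝ)) := by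
  filter_upwards [asymA_ev δ c C W hW] with k hk K hK hK'
  obtain ⟨h1, h2, h3, h4, _⟩ := hk
  set x : ℝ := Real.log k with hx
  have hx0 : 0 < x := by linarith
  have hlog : 0 ≤ Real.log x := Real.log_nonneg h1
  set A : ℝ := Real.log x + C with hA
  have hA0 : 0 ≤ A := by positivity
  have hr1 : 8 * A ≤ (⌈8 * A⌉₊ : ℝ) := Nat.le_ceil _
  have hr2 : (⌈8 * A⌉₊ : ℝ) < 8 * A + 1 := Nat.ceil_lt_add_one (by positivity)
  refine ⟨⌈8 * A⌉₊, fun S hS hSA => ?_, ?_⟩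
  · have e1 : S ^ (⌈8 * A⌉₊ + 1) / ((⌈8 * A⌉₊ + 1).factorial : ℝ) ≤ Real.exp (-(8 * A)) :=
      asymA_fac hS hSA (by push_cast; linarith)
    have e2 : S ^ (⌈8 * A⌉₊ + 2) / ((⌈8 * A⌉₊ + 2).factorial : ℝ) ≤ Real.exp (-(8 * A)) :=
      asymA_fac hS hSA (by push_cast; linarith)
    have e3 : Real.exp (-(8 * A)) ≤ 1 / (x * x) := by
      have : Real.exp (-(8 * A)) ≤ Real.exp (-(Real.log x + Real.log x)) :=
        Real.exp_le_exp.2 (by rw [hA]; linarith)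
      rw [Real.exp_neg (Real.log x + Real.log x), Real.exp_add, Real.exp_log hx0,
        ← one_div] at this
      exact this
    have e4 : 2 * (1 / (x * x)) ≤ δ / 2 * (c / x) := by
      have h5 : 4 ≤ x * (δ * c) := by
        rw [div_le_iff₀ (by positivity)] at h2
        exact h2
      have h6 : 2 * (1 / (x * x)) = 4 / (2 * (x * x)) := by
        field_simp
        norm_num
      have h7 : δ / 2 * (c / x) = (x * (δ * c)) / (2 * (x * x)) := by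
        field_simp
      rw [h6, h7]
      gcongr
    linarith
  · have hw := asymA_w hW h1 hK hK' h3
    have e1 : ((⌈W * K * x⌉₊ : ℝ) + 1) ^ (⌈8 * A⌉₊ + 1) ≤
        (Real.exp (2 * x ^ (1 / 3 : ℝ))) ^ (⌈8 * A⌉₊ + 1) :=
      pow_le_pow_left₀ (by positivity) hw _
    have hv0 : 0 ≤ x ^ (1 / 3 : ℝ) := Real.rpow_nonneg hx0.le _
    have e2 : (Real.exp (2 * x ^ (1 / 3 : ℝ))) ^ (⌈8 * A⌉₊ + 1) ≤
        Real.exp (2 * x ^ (1 / 3 : ℝ) * (8 * A + 2)) := by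
      rw [← Real.exp_nat_mul]
      refine Real.exp_le_exp.2 ?_
      push_cast
      calc ((⌈8 * A⌉₊ : ℝ) + 1) * (2 * x ^ (1 / 3 : ℝ)) ≤
          (8 * A + 2) * (2 * x ^ (1 / 3 : ℝ)) := by
            apply mul_le_mul_of_nonneg_right _ (by positivity)
            linarith
        _ = 2 * x ^ (1 / 3 : ℝ) * (8 * A + 2) := by ring
    have e3 : Real.exp (2 * x ^ (1 / 3 : ℝ) * (8 * A + 2)) ≤
        Real.exp (x ^ (2 / 5 : ℝ) - Real.log (2 / (δ * c)) - Real.log x) :=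
      Real.exp_le_exp.2 (by linarith)
    have e4 : Real.exp (x ^ (2 / 5 : ℝ) - Real.log (2 / (δ * c)) - Real.log x) =
        δ / 2 * (c / x) * Real.exp (x ^ (2 / 5 : ℝ)) := by
      rw [Real.exp_sub, Real.exp_sub, Real.exp_log hx0, Real.exp_log (by positivity)]
      field_simp
    rw [e4] at e3
    exact e1.trans (e2.trans e3)

theorem asym2 (C W : ℝ) (hC : 0 ≤ C) (hW : 0 < W) :
    ∀ᶠ k : ℕ in atTop, ∀ K : ℝ, Real.log k ≤ K → K ≤ Real.exp (Real.log k ^ (1 / 3 : ℝ)) →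
      (Real.log (Real.log k) + C) * (⌈W * K * Real.log k⌉₊ : ℝ) ≤
        Real.exp (Real.log k ^ (2 / 5 : ℝ)) := by
  filter_upwards [asymA_ev 1 1 C W hW] with k hk K hK hK'
  obtain ⟨h1, _, h3, _, h5⟩ := hk
  set x : ℝ := Real.log k with hx
  have hx0 : 0 < x := by linarith
  have hlog : 0 ≤ Real.log x := Real.log_nonneg h1
  have hw := asymA_w hW h1 hK hK' h3
  have e1 : Real.log x + C ≤ Real.exp (Real.log x + C) := by
    have := Real.add_one_le_exp (Real.log x + C)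
    linarith
  have e2 : (⌈W * K * x⌉₊ : ℝ) ≤ Real.exp (2 * x ^ (1 / 3 : ℝ)) := by linarith
  calc (Real.log x + C) * (⌈W * K * x⌉₊ : ℝ) ≤
      Real.exp (Real.log x + C) * Real.exp (2 * x ^ (1 / 3 : ℝ)) := by
        apply mul_le_mul e1 e2 (by positivity) (Real.exp_pos _).le
    _ = Real.exp (Real.log x + C + 2 * x ^ (1 / 3 : ℝ)) := (Real.exp_add _ _).symm
    _ ≤ Real.exp (x ^ (2 / 5 : ℝ)) := Real.exp_le_exp.2 h5

end Pool.Agent.H1.Jac
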