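import Pool.Agent.H1.Jac.Defs

/-!
# Asymptotic inequalities II

Part of `MP_4e17b9_nt`. `ℓ = log k → ∞`, `L = ⌈exp (ℓ^(2/5))⌉₊`, so `log L ≤ ℓ^(2/5) + 1`.

`asym3`: `ℓ ≤ K ≤ exp (ℓ^(1/3)) ≤ k`, so the left side is at most `1 + 2 k (C k² ℓ + 1) ≤ k^5 ≤ exp (5 K)`.
`asym4`: `log L (log L + log ℓ + 1)/ℓ ≤ (ℓ^(2/5) + 1) (ℓ^(2/5) + log ℓ + 2)/ℓ → 0`, `log L/ℓ → 0`.
`asym5`: `L ≤ exp (ℓ^(2/5)) + 1 ≤ exp (ℓ/2) = √k` for large `k`; `3 ≤ L`; `L ≤ k`.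
-/

set_option autoImplicit false

namespace Pool.Agent.H1.Jac

open Filter

private lemma tendsto_log_nat : Tendsto (fun k : ℕ => Real.log k) atTop atTop :=
  Real.tendsto_log_atTop.comp tendsto_natCast_atTop_atTop

private lemma rpow_littleO {r : ℝ} (hr : r < 1) :
    (fun x : ℝ => x ^ r) =o[atTop] fun x : ℝ => x := by
  have h0 : ∀ᶠ x : ℝ in atTop, x = 0 → x ^ r = 0 := by
    filter_upwards [eventually_gt_atTop 0] with x hx h
    exact absurd h hx.ne'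
  rw [Asymptotics.isLittleO_iff_tendsto' h0]
  refine (tendsto_rpow_neg_atTop (sub_pos.2 hr)).congr' ?_
  filter_upwards [eventually_gt_atTop 0] with x hx
  rw [neg_sub, Real.rpow_sub hx, Real.rpow_one]

/-- bounds of the ceiling of `exp (ℓ^(2/5))` -/
private lemma ceil_bounds {x : ℝ} (hx : 0 ≤ x) :
    0 ≤ Real.log (⌈Real.exp x⌉₊ : ℝ) ∧ Real.log (⌈Real.exp x⌉₊ : ℝ) ≤ x + 1 ∧
      (⌈Real.exp x⌉₊ : ℝ) ≤ Real.exp (x + 1) ∧ Real.exp x ≤ (⌈Real.exp x⌉₊ : ℝ) := by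
  have h1 : (1 : ℝ) ≤ Real.exp x := Real.one_le_exp hx
  have h2 : Real.exp x ≤ (⌈Real.exp x⌉₊ : ℝ) := Nat.le_ceil _
  have h3 : (⌈Real.exp x⌉₊ : ℝ) < Real.exp x + 1 := Nat.ceil_lt_add_one (by linarith)
  have h4 : (⌈Real.exp x⌉₊ : ℝ) ≤ Real.exp (x + 1) := by
    rw [Real.exp_add]
    have h5 : (2 : ℝ) ≤ Real.exp 1 := by
      have := Real.add_one_le_exp (1 : ℝ)
      linarith
    nlinarith
  refine ⟨Real.log_nonneg (h1.trans h2), ?_, h4, h2⟩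
  have h6 : (0 : ℝ) < (⌈Real.exp x⌉₊ : ℝ) := by linarith
  calc Real.log (⌈Real.exp x⌉₊ : ℝ) ≤ Real.log (Real.exp (x + 1)) := Real.log_le_log h6 h4
    _ = x + 1 := Real.log_exp _

theorem asym3 (C : ℝ) (hC : 0 ≤ C) :
    ∀ᶠ k : ℕ in atTop, ∀ K : ℝ, Real.log k ≤ K → K ≤ Real.exp (Real.log k ^ (1 / 3 : ℝ)) →
      1 + 2 * (k : ℝ) * (C * k * K * Real.log k + 1) ≤ Real.exp (5 * K) := by
  filter_upwards [eventually_ge_atTop 1, eventually_ge_atTop ⌈4 * C + 3⌉₊] with k hk1 hkC K hK _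
  have hk1' : (1 : ℝ) ≤ k := by exact_mod_cast hk1
  have hkC' : 4 * C + 3 ≤ (k : ℝ) := (Nat.le_ceil _).trans (by exact_mod_cast hkC)
  have hl0 : 0 ≤ Real.log k := Real.log_nonneg hk1'
  have hK0 : 0 ≤ K := hl0.trans hK
  have hkE : (k : ℝ) ≤ Real.exp K := by
    calc (k : ℝ) = Real.exp (Real.log k) := (Real.exp_log (by linarith)).symm
      _ ≤ Real.exp K := Real.exp_le_exp.2 hK
  have hE : Real.exp (5 * K) = Real.exp K ^ 5 := by
    rw [← Real.exp_nat_mul]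
    norm_num
  have hKK : K ^ 2 ≤ 2 * Real.exp K := by
    have := Real.quadratic_le_exp_of_nonneg hK0
    nlinarith
  rw [hE]
  set E := Real.exp K with hEdef
  have hE1 : 1 ≤ E := hk1'.trans hkE
  have hk0 : (0 : ℝ) ≤ k := by linarith
  have hE0 : (0 : ℝ) ≤ E := by linarith
  have hKl : K * Real.log k ≤ 2 * E := by
    calc K * Real.log k ≤ K * K := mul_le_mul_of_nonneg_left hK hK0
      _ = K ^ 2 := by ring
      _ ≤ 2 * E := hKK
  have hKl0 : 0 ≤ K * Real.log k := mul_nonneg hK0 hl0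
  have hkk : (k : ℝ) * k ≤ E * E := mul_le_mul hkE hkE hk0 hE0
  have h1 : (k : ℝ) * k * (K * Real.log k) ≤ E * E * (2 * E) :=
    mul_le_mul hkk hKl hKl0 (mul_nonneg hE0 hE0)
  have h2 : 1 + 2 * (k : ℝ) * (C * k * K * Real.log k + 1) ≤ 1 + 2 * E + 4 * C * E ^ 3 := by
    have h3 : C * ((k : ℝ) * k * (K * Real.log k)) ≤ C * (E * E * (2 * E)) :=
      mul_le_mul_of_nonneg_left h1 hC
    nlinarith
  have h4 : 1 + 2 * E + 4 * C * E ^ 3 ≤ (4 * C + 3) * E ^ 3 := by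
    have h5 : E ≤ E ^ 3 := by
      calc E = E ^ 1 := (pow_one E).symm
        _ ≤ E ^ 3 := pow_le_pow_right₀ hE1 (by norm_num)
    nlinarith
  have h6 : (4 * C + 3) * E ^ 3 ≤ E ^ 2 * E ^ 3 := by
    apply mul_le_mul_of_nonneg_right _ (by positivity)
    have h7 : 4 * C + 3 ≤ E := hkC'.trans hkE
    nlinarith
  calc 1 + 2 * (k : ℝ) * (C * k * K * Real.log k + 1) ≤ 1 + 2 * E + 4 * C * E ^ 3 := h2
    _ ≤ (4 * C + 3) * E ^ 3 := h4
    _ ≤ E ^ 2 * E ^ 3 := h6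
    _ = E ^ 5 := by ring

theorem asym4 (A B η : ℝ) (hη : 0 < η) :
    ∀ᶠ k : ℕ in atTop,
      A * Real.log (⌈Real.exp (Real.log k ^ (2 / 5 : ℝ))⌉₊ : ℝ) *
          (Real.log (⌈Real.exp (Real.log k ^ (2 / 5 : ℝ))⌉₊ : ℝ) + Real.log (Real.log k) + 1) /
          Real.log k +
        B * Real.log (⌈Real.exp (Real.log k ^ (2 / 5 : ℝ))⌉₊ : ℝ) / Real.log k ≤ η := by
  have key : Tendsto (fun x : ℝ =>
      A * Real.log (⌈Real.exp (x ^ (2 / 5 : ℝ))⌉₊ : ℝ) *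
          (Real.log (⌈Real.exp (x ^ (2 / 5 : ℝ))⌉₊ : ℝ) + Real.log x + 1) / x +
        B * Real.log (⌈Real.exp (x ^ (2 / 5 : ℝ))⌉₊ : ℝ) / x) atTop (nhds 0) := by
    have hone : (fun _ : ℝ => (1 : ℝ)) =O[atTop] fun x : ℝ => x ^ (2 / 5 : ℝ) := by
      refine Asymptotics.IsBigO.of_bound 1 ?_
      filter_upwards [eventually_ge_atTop 1] with x hx
      rw [Real.norm_of_nonneg zero_le_one, one_mul,
        Real.norm_of_nonneg (Real.rpow_nonneg (by linarith) _)]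
      exact Real.one_le_rpow hx (by norm_num)
    have hf : (fun x : ℝ => Real.log (⌈Real.exp (x ^ (2 / 5 : ℝ))⌉₊ : ℝ)) =O[atTop]
        fun x : ℝ => x ^ (2 / 5 : ℝ) := by
      refine Asymptotics.IsBigO.of_bound 2 ?_
      filter_upwards [eventually_ge_atTop 1] with x hx
      have h0 : 1 ≤ x ^ (2 / 5 : ℝ) := Real.one_le_rpow hx (by norm_num)
      obtain ⟨h1, h2, -, -⟩ := ceil_bounds (le_trans zero_le_one h0)
      rw [Real.norm_of_nonneg h1, Real.norm_of_nonneg (le_trans zero_le_one h0)]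
      linarith
    have hlog : (fun x : ℝ => Real.log x) =O[atTop] fun x : ℝ => x ^ (2 / 5 : ℝ) :=
      (isLittleO_log_rpow_atTop (by norm_num)).isBigO
    have hsum : (fun x : ℝ => Real.log (⌈Real.exp (x ^ (2 / 5 : ℝ))⌉₊ : ℝ) + Real.log x + 1)
        =O[atTop] fun x : ℝ => x ^ (2 / 5 : ℝ) := (hf.add hlog).add hone
    have hprod := hf.mul hsum
    have hlit : (fun x : ℝ => x ^ (2 / 5 : ℝ) * x ^ (2 / 5 : ℝ)) =o[atTop] fun x : ℝ => x := by
      have h1 : (fun x : ℝ => x ^ (4 / 5 : ℝ)) =o[atTop] fun x : ℝ => x :=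
        rpow_littleO (by norm_num)
      refine (h1.congr' ?_ EventuallyEq.rfl)
      filter_upwards [eventually_gt_atTop 0] with x hx
      rw [← Real.rpow_add hx]
      norm_num
    have hlit2 : (fun x : ℝ => x ^ (2 / 5 : ℝ)) =o[atTop] fun x : ℝ => x :=
      rpow_littleO (by norm_num)
    have hA := ((hprod.trans_isLittleO hlit).tendsto_div_nhds_zero).const_mul A
    have hB := ((hf.trans_isLittleO hlit2).tendsto_div_nhds_zero).const_mul B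
    have hAB := hA.add hB
    rw [mul_zero, mul_zero, add_zero] at hAB
    refine hAB.congr fun x => ?_
    ring
  have h2 := key.comp tendsto_log_nat
  exact h2.eventually (Iic_mem_nhds hη)

theorem asym5 :
    ∀ᶠ k : ℕ in atTop, (⌈Real.exp (Real.log k ^ (2 / 5 : ℝ))⌉₊ : ℝ) ≤ Real.sqrt k ∧
      3 ≤ ⌈Real.exp (Real.log k ^ (2 / 5 : ℝ))⌉₊ := by
  have hlit : (fun x : ℝ => x ^ (2 / 5 : ℝ)) =o[atTop] fun x : ℝ => x :=
    rpow_littleO (by norm_num)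
  have hreal : ∀ᶠ x : ℝ in atTop, x ^ (2 / 5 : ℝ) + 1 ≤ x / 2 ∧ 2 ≤ x ^ (2 / 5 : ℝ) := by
    filter_upwards [hlit.bound (show (0 : ℝ) < 1 / 4 by norm_num), eventually_ge_atTop 4,
      (tendsto_rpow_atTop (show (0 : ℝ) < 2 / 5 by norm_num)).eventually_ge_atTop 2] with x h1 h2 h3
    have h4 : 0 ≤ x ^ (2 / 5 : ℝ) := by linarith
    rw [Real.norm_of_nonneg h4, Real.norm_of_nonneg (by linarith : (0 : ℝ) ≤ x)] at h1
    exact ⟨by linarith, h3⟩
  filter_upwards [tendsto_log_nat.eventually hreal, eventually_ge_atTop 1] with k hk hk1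
  obtain ⟨h1, h2⟩ := hk
  have hk1' : (1 : ℝ) ≤ k := by exact_mod_cast hk1
  obtain ⟨-, -, h3, h4⟩ := ceil_bounds (le_trans zero_le_two h2)
  constructor
  · have h5 : Real.sqrt k = Real.exp (Real.log k / 2) := by
      rw [Real.sqrt_eq_iff_mul_self_eq (by linarith) (Real.exp_pos _).le, ← Real.exp_add,
        add_halves, Real.exp_log (by linarith)]
    rw [h5]
    exact h3.trans (Real.exp_le_exp.2 h1)
  · have h6 : (3 : ℝ) ≤ Real.exp (Real.log k ^ (2 / 5 : ℝ)) := by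
      have := Real.add_one_le_exp (Real.log k ^ (2 / 5 : ℝ))
      linarith
    exact_mod_cast h6.trans h4

end Pool.Agent.H1.Jac
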