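import Mathlib

/-!
# The sieving level

Part of `MP_4e17b9_nt`. Take `y := ⌊(log k) ^ (1 / (2 N))⌋₊`; for large `k` it is at least
`(log k) ^ (1 / (4 N))`.
-/

set_option autoImplicit false

namespace Pool.Agent.H1.Jac

open Finset Filter

theorem asymC (N : ℕ) (hN : 1 ≤ N) : ∀ᶠ k : ℕ in atTop, ∃ y : ℕ, 2 ≤ y ∧ y ≤ k ∧
    (y : ℝ) ^ N ≤ Real.log k ^ (1 / 2 : ℝ) ∧
    Real.log (Real.log k) / (4 * N) ≤ Real.log y := by
  have hN0 : (0 : ℝ) < N := by exact_mod_cast hN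
  have h4 : (0 : ℝ) < 1 / (4 * N) := by positivity
  have hlog : Tendsto (fun k : ℕ => Real.log (k : ℝ)) atTop atTop :=
    Real.tendsto_log_atTop.comp tendsto_natCast_atTop_atTop
  have ht : Tendsto (fun k : ℕ => Real.log (k : ℝ) ^ (1 / (4 * N) : ℝ)) atTop atTop :=
    (tendsto_rpow_atTop h4).comp hlog
  filter_upwards [ht.eventually_ge_atTop 2, hlog.eventually_ge_atTop 1] with k hs ha
  set a : ℝ := Real.log (k : ℝ) with hadef
  have ha0 : 0 < a := by linarith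
  set s : ℝ := a ^ (1 / (4 * N) : ℝ) with hsdef
  have hs0 : 0 < s := by linarith
  -- `s ^ (2 N) = a ^ (1 / 2)`
  have hpow : (s ^ 2) ^ N = a ^ (1 / 2 : ℝ) := by
    rw [← pow_mul, hsdef, ← Real.rpow_natCast, ← Real.rpow_mul ha0.le]
    congr 1
    push_cast
    field_simp
    norm_num
  have hs2 : s ≤ s ^ 2 - 1 := by nlinarith
  have hfl : s ^ 2 - 1 < (⌊s ^ 2⌋₊ : ℝ) := by
    have := Nat.lt_floor_add_one (s ^ 2)
    linarith
  have hfle : (⌊s ^ 2⌋₊ : ℝ) ≤ s ^ 2 := Nat.floor_le (by positivity)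
  have hy : s ≤ (⌊s ^ 2⌋₊ : ℝ) := by linarith
  refine ⟨⌊s ^ 2⌋₊, ?_, ?_, ?_, ?_⟩
  · have : (2 : ℝ) ≤ (⌊s ^ 2⌋₊ : ℝ) := by linarith
    exact_mod_cast this
  · have hk0 : (0 : ℝ) < k := by
      rcases Nat.eq_zero_or_pos k with h0 | h0
      · rw [hadef, h0] at ha
        norm_num at ha
      · exact_mod_cast h0
    have h1 : s ^ 2 ≤ (s ^ 2) ^ N := by
      refine le_self_pow₀ ?_ (by omega)
      nlinarith
    have h2 : a ^ (1 / 2 : ℝ) ≤ a := by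
      calc a ^ (1 / 2 : ℝ) ≤ a ^ (1 : ℝ) := Real.rpow_le_rpow_of_exponent_le ha (by norm_num)
        _ = a := Real.rpow_one a
    have h3 : a ≤ k := by
      rw [hadef]
      have := Real.log_le_sub_one_of_pos hk0
      linarith
    have : (⌊s ^ 2⌋₊ : ℝ) ≤ (k : ℝ) := by
      calc (⌊s ^ 2⌋₊ : ℝ) ≤ s ^ 2 := hfle
        _ ≤ (s ^ 2) ^ N := h1
        _ = a ^ (1 / 2 : ℝ) := hpow
        _ ≤ a := h2
        _ ≤ k := h3
    exact_mod_cast this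
  · calc ((⌊s ^ 2⌋₊ : ℕ) : ℝ) ^ N ≤ (s ^ 2) ^ N := pow_le_pow_left₀ (Nat.cast_nonneg _) hfle N
      _ = a ^ (1 / 2 : ℝ) := hpow
  · calc Real.log a / (4 * N) = (1 / (4 * N)) * Real.log a := by ring
      _ = Real.log s := by rw [hsdef, Real.log_rpow ha0]
      _ ≤ Real.log (⌊s ^ 2⌋₊ : ℝ) := Real.log_le_log hs0 hy

end Pool.Agent.H1.Jac
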