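import Mathlib

/-!
# Chebyshev's upper bound

Part of `MP_4e17b9_nt`. The primes of `E` above `√Y` satisfy `∏ p ≤ primorial ⌊Y⌋ ≤ 4 ^ Y`
(`primorial_le_four_pow`), so there are at most `2 Y log 4 / log Y` of them, and there are at most
`√Y` primes up to `√Y`. Here `log Y ≥ (log k) / 2`, and `√Y ≤ 8 Y / log Y`.
(Or use Mathlib's `Chebyshev` file, `eventually_primeCounting_le`.)
-/

set_option autoImplicit false

namespace Pool.Agent.H1.Jac

open Finset

theorem cheb : ∃ C : ℝ, 0 < C ∧ ∀ k : ℕ, 3 ≤ k → ∀ Y : ℝ, Real.sqrt k ≤ Y → ∀ E : Finset ℕ,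
    (∀ p ∈ E, p.Prime) → (∀ p ∈ E, (p : ℝ) ≤ Y) → (E.card : ℝ) ≤ C * Y / Real.log k := by
  have h4 : 0 < Real.log 4 := Real.log_pos (by norm_num)
  refine ⟨4 * Real.log 4 + 4, by positivity, ?_⟩
  intro k hk Y hY E hE hEY
  have hk3 : (3 : ℝ) ≤ k := by exact_mod_cast hk
  have hk0 : (0 : ℝ) < k := by linarith
  have hsk : (1 : ℝ) < Real.sqrt k := by
    rw [Real.lt_sqrt (by norm_num)]
    linarith
  have hY1 : (1 : ℝ) < Y := lt_of_lt_of_le hsk hY
  have hY0 : (0 : ℝ) < Y := by linarith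
  have hlk : 0 < Real.log k := Real.log_pos (by linarith)
  have hsY1 : (1 : ℝ) < Real.sqrt Y := by
    rw [Real.lt_sqrt (by norm_num)]
    linarith
  have hlsY : 0 < Real.log (Real.sqrt Y) := Real.log_pos hsY1
  have h1 : (E.card : ℝ) ≤ Nat.primeCounting ⌊Y⌋₊ := by
    have hsub : E ⊆ (Finset.range (⌊Y⌋₊ + 1)).filter Nat.Prime := by
      intro p hp
      rw [Finset.mem_filter, Finset.mem_range]
      exact ⟨Nat.lt_succ_of_le (Nat.le_floor (hEY p hp)), hE p hp⟩
    have := Finset.card_le_card hsub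
    rw [Nat.primeCounting, Nat.primeCounting', Nat.count_eq_card_filter_range]
    exact_mod_cast this
  have h2 := Chebyshev.pi_le_log4_mul_div hY1
  have hlog : Real.log k ≤ 4 * Real.log (Real.sqrt Y) := by
    have e1 : Real.log (Real.sqrt k) = Real.log k / 2 := Real.log_sqrt hk0.le
    have e2 : Real.log (Real.sqrt Y) = Real.log Y / 2 := Real.log_sqrt hY0.le
    have e3 : Real.log (Real.sqrt k) ≤ Real.log Y := Real.log_le_log (by linarith) hY
    linarith
  have hA : Real.log 4 * Y / Real.log (Real.sqrt Y) ≤ 4 * Real.log 4 * Y / Real.log k := by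
    rw [div_le_div_iff₀ hlsY hlk]
    have : 0 ≤ Real.log 4 * Y := by positivity
    nlinarith [mul_le_mul_of_nonneg_left hlog this]
  have hB : Real.sqrt Y ≤ 4 * Y / Real.log k := by
    rw [le_div_iff₀ hlk]
    have e4 : Real.log (Real.sqrt Y) ≤ Real.sqrt Y := by
      have := Real.log_le_sub_one_of_pos (show 0 < Real.sqrt Y by linarith)
      linarith
    have e5 : Real.sqrt Y * Real.sqrt Y = Y := Real.mul_self_sqrt hY0.le
    have e6 : Real.log k ≤ 4 * Real.sqrt Y := by linarith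
    nlinarith [mul_le_mul_of_nonneg_left e6 (show 0 ≤ Real.sqrt Y by linarith)]
  calc (E.card : ℝ) ≤ Nat.primeCounting ⌊Y⌋₊ := h1
    _ ≤ Real.log 4 * Y / Real.log (Real.sqrt Y) + Real.sqrt Y := h2
    _ ≤ 4 * Real.log 4 * Y / Real.log k + 4 * Y / Real.log k := add_le_add hA hB
    _ = (4 * Real.log 4 + 4) * Y / Real.log k := by ring

end Pool.Agent.H1.Jac
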