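import Pool.Agent.H1.Jac.Defs

/-!
# Counting in a progression with congruences

Part of `MP_4e17b9_nt`. The numbers `i < m` with `p ∣ c + i` and `q ∣ a + i` for all `q ∈ D`: by the
Chinese remainder theorem these are the `i < m` in one residue class modulo `N = p * ∏ q ∈ D, q`
(induction on `D`, or `Pool.Agent.H48.SF.BrunC_card_crt` and `Pool.Agent.H95.Gol.card_interval`), so
their number is between `m / N - 1` and `m / N + 1` (`Nat.count_modEq_card`, or any other way).
`cnt_class`: `D = {q}`. `cnt_ap`: `D = ∅`.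
-/

set_option autoImplicit false

namespace Pool.Agent.H1.Jac

open Finset

private theorem dvd_iff_modEq (p c : ℕ) (hp : 0 < p) :
    ∃ r, ∀ i, p ∣ c + i ↔ i ≡ r [MOD p] := by
  refine ⟨(p - 1) * c, fun i => ?_⟩
  have h1 : c + (p - 1) * c = p * c := by
    obtain ⟨k, rfl⟩ : ∃ k, p = k + 1 := ⟨p - 1, by omega⟩
    simp only [Nat.add_sub_cancel]
    ring
  have h2 : p ∣ c + (p - 1) * c := by
    rw [h1]
    exact Nat.dvd_mul_right p c
  constructor
  · intro h
    have h3 : c + i ≡ c + (p - 1) * c [MOD p] :=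
      ((Nat.modEq_zero_iff_dvd).2 h).trans ((Nat.modEq_zero_iff_dvd).2 h2).symm
    exact Nat.ModEq.add_left_cancel' c h3
  · intro h
    have h3 : c + i ≡ c + (p - 1) * c [MOD p] := Nat.ModEq.add_left c h
    exact (Nat.modEq_zero_iff_dvd).1 (h3.trans ((Nat.modEq_zero_iff_dvd).2 h2))

private theorem crt_aux (p c a : ℕ) (hp : 0 < p) (D : Finset ℕ) :
    (∀ q ∈ D, q.Prime) → (∀ q ∈ D, Nat.Coprime p q) →
    ∃ r, ∀ i, (p ∣ c + i ∧ ∀ q ∈ D, q ∣ a + i) ↔ i ≡ r [MOD p * ∏ q ∈ D, q] := by
  classical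
  induction D using Finset.induction_on with
  | empty =>
    intro _ _
    obtain ⟨r, hr⟩ := dvd_iff_modEq p c hp
    refine ⟨r, fun i => ?_⟩
    simp [hr i]
  | insert q D hq ih =>
    intro hD hpD
    obtain ⟨r, hr⟩ := ih (fun x hx => hD x (mem_insert_of_mem hx))
      (fun x hx => hpD x (mem_insert_of_mem hx))
    have hqp : q.Prime := hD q (mem_insert_self q D)
    obtain ⟨r', hr'⟩ := dvd_iff_modEq q a hqp.pos
    have hcop : Nat.Coprime (p * ∏ x ∈ D, x) q := by
      apply Nat.Coprime.mul_left (hpD q (mem_insert_self q D))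
      apply Nat.Coprime.prod_left
      intro x hx
      rw [Nat.coprime_primes (hD x (mem_insert_of_mem hx)) hqp]
      rintro rfl
      exact hq hx
    refine ⟨Nat.chineseRemainder hcop r r', fun i => ?_⟩
    have hprod : p * ∏ x ∈ insert q D, x = (p * ∏ x ∈ D, x) * q := by
      rw [prod_insert hq]
      ring
    rw [hprod, ← Nat.modEq_and_modEq_iff_modEq_mul hcop]
    have h1 := (Nat.chineseRemainder hcop r r').2.1
    have h2 := (Nat.chineseRemainder hcop r r').2.2
    constructor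
    · rintro ⟨h3, h4⟩
      refine ⟨?_, ?_⟩
      · exact ((hr i).1 ⟨h3, fun x hx => h4 x (mem_insert_of_mem hx)⟩).trans h1.symm
      · exact ((hr' i).1 (h4 q (mem_insert_self q D))).trans h2.symm
    · rintro ⟨h3, h4⟩
      have h5 := (hr i).2 (h3.trans h1)
      have h6 := (hr' i).2 (h4.trans h2)
      refine ⟨h5.1, ?_⟩
      intro x hx
      rcases mem_insert.1 hx with rfl | hx
      · exact h6
      · exact h5.2 x hx

private theorem count_aux (m N r : ℕ) (hN : 0 < N) :
    |(((range m).filter (fun i => i ≡ r [MOD N])).card : ℝ) - (m : ℝ) / N| ≤ 1 := by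
  have h1 : ((range m).filter (fun i => i ≡ r [MOD N])).card
      = m / N + if r % N < m % N then 1 else 0 := by
    rw [← Nat.count_eq_card_filter_range, Nat.count_modEq_card m hN r]
  have hN' : (0 : ℝ) < N := by exact_mod_cast hN
  have h2 : ((m / N : ℕ) : ℝ) ≤ (m : ℝ) / N := Nat.cast_div_le
  have h3 : (m : ℝ) / N < ((m / N : ℕ) : ℝ) + 1 := by
    rw [div_lt_iff₀ hN']
    have h4 : m < (m / N + 1) * N := by
      have h5 := Nat.div_add_mod m N
      have h6 := Nat.mod_lt m hN
      rw [add_mul, one_mul, mul_comm]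
      omega
    exact_mod_cast h4
  rw [h1]
  push_cast
  split_ifs <;> (rw [abs_le]; constructor <;> linarith)

theorem cnt (m p c a : ℕ) (hp : 0 < p) (D : Finset ℕ) (hD : ∀ q ∈ D, q.Prime)
    (hpD : ∀ q ∈ D, Nat.Coprime p q) :
    |(((AP m p c).filter (fun i => ∀ q ∈ D, q ∣ a + i)).card : ℝ) -
      (m : ℝ) / (p * ∏ q ∈ D, (q : ℝ))| ≤ 1 := by
  obtain ⟨r, hr⟩ := crt_aux p c a hp D hD hpD
  have hN : 0 < p * ∏ q ∈ D, q :=
    Nat.mul_pos hp (Finset.prod_pos fun q hq => (hD q hq).pos)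
  have h1 := count_aux m (p * ∏ q ∈ D, q) r hN
  have h2 : (AP m p c).filter (fun i => ∀ q ∈ D, q ∣ a + i)
      = (range m).filter (fun i => i ≡ r [MOD p * ∏ q ∈ D, q]) := by
    unfold AP
    rw [filter_filter]
    apply filter_congr
    intro i _
    exact hr i
  rw [h2]
  push_cast at h1
  exact h1

theorem cnt_class (m p c : ℕ) (hp : 0 < p) (q : ℕ) (hq : q.Prime) (hpq : Nat.Coprime p q)
    (r : ℕ) : (((AP m p c).filter (fun i => q ∣ r + i)).card : ℝ) ≤ (m : ℝ) / p / q + 1 := by
  have h1 := cnt m p c r hp {q} (by simpa using hq) (by simpa using hpq)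
  simp only [mem_singleton, forall_eq, prod_singleton] at h1
  rw [div_div]
  have h2 := (abs_le.1 h1).2
  linarith

theorem cnt_ap (m p c : ℕ) (hp : 0 < p) : ((AP m p c).card : ℝ) ≤ (m : ℝ) / p + 1 := by
  have h1 := cnt m p c 0 hp ∅ (by simp) (by simp)
  simp only [notMem_empty, false_imp_iff, imp_true_iff, filter_true, prod_empty, mul_one] at h1
  have h2 := (abs_le.1 h1).2
  linarith

end Pool.Agent.H1.Jac
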