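import Pool.Agent.H1.Jac.Defs

/-!
# One random residue class: lower exponential moment

Part of `MP_4e17b9_nt`. For `r < q` let `c_r` be the number of the `i ∈ R` with `q ∣ r + i`; these
sets partition `R`, so `∑ c_r = |R|`, and the number of the `i ∈ R` with `¬ q ∣ r + i` is `|R| - c_r`.
`0 ≤ c_r ≤ M` and `t M ≤ 1`, so `exp (t c_r) ≤ 1 + t c_r + t² c_r² ≤ 1 + t c_r + t² M c_r`
(`Real.exp_bound'` or `Real.abs_exp_sub_one_sub_id_le`), hence
`(1/q) ∑_r exp (t c_r) ≤ 1 + (t |R|/q) (1 + t M) ≤ exp ((t |R|/q) (1 + t M))`, and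
`-t |R| + (t |R|/q) (1 + t M) = -t |R| (1 - 1/q - t M/q) ≤ -t |R| (1 - 1/q) (1 - 2 t M/q)`, as
`(1 - 1/q) (1 - 2 x) = 1 - 1/q - 2 x (1 - 1/q) ≤ 1 - 1/q - x` for `x = t M/q ≥ 0`, `1 - 1/q ≥ 1/2`.
-/

set_option autoImplicit false

namespace Pool.Agent.H1.Jac

open Finset

private lemma sl_sum (R : Finset ℕ) (q : ℕ) (hq : 2 ≤ q) :
    ∑ r ∈ range q, (R.filter (fun i => q ∣ r + i)).card = R.card := by
  simp_rw [Finset.card_filter]
  rw [Finset.sum_comm, Finset.card_eq_sum_ones]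
  refine Finset.sum_congr rfl fun i _ => ?_
  have hq0 : 0 < q := by omega
  have hd : q ∣ (q - i % q) % q + i := by
    have h1 : i % q < q := Nat.mod_lt _ hq0
    have h2 : q ∣ (q - i % q) + i := by
      have h3 : (q - i % q) + i = q + q * (i / q) := by
        have h4 := Nat.mod_add_div i q
        omega
      rw [h3]
      exact Dvd.dvd.add (dvd_refl q) (dvd_mul_right q _)
    have h5 : ((q - i % q) % q + i) ≡ ((q - i % q) + i) [MOD q] :=
      (Nat.mod_modEq _ _).add_right i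
    exact (Nat.modEq_zero_iff_dvd).1 (h5.trans ((Nat.modEq_zero_iff_dvd).2 h2))
  rw [Finset.sum_eq_single ((q - i % q) % q)]
  · rw [if_pos hd]
  · intro r hr hne
    rw [if_neg]
    intro h
    apply hne
    have h1 : r + i ≡ (q - i % q) % q + i [MOD q] :=
      ((Nat.modEq_zero_iff_dvd).2 h).trans ((Nat.modEq_zero_iff_dvd).2 hd).symm
    exact (Nat.ModEq.add_right_cancel' i h1).eq_of_lt_of_lt (Finset.mem_range.1 hr)
      (Nat.mod_lt _ hq0)
  · intro h
    exact absurd (Finset.mem_range.2 (Nat.mod_lt _ hq0)) h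

private lemma sl_not (R : Finset ℕ) (q r : ℕ) :
    ((R.filter (fun i => ¬ q ∣ r + i)).card : ℝ)
      = R.card - ((R.filter (fun i => q ∣ r + i)).card : ℝ) := by
  have h : (R.filter (fun i => q ∣ r + i)).card + (R.filter (fun i => ¬ q ∣ r + i)).card
      = R.card := Finset.card_filter_add_card_filter_not _
  have h' : (((R.filter (fun i => q ∣ r + i)).card : ℝ))
      + ((R.filter (fun i => ¬ q ∣ r + i)).card : ℝ) = R.card := by exact_mod_cast h
  linarith

private lemma sl_sumR (R : Finset ℕ) (q : ℕ) (hq : 2 ≤ q) :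
    ∑ r ∈ range q, ((R.filter (fun i => q ∣ r + i)).card : ℝ) = R.card := by
  exact_mod_cast sl_sum R q hq

theorem step_lo (R : Finset ℕ) (q : ℕ) (hq : 2 ≤ q) (M t : ℝ) (ht : 0 ≤ t) (htM : t * M ≤ 1)
    (hM : ∀ r, ((R.filter (fun i => q ∣ r + i)).card : ℝ) ≤ M) :
    ∑ r ∈ range q, Real.exp (-(t * ((R.filter (fun i => ¬ q ∣ r + i)).card : ℝ))) ≤
      q * Real.exp (-(t * R.card * ((1 - 1 / (q : ℝ)) * (1 - 2 * t * M / q)))) := by
  have hq0 : (0 : ℝ) < q := by
    have : 0 < q := by omega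
    exact_mod_cast this
  have hq2 : (2 : ℝ) ≤ q := by exact_mod_cast hq
  have hM0 : 0 ≤ M := (Nat.cast_nonneg _).trans (hM 0)
  have hexp : ∀ x : ℝ, 0 ≤ x → x ≤ 1 → Real.exp x ≤ 1 + x + x ^ 2 := by
    intro x hx hx1
    have h1 := Real.abs_exp_sub_one_sub_id_le (x := x) (by rw [abs_of_nonneg hx]; exact hx1)
    have h2 := (abs_le.1 h1).2
    linarith
  set N : ℝ := (R.card : ℝ) with hN
  have hN0 : 0 ≤ N := Nat.cast_nonneg _
  have hterm : ∀ r ∈ range q, Real.exp (-(t * ((R.filter (fun i => ¬ q ∣ r + i)).card : ℝ)))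
      ≤ Real.exp (-(t * N)) * (1 + t * (1 + t * M) * ((R.filter (fun i => q ∣ r + i)).card : ℝ)) := by
    intro r _
    rw [sl_not, ← hN]
    set c : ℝ := ((R.filter (fun i => q ∣ r + i)).card : ℝ) with hc
    have hc0 : 0 ≤ c := Nat.cast_nonneg _
    have hcM : c ≤ M := hM r
    have h1 : -(t * (N - c)) = -(t * N) + t * c := by ring
    rw [h1, Real.exp_add]
    refine mul_le_mul_of_nonneg_left ?_ (Real.exp_pos _).le
    have h0 : t * c ≤ 1 := (mul_le_mul_of_nonneg_left hcM ht).trans htM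
    refine (hexp (t * c) (by positivity) h0).trans ?_
    have h2 : c ^ 2 ≤ M * c := by nlinarith
    nlinarith [mul_le_mul_of_nonneg_left h2 (sq_nonneg t)]
  refine (Finset.sum_le_sum hterm).trans ?_
  rw [← Finset.mul_sum, Finset.sum_add_distrib, ← Finset.mul_sum, sl_sumR R q hq, ← hN]
  simp only [Finset.sum_const, Finset.card_range, nsmul_eq_mul, mul_one]
  have h3 : Real.exp (-(t * N)) * (q + t * (1 + t * M) * N)
      = q * (Real.exp (-(t * N)) * (1 + (t * N / q) * (1 + t * M))) := by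
    field_simp
  rw [h3]
  refine mul_le_mul_of_nonneg_left ?_ hq0.le
  have h4 : 1 + (t * N / q) * (1 + t * M) ≤ Real.exp ((t * N / q) * (1 + t * M)) := by
    have := Real.add_one_le_exp ((t * N / q) * (1 + t * M))
    linarith
  refine (mul_le_mul_of_nonneg_left h4 (Real.exp_pos _).le).trans ?_
  rw [← Real.exp_add]
  apply Real.exp_le_exp.2
  have h5 : -(t * N) + (t * N / q) * (1 + t * M)
      = -(t * N * (1 - 1 / q - t * M / q)) := by
    field_simp
    ring
  rw [h5]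
  apply neg_le_neg
  refine mul_le_mul_of_nonneg_left ?_ (by positivity)
  have h6 : (1 : ℝ) / 2 ≤ 1 - 1 / q := by
    have : (1 : ℝ) / q ≤ 1 / 2 := one_div_le_one_div_of_le (by norm_num) hq2
    linarith
  have h7 : 0 ≤ t * M / q := by positivity
  have h8 : 2 * t * M / q = 2 * (t * M / q) := by ring
  rw [h8]
  nlinarith

end Pool.Agent.H1.Jac
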