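import Pool.Agent.H1.Jac.Defs

/-!
# One random residue class: upper exponential moment

Part of `MP_4e17b9_nt`. For `r < q` let `c_r` be the number of the `i ∈ R` with `q ∣ r + i`; these
sets partition `R`, so `∑ c_r = |R|`, and the number of the `i ∈ R` with `¬ q ∣ r + i` is `|R| - c_r`.
`0 ≤ c_r ≤ M`. So `exp (-t c_r) ≤ 1 - t c_r + t² c_r² / 2 ≤ 1 - t c_r + t² M c_r / 2`
(`exp (-x) ≤ 1 - x + x²/2` for `x ≥ 0`), hence
`(1/q) ∑_r exp (-t c_r) ≤ 1 - (t |R|/q) (1 - t M / 2) ≤ exp (-(t |R|/q) (1 - t M/2))`, and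
`t |R| - (t |R|/q) (1 - t M/2) = t |R| (1 - 1/q + t M / (2 q)) ≤ t |R| (1 - 1/q) (1 + t M/q)`, as
`1 - 1/q ≥ 1/2`. (`t M ≤ 1` is not needed here.)
-/

set_option autoImplicit false

namespace Pool.Agent.H1.Jac

open Finset

private lemma su_sum (R : Finset ℕ) (q : ℕ) (hq : 2 ≤ q) :
    ∑ r ∈ range q, (R.filter (fun i => q ∣ r + i)).card = R.card := by
  simp_rw [Finset.card_filter]
  rw [Finset.sum_comm, Finset.card_eq_sum_ones]
  refine Finset.sum_congr rfl fun i _ => ?_
  have hq0 : 0 < q := by omega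
  have hd : q ∣ (q - i % q) % q + i := by
    have h1 : i % q < q := Nat.mod_lt _ hq0
    have h2 : q ∣ (q - i % q) + i := by
      have h3 : (q - i % q) + i = q + q * (i / q) := by
        have h4 := Nat.mod_add_div i q
        omega
      rw [h3]
      exact Dvd.dvd.add (dvd_refl q) (dvd_mul_right q _)
    have h5 : ((q - i % q) % q + i) ≡ ((q - i % q) + i) [MOD q] :=
      (Nat.mod_modEq _ _).add_right i
    exact (Nat.modEq_zero_iff_dvd).1 (h5.trans ((Nat.modEq_zero_iff_dvd).2 h2))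
  rw [Finset.sum_eq_single ((q - i % q) % q)]
  · rw [if_pos hd]
  · intro r hr hne
    rw [if_neg]
    intro h
    apply hne
    have h1 : r + i ≡ (q - i % q) % q + i [MOD q] :=
      ((Nat.modEq_zero_iff_dvd).2 h).trans ((Nat.modEq_zero_iff_dvd).2 hd).symm
    exact (Nat.ModEq.add_right_cancel' i h1).eq_of_lt_of_lt (Finset.mem_range.1 hr)
      (Nat.mod_lt _ hq0)
  · intro h
    exact absurd (Finset.mem_range.2 (Nat.mod_lt _ hq0)) h

private lemma su_not (R : Finset ℕ) (q r : ℕ) :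
    ((R.filter (fun i => ¬ q ∣ r + i)).card : ℝ)
      = R.card - ((R.filter (fun i => q ∣ r + i)).card : ℝ) := by
  have h : (R.filter (fun i => q ∣ r + i)).card + (R.filter (fun i => ¬ q ∣ r + i)).card
      = R.card := Finset.card_filter_add_card_filter_not _
  have h' : (((R.filter (fun i => q ∣ r + i)).card : ℝ))
      + ((R.filter (fun i => ¬ q ∣ r + i)).card : ℝ) = R.card := by exact_mod_cast h
  linarith

private lemma su_sumR (R : Finset ℕ) (q : ℕ) (hq : 2 ≤ q) :
    ∑ r ∈ range q, ((R.filter (fun i => q ∣ r + i)).card : ℝ) = R.card := by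
  exact_mod_cast su_sum R q hq

theorem step_up (R : Finset ℕ) (q : ℕ) (hq : 2 ≤ q) (M t : ℝ) (ht : 0 ≤ t)
    (hM : ∀ r, ((R.filter (fun i => q ∣ r + i)).card : ℝ) ≤ M) :
    ∑ r ∈ range q, Real.exp (t * ((R.filter (fun i => ¬ q ∣ r + i)).card : ℝ)) ≤
      q * Real.exp (t * R.card * ((1 - 1 / (q : ℝ)) * (1 + t * M / q))) := by
  have hq0 : (0 : ℝ) < q := by
    have : 0 < q := by omega
    exact_mod_cast this
  have hq2 : (2 : ℝ) ≤ q := by exact_mod_cast hq
  have hM0 : 0 ≤ M := (Nat.cast_nonneg _).trans (hM 0)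
  have hexp : ∀ x : ℝ, 0 ≤ x → Real.exp (-x) ≤ 1 - x + x ^ 2 / 2 := by
    intro x hx
    have h1 := Real.quadratic_le_exp_of_nonneg hx
    have h2 : 0 < 1 + x + x ^ 2 / 2 := by positivity
    rw [Real.exp_neg, inv_le_iff_one_le_mul₀ (Real.exp_pos x)]
    have h3 : 0 ≤ 1 - x + x ^ 2 / 2 := by nlinarith [sq_nonneg (x - 1)]
    calc (1 : ℝ) ≤ (1 - x + x ^ 2 / 2) * (1 + x + x ^ 2 / 2) := by nlinarith [sq_nonneg (x ^ 2)]
      _ ≤ (1 - x + x ^ 2 / 2) * Real.exp x := mul_le_mul_of_nonneg_left h1 h3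
  set N : ℝ := (R.card : ℝ) with hN
  have hN0 : 0 ≤ N := Nat.cast_nonneg _
  have hterm : ∀ r ∈ range q, Real.exp (t * ((R.filter (fun i => ¬ q ∣ r + i)).card : ℝ))
      ≤ Real.exp (t * N) * (1 - t * (1 - t * M / 2) * ((R.filter (fun i => q ∣ r + i)).card : ℝ)) := by
    intro r _
    rw [su_not, ← hN]
    set c : ℝ := ((R.filter (fun i => q ∣ r + i)).card : ℝ) with hc
    have hc0 : 0 ≤ c := Nat.cast_nonneg _
    have hcM : c ≤ M := hM r
    have h1 : t * (N - c) = t * N + -(t * c) := by ring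
    rw [h1, Real.exp_add]
    refine mul_le_mul_of_nonneg_left ?_ (Real.exp_pos _).le
    refine (hexp (t * c) (by positivity)).trans ?_
    have h2 : c ^ 2 ≤ M * c := by nlinarith
    nlinarith [mul_le_mul_of_nonneg_left h2 (sq_nonneg t)]
  refine (Finset.sum_le_sum hterm).trans ?_
  rw [← Finset.mul_sum, Finset.sum_sub_distrib, ← Finset.mul_sum, su_sumR R q hq, ← hN]
  simp only [Finset.sum_const, Finset.card_range, nsmul_eq_mul, mul_one]
  have h3 : Real.exp (t * N) * (q - t * (1 - t * M / 2) * N)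
      = q * (Real.exp (t * N) * (1 + -((t * N / q) * (1 - t * M / 2)))) := by
    field_simp
    ring
  rw [h3]
  refine mul_le_mul_of_nonneg_left ?_ hq0.le
  have h4 : 1 + -((t * N / q) * (1 - t * M / 2)) ≤ Real.exp (-((t * N / q) * (1 - t * M / 2))) := by
    have := Real.add_one_le_exp (-((t * N / q) * (1 - t * M / 2)))
    linarith
  refine (mul_le_mul_of_nonneg_left h4 (Real.exp_pos _).le).trans ?_
  rw [← Real.exp_add]
  apply Real.exp_le_exp.2
  have h5 : t * N + -((t * N / q) * (1 - t * M / 2))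
      = t * N * (1 - 1 / q + t * M / q * (1 / 2)) := by
    field_simp
    ring
  rw [h5]
  refine mul_le_mul_of_nonneg_left ?_ (by positivity)
  have h6 : (1 : ℝ) / 2 ≤ 1 - 1 / q := by
    have : (1 : ℝ) / q ≤ 1 / 2 := one_div_le_one_div_of_le (by norm_num) hq2
    linarith
  have h7 : 0 ≤ t * M / q := by positivity
  nlinarith

end Pool.Agent.H1.Jac
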