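import Pool.Agent.H1.Jac.Defs

/-!
# One random residue class with at most one element: power moment

Part of `MP_4e17b9_nt`. For `r < q` let `c_r ∈ {0, 1}` be the number of the `i ∈ R` with
`q ∣ r + i`; these sets partition `R`, so `∑ c_r = |R| =: N ≤ q`, and the number of the `i ∈ R` with
`¬ q ∣ r + i` is `N - c_r`. So the sum is `(q - N) (1 + z)^N + N (1 + z)^(N - 1)`. If `N = 0`:
trivial. Otherwise this is `q (1 + z)^N (1 - (N/q) z/(1 + z))`, and by Bernoulli's inequality
(`one_add_mul_le_pow`, with `-(z/(1 + z))/q ≥ -2`) `1 - N x ≤ (1 - x)^N` for `x = (z/(1 + z))/q`,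
and `(1 + z) (1 - x) = 1 + z - z/q = 1 + z (1 - 1/q)`.
-/

set_option autoImplicit false

namespace Pool.Agent.H1.Jac

open Finset

private lemma sz_sum (R : Finset ℕ) (q : ℕ) (hq : 2 ≤ q) :
    ∑ r ∈ range q, (R.filter (fun i => q ∣ r + i)).card = R.card := by
  simp_rw [Finset.card_filter]
  rw [Finset.sum_comm, Finset.card_eq_sum_ones]
  refine Finset.sum_congr rfl fun i _ => ?_
  have hq0 : 0 < q := by omega
  have hd : q ∣ (q - i % q) % q + i := by
    have h1 : i % q < q := Nat.mod_lt _ hq0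
    have h2 : q ∣ (q - i % q) + i := by
      have h3 : (q - i % q) + i = q + q * (i / q) := by
        have h4 := Nat.mod_add_div i q
        omega
      rw [h3]
      exact Dvd.dvd.add (dvd_refl q) (dvd_mul_right q _)
    have h5 : ((q - i % q) % q + i) ≡ ((q - i % q) + i) [MOD q] :=
      (Nat.mod_modEq _ _).add_right i
    exact (Nat.modEq_zero_iff_dvd).1 (h5.trans ((Nat.modEq_zero_iff_dvd).2 h2))
  rw [Finset.sum_eq_single ((q - i % q) % q)]
  · rw [if_pos hd]
  · intro r hr hne
    rw [if_neg]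
    intro h
    apply hne
    have h1 : r + i ≡ (q - i % q) % q + i [MOD q] :=
      ((Nat.modEq_zero_iff_dvd).2 h).trans ((Nat.modEq_zero_iff_dvd).2 hd).symm
    exact (Nat.ModEq.add_right_cancel' i h1).eq_of_lt_of_lt (Finset.mem_range.1 hr)
      (Nat.mod_lt _ hq0)
  · intro h
    exact absurd (Finset.mem_range.2 (Nat.mod_lt _ hq0)) h

private lemma sz_not (R : Finset ℕ) (q r : ℕ) :
    ((R.filter (fun i => ¬ q ∣ r + i)).card : ℝ)
      = R.card - ((R.filter (fun i => q ∣ r + i)).card : ℝ) := by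
  have h : (R.filter (fun i => q ∣ r + i)).card + (R.filter (fun i => ¬ q ∣ r + i)).card
      = R.card := Finset.card_filter_add_card_filter_not _
  have h' : (((R.filter (fun i => q ∣ r + i)).card : ℝ))
      + ((R.filter (fun i => ¬ q ∣ r + i)).card : ℝ) = R.card := by exact_mod_cast h
  linarith

private lemma sz_sumR (R : Finset ℕ) (q : ℕ) (hq : 2 ≤ q) :
    ∑ r ∈ range q, ((R.filter (fun i => q ∣ r + i)).card : ℝ) = R.card := by
  exact_mod_cast sz_sum R q hq

theorem step_z (R : Finset ℕ) (q : ℕ) (hq : 2 ≤ q) (z : ℝ) (hz : 0 ≤ z)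
    (hM : ∀ r, (R.filter (fun i => q ∣ r + i)).card ≤ 1) :
    ∑ r ∈ range q, (1 + z) ^ (R.filter (fun i => ¬ q ∣ r + i)).card ≤
      q * (1 + z * (1 - 1 / (q : ℝ))) ^ R.card := by
  have hq0 : (0 : ℝ) < q := by
    have : 0 < q := by omega
    exact_mod_cast this
  have hq2 : (2 : ℝ) ≤ q := by exact_mod_cast hq
  have hz1 : 0 < 1 + z := by linarith
  have hterm : ∀ r ∈ range q, (1 + z) ^ (R.filter (fun i => ¬ q ∣ r + i)).card
      = (1 + z) ^ R.card * (1 - z / (1 + z) * ((R.filter (fun i => q ∣ r + i)).card : ℝ)) := by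
    intro r _
    have h : (R.filter (fun i => q ∣ r + i)).card + (R.filter (fun i => ¬ q ∣ r + i)).card
        = R.card := Finset.card_filter_add_card_filter_not _
    have hle := hM r
    rw [← h]
    interval_cases hc : (R.filter (fun i => q ∣ r + i)).card
    · simp
    · rw [pow_add, pow_one, Nat.cast_one]
      field_simp
      ring
  rw [Finset.sum_congr rfl hterm, ← Finset.mul_sum, Finset.sum_sub_distrib, ← Finset.mul_sum,
    sz_sumR R q hq]
  simp only [Finset.sum_const, Finset.card_range, nsmul_eq_mul, mul_one]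
  set N : ℕ := R.card with hN
  have hx0 : 0 ≤ z / (1 + z) / q := by positivity
  have hx1 : z / (1 + z) / q ≤ 1 := by
    rw [div_div, div_le_one (by positivity)]
    nlinarith
  have h1 := one_add_mul_le_pow (a := -(z / (1 + z) / q)) (by linarith) N
  have h3 : (1 + z) ^ N * (q - z / (1 + z) * (N : ℝ))
      = q * ((1 + z) ^ N * (1 + N * -(z / (1 + z) / q))) := by
    field_simp
    ring
  rw [h3]
  refine mul_le_mul_of_nonneg_left ?_ hq0.le
  refine (mul_le_mul_of_nonneg_left h1 (by positivity)).trans (le_of_eq ?_)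
  rw [← mul_pow]
  congr 1
  field_simp
  ring

end Pool.Agent.H1.Jac
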