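import Pool.Agent.H1.Jac.Crt
import Pool.Agent.H1.Jac.StepU
import Pool.Agent.H1.Jac.StepL
import Pool.Agent.H1.Jac.StepZ

/-!
# The exponential moments of the number of survivors (lower)

Part of `MP_4e17b9_nt`. Induction on `Q` (all three theorems in the same way), for all `R`. Step:
`insert q Q`, `N = ∏ q' ∈ Q, q'`, coprime to `q`. `surv (insert q Q) a R = surv Q a R'` with
`R' = R.filter (fun i => ¬ q ∣ a + i)`, `q ∣ a + i ↔ q ∣ a % q + i`, and `surv Q a` depends only on
`a % N` (all `q' ∈ Q` divide `N`). So `sum_crt` applies: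
`∑_{a < q N} f |surv (insert q Q) a R| = ∑_{r < q} ∑_{b < N} f |surv Q b (R.filter (¬ q ∣ r + ·))|`.
The inner sum: induction hypothesis (the classes of a subset of `R` are smaller). For `mom_up` it gives
`N exp (t c |R'|)` with `c = ∏ q' ∈ Q, (1 - 1/q') (1 + t M q'/q')`, and `0 ≤ c ≤ 1` since
`(1 - 1/q') (1 + x/q') ≤ 1` for `0 ≤ x ≤ 1`. Now `step_up` with `t c` in place of `t`, and
`1 + t c M/q ≤ 1 + t M/q`. `mom_lo`: the same with `c = ∏ (1 - 1/q') (1 - 2 t M q'/q')`,
`0 ≤ c ≤ 1` (`q' ≥ 2`, `t M q' ≤ 1`), and `1 - 2 t c M/q ≥ 1 - 2 t M/q`. `mom_z`: `step_z` with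
`z ∏ q' ∈ Q, (1 - 1/q')` in place of `z`. (`M q ≥ 0` by `hM`.)
-/

set_option autoImplicit false

namespace Pool.Agent.H1.Jac

open Finset

private theorem surv_split (q : ℕ) (Q : Finset ℕ) (a : ℕ) (R : Finset ℕ) :
    surv (insert q Q) a R =
      surv Q (a % ∏ p ∈ Q, p) (R.filter (fun i => ¬ q ∣ a % q + i)) := by
  ext i
  simp only [surv, mem_filter, mem_insert, forall_eq_or_imp]
  have h1 : q ∣ a % q + i ↔ q ∣ a + i := ((Nat.mod_modEq a q).add_right i).dvd_iff dvd_rfl
  have h2 : ∀ p ∈ Q, (p ∣ a % (∏ p ∈ Q, p) + i ↔ p ∣ a + i) := fun p hp =>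
    ((Nat.mod_modEq a (∏ p ∈ Q, p)).add_right i).dvd_iff (Finset.dvd_prod_of_mem _ hp)
  rw [h1]
  constructor
  · rintro ⟨hi, hq, hQ⟩
    exact ⟨⟨hi, hq⟩, fun p hp => by rw [h2 p hp]; exact hQ p hp⟩
  · rintro ⟨⟨hi, hq⟩, hQ⟩
    exact ⟨hi, hq, fun p hp => by rw [← h2 p hp]; exact hQ p hp⟩

private theorem sum_split (q : ℕ) (Q : Finset ℕ) (hq : q.Prime) (hQ : ∀ p ∈ Q, p.Prime)
    (hnq : q ∉ Q) (R : Finset ℕ) (f : ℕ → ℝ) :
    ∑ a ∈ range (∏ p ∈ insert q Q, p), f (surv (insert q Q) a R).card =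
      ∑ r ∈ range q, ∑ b ∈ range (∏ p ∈ Q, p),
        f (surv Q b (R.filter (fun i => ¬ q ∣ r + i))).card := by
  have hc : Nat.Coprime q (∏ p ∈ Q, p) := by
    apply Nat.Coprime.prod_right
    intro p hp
    exact (Nat.coprime_primes hq (hQ p hp)).2 (fun h => hnq (h ▸ hp))
  have hN : 0 < ∏ p ∈ Q, p := Finset.prod_pos fun p hp => (hQ p hp).pos
  rw [Finset.prod_insert hnq, ← sum_crt q _ hq.pos hN hc
    (fun r b => f (surv Q b (R.filter (fun i => ¬ q ∣ r + i))).card)]
  refine Finset.sum_congr rfl fun a _ => ?_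
  rw [surv_split]

private theorem filter_mono (q p r s : ℕ) (R : Finset ℕ) :
    ((R.filter (fun i => ¬ q ∣ r + i)).filter (fun i => p ∣ s + i)).card ≤
      (R.filter (fun i => p ∣ s + i)).card :=
  Finset.card_le_card (Finset.filter_subset_filter _ (Finset.filter_subset _ _))

theorem mom_lo (Q : Finset ℕ) (hQ : ∀ q ∈ Q, q.Prime) (R : Finset ℕ) (M : ℕ → ℝ) (t : ℝ)
    (ht : 0 ≤ t) (htM : ∀ q ∈ Q, t * M q ≤ 1)
    (hM : ∀ q ∈ Q, ∀ r, ((R.filter (fun i => q ∣ r + i)).card : ℝ) ≤ M q) :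
    ∑ a ∈ range (∏ q ∈ Q, q), Real.exp (-(t * ((surv Q a R).card : ℝ))) ≤
      (∏ q ∈ Q, (q : ℝ)) *
        Real.exp (-(t * R.card * ∏ q ∈ Q, ((1 - 1 / (q : ℝ)) * (1 - 2 * t * M q / q)))) := by
  induction Q using Finset.induction_on generalizing R with
  | empty => simp [surv]
  | insert q Q hnq ih =>
    have hqp : q.Prime := hQ q (mem_insert_self q Q)
    have hQp : ∀ p ∈ Q, p.Prime := fun p hp => hQ p (mem_insert_of_mem hp)
    have hM0 : ∀ p ∈ insert q Q, 0 ≤ M p := fun p hp =>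
      le_trans (Nat.cast_nonneg _) (hM p hp 0)
    rw [sum_split q Q hqp hQp hnq R (fun n => Real.exp (-(t * (n : ℝ))))]
    set c : ℝ := ∏ p ∈ Q, ((1 - 1 / (p : ℝ)) * (1 - 2 * t * M p / p)) with hc
    have hfac : ∀ p ∈ Q, 0 ≤ (1 - 1 / (p : ℝ)) * (1 - 2 * t * M p / p) ∧
        (1 - 1 / (p : ℝ)) * (1 - 2 * t * M p / p) ≤ 1 := by
      intro p hp
      have hp2 : (2 : ℝ) ≤ p := by exact_mod_cast (hQp p hp).two_le
      have hx0 : 0 ≤ t * M p := mul_nonneg ht (hM0 p (mem_insert_of_mem hp))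
      have hx1 : t * M p ≤ 1 := htM p (mem_insert_of_mem hp)
      have h1 : 0 < 1 / (p : ℝ) := by positivity
      have h2 : 1 / (p : ℝ) ≤ 1 / 2 := one_div_le_one_div_of_le (by norm_num) hp2
      have h3 : 2 * t * M p / p ≤ 1 := by
        rw [div_le_one (by linarith)]
        nlinarith
      have h4 : 0 ≤ 2 * t * M p / p := by
        have : 0 ≤ 2 * t * M p := by nlinarith
        positivity
      constructor
      · apply mul_nonneg <;> linarith
      · apply mul_le_one₀ <;> linarith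
    have hc0 : 0 ≤ c := Finset.prod_nonneg fun p hp => (hfac p hp).1
    have hc1 : c ≤ 1 := Finset.prod_le_one (fun p hp => (hfac p hp).1) fun p hp => (hfac p hp).2
    have hN0 : (0 : ℝ) ≤ ∏ p ∈ Q, (p : ℝ) := Finset.prod_nonneg fun p _ => Nat.cast_nonneg p
    have hx0 : 0 ≤ t * M q := mul_nonneg ht (hM0 q (mem_insert_self q Q))
    have hx1 : t * M q ≤ 1 := htM q (mem_insert_self q Q)
    have hcx : t * c * M q ≤ t * M q := by nlinarith
    calc ∑ r ∈ range q, ∑ b ∈ range (∏ p ∈ Q, p),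
          Real.exp (-(t * ((surv Q b (R.filter (fun i => ¬ q ∣ r + i))).card : ℝ)))
        ≤ ∑ r ∈ range q, (∏ p ∈ Q, (p : ℝ)) *
            Real.exp (-(t * c * ((R.filter (fun i => ¬ q ∣ r + i)).card : ℝ))) := by
          refine Finset.sum_le_sum fun r _ => ?_
          have h := ih hQp (R.filter (fun i => ¬ q ∣ r + i))
            (fun p hp => htM p (mem_insert_of_mem hp))
            (fun p hp s => le_trans (by exact_mod_cast filter_mono q p r s R)
              (hM p (mem_insert_of_mem hp) s))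
          refine h.trans (le_of_eq ?_)
          congr 2
          ring
      _ = (∏ p ∈ Q, (p : ℝ)) * ∑ r ∈ range q,
            Real.exp (-(t * c * ((R.filter (fun i => ¬ q ∣ r + i)).card : ℝ))) := by
          rw [Finset.mul_sum]
      _ ≤ (∏ p ∈ Q, (p : ℝ)) * (q * Real.exp (-(t * c * R.card *
            ((1 - 1 / (q : ℝ)) * (1 - 2 * (t * c) * M q / q))))) := by
          apply mul_le_mul_of_nonneg_left _ hN0
          exact step_lo R q hqp.two_le (M q) (t * c) (mul_nonneg ht hc0) (hcx.trans hx1)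
            (hM q (mem_insert_self q Q))
      _ ≤ (∏ p ∈ insert q Q, (p : ℝ)) * Real.exp (-(t * R.card *
            ∏ p ∈ insert q Q, ((1 - 1 / (p : ℝ)) * (1 - 2 * t * M p / p)))) := by
          rw [Finset.prod_insert hnq, Finset.prod_insert hnq, ← hc]
          have hq2 : (2 : ℝ) ≤ q := by exact_mod_cast hqp.two_le
          have h2 : 1 / (q : ℝ) ≤ 1 / 2 := one_div_le_one_div_of_le (by norm_num) hq2
          have h3 : 2 * (t * c) * M q / q ≤ 2 * t * M q / q := by
            have : 2 * (t * c) * M q ≤ 2 * t * M q := by nlinarith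
            gcongr
          have h4 : Real.exp (-(t * c * R.card *
              ((1 - 1 / (q : ℝ)) * (1 - 2 * (t * c) * M q / q)))) ≤
              Real.exp (-(t * R.card * ((1 - 1 / (q : ℝ)) * (1 - 2 * t * M q / q) * c))) := by
            apply Real.exp_le_exp.2
            apply neg_le_neg
            have h5 : t * c * R.card * ((1 - 1 / (q : ℝ)) * (1 - 2 * t * M q / q)) ≤
                t * c * R.card * ((1 - 1 / (q : ℝ)) * (1 - 2 * (t * c) * M q / q)) := by
              apply mul_le_mul_of_nonneg_left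
              · apply mul_le_mul_of_nonneg_left <;> linarith
              · positivity
            refine le_trans (le_of_eq ?_) h5
            ring
          calc (∏ p ∈ Q, (p : ℝ)) * (q * Real.exp (-(t * c * R.card *
                ((1 - 1 / (q : ℝ)) * (1 - 2 * (t * c) * M q / q)))))
              ≤ (∏ p ∈ Q, (p : ℝ)) * (q * Real.exp (-(t * R.card *
                ((1 - 1 / (q : ℝ)) * (1 - 2 * t * M q / q) * c)))) := by gcongr
            _ = _ := by ring

end Pool.Agent.H1.Jac
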