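import Pool.Agent.H1.Jac.Cnt
import Pool.Agent.H1.Jac.MomL

/-!
# Concentration, lower tail

Part of `MP_4e17b9_nt`. Write `h = m/p`, `Q = Q0 ∪ Q1`, `R = AP m p c`, `N0 = ∏ Q0`, `N1 = ∏ Q1`,
`B = h/w + Λ`, `t = ε/B`. `surv Q a R = surv Q1 a (surv Q0 a R)`; the inner set depends on
`a % N0` only, the outer operation on `a % N1`. So by `sum_crt` (`∏ Q = N0 * N1`)
`∑_{a < N0 N1} exp (-t |surv Q a R|) = ∑_{a0 < N0} ∑_{a1 < N1} exp (-t |surv Q1 a1 T|)`,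
`T = surv Q0 a0 R`, `|T| ≥ (1 - ε) h V Q0` by `hT`. By `mom_lo` with `M q = h/q + 1` (`cnt_class`, and `T ⊆ R`;
`M q ≤ h/w + 1 ≤ B` as `q > w`, so `t M q ≤ ε ≤ 1`) the inner sum is
`≤ N1 exp (-t |T| V Q1 ∏ (1 - 2 t M q/q))`, `∏ (1 - 2 t M q/q) ≥ 1 - 2 t ∑ M q/q`
(`Finset.one_sub_sum_le_prod_one_sub` or induction), and
`∑_{q ∈ Q1} M q/q = ∑ (h/q² + 1/q) ≤ h/w + Λ - 1 ≤ B` (`∑_{q > w} 1/q² ≤ 1/w`), so
`t ∑ M q/q ≤ ε`. `V Q0 * V Q1 = V Q`. Hence `∑_a exp (-t |surv Q a R|) ≤ N0 N1 exp (-t (1 - ε) (1 - 2 ε) h V Q)`.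
Markov: the number of the `a` with `|surv| < (1 - 5 ε) h V Q` is at most
`N0 N1 exp (-t ((1 - ε) (1 - 2 ε) - (1 - 5 ε)) h V Q) ≤ N0 N1 exp (-t ε h V Q)`, `t ε = ε²/B`.
-/

set_option autoImplicit false

/-!
# Concentration, lower tail

Part of `MP_4e17b9_nt`. Write `h = m/p`, `Q = Q0 ∪ Q1`, `R = AP m p c`, `N0 = ∏ Q0`, `N1 = ∏ Q1`,
`B = h/w + Λ`, `t = ε/B`. `surv Q a R = surv Q1 a (surv Q0 a R)`; the inner set depends on
`a % N0` only, the outer operation on `a % N1`. So by `sum_crt` (`∏ Q = N0 * N1`)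
`∑_{a < N0 N1} exp (-t |surv Q a R|) = ∑_{a0 < N0} ∑_{a1 < N1} exp (-t |surv Q1 a1 T|)`,
`T = surv Q0 a0 R`, `|T| ≥ (1 - ε) h V Q0` by `hT`. By `mom_lo` with `M q = h/q + 1` (`cnt_class`, and `T ⊆ R`;
`M q ≤ h/w + 1 ≤ B` as `q > w`, so `t M q ≤ ε ≤ 1`) the inner sum is
`≤ N1 exp (-t |T| V Q1 ∏ (1 - 2 t M q/q))`, `∏ (1 - 2 t M q/q) ≥ 1 - 2 t ∑ M q/q`
(`Finset.one_sub_sum_le_prod_one_sub` or induction), and
`∑_{q ∈ Q1} M q/q = ∑ (h/q² + 1/q) ≤ h/w + Λ - 1 ≤ B` (`∑_{q > w} 1/q² ≤ 1/w`), so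
`t ∑ M q/q ≤ ε`. `V Q0 * V Q1 = V Q`. Hence `∑_a exp (-t |surv Q a R|) ≤ N0 N1 exp (-t (1 - ε) (1 - 2 ε) h V Q)`.
Markov: the number of the `a` with `|surv| < (1 - 5 ε) h V Q` is at most
`N0 N1 exp (-t ((1 - ε) (1 - 2 ε) - (1 - 5 ε)) h V Q) ≤ N0 N1 exp (-t ε h V Q)`, `t ε = ε²/B`.
-/

namespace Pool.Agent.H1.Jac

open Finset

lemma dvd_mod_iff {q N : ℕ} (h : q ∣ N) (a i : ℕ) : q ∣ a % N + i ↔ q ∣ a + i := by
  have h1 : a % N + i ≡ a + i [MOD q] := by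
    apply Nat.ModEq.add_right
    exact (Nat.mod_modEq a N).of_dvd h
  exact h1.dvd_iff dvd_rfl

lemma surv_mod {Q : Finset ℕ} {N : ℕ} (h : ∀ q ∈ Q, q ∣ N) (a : ℕ) (R : Finset ℕ) :
    surv Q (a % N) R = surv Q a R := by
  unfold surv
  apply Finset.filter_congr
  intro i _
  constructor
  · intro h1 q hq h2
    exact h1 q hq ((dvd_mod_iff (h q hq) a i).2 h2)
  · intro h1 q hq h2
    exact h1 q hq ((dvd_mod_iff (h q hq) a i).1 h2)

lemma surv_union (Q0 Q1 : Finset ℕ) (a : ℕ) (R : Finset ℕ) :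
    surv (Q0 ∪ Q1) a R = surv Q1 a (surv Q0 a R) := by
  ext i
  simp only [surv, Finset.mem_filter, Finset.mem_union]
  constructor
  · rintro ⟨h1, h2⟩
    exact ⟨⟨h1, fun q hq => h2 q (Or.inl hq)⟩, fun q hq => h2 q (Or.inr hq)⟩
  · rintro ⟨⟨h1, h2⟩, h3⟩
    exact ⟨h1, fun q hq => hq.elim (h2 q) (h3 q)⟩

lemma sum_inv_sq_le (Q1 : Finset ℕ) (w : ℕ) (hw : 0 < w) (hw1 : ∀ q ∈ Q1, w < q) :
    ∑ q ∈ Q1, 1 / (q : ℝ) ^ 2 ≤ 1 / (w : ℝ) := by
  set K : ℕ := w + ∑ q ∈ Q1, q with hK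
  have hsub : Q1 ⊆ Finset.Ioc w K := by
    intro q hq
    rw [Finset.mem_Ioc]
    refine ⟨hw1 q hq, ?_⟩
    have := Finset.single_le_sum (f := fun q : ℕ => q) (fun i _ => Nat.zero_le i) hq
    omega
  have h1 : ∑ q ∈ Q1, 1 / (q : ℝ) ^ 2 ≤ ∑ q ∈ Finset.Ioc w K, 1 / (q : ℝ) ^ 2 :=
    Finset.sum_le_sum_of_subset_of_nonneg hsub (fun _ _ _ => by positivity)
  have h2 := sum_Ioc_inv_sq_le_sub (α := ℝ) (k := w) (n := K) hw.ne' (by omega)
  have h3 : ∑ q ∈ Finset.Ioc w K, 1 / (q : ℝ) ^ 2 = ∑ q ∈ Finset.Ioc w K, ((q : ℝ) ^ 2)⁻¹ := by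
    simp only [one_div]
  rw [h3] at h1
  have h4 : (0 : ℝ) ≤ (K : ℝ)⁻¹ := by positivity
  rw [one_div]
  linarith

lemma V_nonneg (Q : Finset ℕ) (h : ∀ q ∈ Q, q.Prime) : 0 ≤ V Q := by
  unfold V
  apply Finset.prod_nonneg
  intro q hq
  have h1 : (1 : ℝ) ≤ q := by exact_mod_cast (h q hq).one_lt.le
  have h2 : 1 / (q : ℝ) ≤ 1 := by
    rw [div_le_one (by linarith)]; exact h1
  linarith

lemma one_sub_sum_le_prod' (Q : Finset ℕ) (x : ℕ → ℝ) (h0 : ∀ q ∈ Q, 0 ≤ x q)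
    (h1 : ∀ q ∈ Q, x q ≤ 1) :
    1 - ∑ q ∈ Q, x q ≤ ∏ q ∈ Q, (1 - x q) := by
  classical
  induction Q using Finset.induction_on with
  | empty => simp
  | insert a s ha ih =>
    rw [Finset.sum_insert ha, Finset.prod_insert ha]
    have h2 := ih (fun q hq => h0 q (Finset.mem_insert_of_mem hq))
      (fun q hq => h1 q (Finset.mem_insert_of_mem hq))
    have h3 := h0 a (Finset.mem_insert_self a s)
    have h4 := h1 a (Finset.mem_insert_self a s)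
    have h5 : 0 ≤ ∑ q ∈ s, x q :=
      Finset.sum_nonneg (fun q hq => h0 q (Finset.mem_insert_of_mem hq))
    have h6 := mul_le_mul_of_nonneg_left h2 (sub_nonneg.2 h4)
    nlinarith [mul_nonneg h3 h5]

theorem conc_lo (Q0 Q1 : Finset ℕ) (h0 : ∀ q ∈ Q0, q.Prime) (h1 : ∀ q ∈ Q1, q.Prime)
    (hd : Disjoint Q0 Q1) (m p c w : ℕ) (hp : 0 < p) (hpQ : ∀ q ∈ Q0 ∪ Q1, Nat.Coprime p q)
    (hw : 0 < w) (hw1 : ∀ q ∈ Q1, w < q) (Λ ε : ℝ) (hε : 0 < ε) (hε4 : ε ≤ 1 / 4)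
    (hΛ : 1 + ∑ q ∈ Q1, 1 / (q : ℝ) ≤ Λ)
    (hT : ∀ a, (1 - ε) * ((m : ℝ) / p * V Q0) ≤ ((surv Q0 a (AP m p c)).card : ℝ)) :
    (((range (∏ q ∈ Q0 ∪ Q1, q)).filter (fun a => ((surv (Q0 ∪ Q1) a (AP m p c)).card : ℝ) <
      (1 - 5 * ε) * ((m : ℝ) / p * V (Q0 ∪ Q1)))).card : ℝ) ≤
      (∏ q ∈ Q0 ∪ Q1, (q : ℝ)) *
        Real.exp (-(ε ^ 2 * ((m : ℝ) / p * V (Q0 ∪ Q1)) / ((m : ℝ) / p / w + Λ))) := by
  classical
  set h : ℝ := (m : ℝ) / p with hh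
  set R := AP m p c with hR
  set N0 : ℕ := ∏ q ∈ Q0, q with hN0
  set N1 : ℕ := ∏ q ∈ Q1, q with hN1
  have hh0 : 0 ≤ h := by positivity
  have hw' : (0 : ℝ) < w := by exact_mod_cast hw
  have hS0 : 0 ≤ ∑ q ∈ Q1, 1 / (q : ℝ) := Finset.sum_nonneg (fun _ _ => by positivity)
  have hΛ1 : 1 ≤ Λ := by linarith
  set B : ℝ := h / w + Λ with hB
  have hB1 : 1 ≤ B := by
    have : 0 ≤ h / w := by positivity
    linarith
  have hB0 : 0 < B := by linarith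
  set t : ℝ := ε / B with ht
  have ht0 : 0 ≤ t := by positivity
  have htB : t * B = ε := by rw [ht]; field_simp
  have hV0 := V_nonneg Q0 h0
  have hV1 := V_nonneg Q1 h1
  have hVV : V (Q0 ∪ Q1) = V Q0 * V Q1 := by
    unfold V; exact Finset.prod_union hd
  have hNN : ∏ q ∈ Q0 ∪ Q1, q = N0 * N1 := Finset.prod_union hd
  have hN0p : 0 < N0 := Finset.prod_pos (fun q hq => (h0 q hq).pos)
  have hN1p : 0 < N1 := Finset.prod_pos (fun q hq => (h1 q hq).pos)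
  have hcop : Nat.Coprime N0 N1 := by
    apply Nat.Coprime.prod_left
    intro q hq
    apply Nat.Coprime.prod_right
    intro q' hq'
    rw [Nat.coprime_primes (h0 q hq) (h1 q' hq')]
    rintro rfl
    exact Finset.disjoint_left.1 hd hq hq'
  have hd0 : ∀ q ∈ Q0, q ∣ N0 := fun q hq => Finset.dvd_prod_of_mem (fun q => q) hq
  have hd1 : ∀ q ∈ Q1, q ∣ N1 := fun q hq => Finset.dvd_prod_of_mem (fun q => q) hq
  have hMB : ∀ q ∈ Q1, h / q + 1 ≤ B := by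
    intro q hq
    have h2 : (w : ℝ) ≤ q := by exact_mod_cast (hw1 q hq).le
    have h3 : h / q ≤ h / w := div_le_div_of_nonneg_left hh0 hw' h2
    linarith
  have htM : ∀ q ∈ Q1, t * (h / q + 1) ≤ ε := by
    intro q hq
    rw [← htB]
    exact mul_le_mul_of_nonneg_left (hMB q hq) ht0
  have hsum : ∑ q ∈ Q1, (h / q + 1) / (q : ℝ) ≤ B := by
    have h2 : ∑ q ∈ Q1, (h / q + 1) / (q : ℝ) =
        h * ∑ q ∈ Q1, 1 / (q : ℝ) ^ 2 + ∑ q ∈ Q1, 1 / (q : ℝ) := by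
      rw [Finset.mul_sum, ← Finset.sum_add_distrib]
      apply Finset.sum_congr rfl
      intro q hq
      have : (q : ℝ) ≠ 0 := by
        have := (h1 q hq).pos
        positivity
      field_simp
    rw [h2]
    have h3 := mul_le_mul_of_nonneg_left (sum_inv_sq_le Q1 w hw hw1) hh0
    have h4 : h * (1 / (w : ℝ)) = h / w := by ring
    rw [h4] at h3
    linarith
  have hprod : V Q1 * (1 - 2 * ε) ≤
      ∏ q ∈ Q1, ((1 - 1 / (q : ℝ)) * (1 - 2 * t * (h / q + 1) / q)) := by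
    rw [Finset.prod_mul_distrib]
    apply mul_le_mul_of_nonneg_left _ hV1
    have h2 : ∏ q ∈ Q1, (1 - 2 * t * (h / q + 1) / (q : ℝ)) =
        ∏ q ∈ Q1, (1 - (fun q : ℕ => 2 * t * (h / q + 1) / (q : ℝ)) q) := rfl
    rw [h2]
    refine le_trans ?_ (one_sub_sum_le_prod' Q1 (fun q : ℕ => 2 * t * (h / q + 1) / (q : ℝ)) ?_ ?_)
    · have h3 : ∑ q ∈ Q1, 2 * t * (h / q + 1) / (q : ℝ) =
          2 * t * ∑ q ∈ Q1, (h / q + 1) / (q : ℝ) := by
        rw [Finset.mul_sum]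
        apply Finset.sum_congr rfl
        intro q _
        ring
      rw [h3]
      have h4 := mul_le_mul_of_nonneg_left hsum ht0
      rw [htB] at h4
      nlinarith
    · intro q hq
      positivity
    · intro q hq
      have h3 := htM q hq
      have h4 : (2 : ℝ) ≤ q := by exact_mod_cast (h1 q hq).two_le
      rw [div_le_one (by linarith)]
      linarith
  have hinner : ∀ a0, ∑ a ∈ range N1, Real.exp (-(t * ((surv Q1 a (surv Q0 a0 R)).card : ℝ))) ≤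
      N1 * Real.exp (-(t * ((1 - ε) * (1 - 2 * ε)) * (h * V (Q0 ∪ Q1)))) := by
    intro a0
    have h2 := mom_lo Q1 h1 (surv Q0 a0 R) (fun q => h / q + 1) t ht0
      (fun q hq => by
        have := htM q hq
        linarith)
      (fun q hq r => by
        have h3 := cnt_class m p c hp q (h1 q hq)
          (hpQ q (Finset.mem_union_right _ hq)) r
        refine le_trans ?_ h3
        have h4 : ((surv Q0 a0 R).filter (fun i => q ∣ r + i)).card ≤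
            ((AP m p c).filter (fun i => q ∣ r + i)).card := by
          apply Finset.card_le_card
          apply Finset.filter_subset_filter
          exact Finset.filter_subset _ _
        exact_mod_cast h4)
    have hcast : (∏ q ∈ Q1, (q : ℝ)) = (N1 : ℝ) := by
      rw [hN1]; push_cast; rfl
    rw [hcast] at h2
    refine h2.trans ?_
    apply mul_le_mul_of_nonneg_left _ (Nat.cast_nonneg _)
    apply Real.exp_le_exp.2
    apply neg_le_neg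
    have h3 := hT a0
    have h4 : (1 - ε) * (h * V Q0) * (V Q1 * (1 - 2 * ε)) ≤
        ((surv Q0 a0 R).card : ℝ) *
          ∏ q ∈ Q1, ((1 - 1 / (q : ℝ)) * (1 - 2 * t * (h / q + 1) / q)) := by
      apply mul_le_mul h3 hprod
      · apply mul_nonneg hV1; linarith
      · exact Nat.cast_nonneg _
    have h5 := mul_le_mul_of_nonneg_left h4 ht0
    rw [hVV]
    calc t * ((1 - ε) * (1 - 2 * ε)) * (h * (V Q0 * V Q1))
        = t * ((1 - ε) * (h * V Q0) * (V Q1 * (1 - 2 * ε))) := by ring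
      _ ≤ _ := h5
      _ = _ := by ring
  have htot : ∑ a ∈ range (N0 * N1), Real.exp (-(t * ((surv (Q0 ∪ Q1) a R).card : ℝ))) ≤
      (N0 * N1 : ℝ) * Real.exp (-(t * ((1 - ε) * (1 - 2 * ε)) * (h * V (Q0 ∪ Q1)))) := by
    have h2 : ∀ a, surv (Q0 ∪ Q1) a R = surv Q1 (a % N1) (surv Q0 (a % N0) R) := by
      intro a
      rw [surv_mod hd1, surv_mod hd0, surv_union]
    have h3 := sum_crt N0 N1 hN0p hN1p hcop
      (fun r b => Real.exp (-(t * ((surv Q1 b (surv Q0 r R)).card : ℝ))))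
    have h4 : ∑ a ∈ range (N0 * N1), Real.exp (-(t * ((surv (Q0 ∪ Q1) a R).card : ℝ))) =
        ∑ a ∈ range (N0 * N1),
          Real.exp (-(t * ((surv Q1 (a % N1) (surv Q0 (a % N0) R)).card : ℝ))) :=
      Finset.sum_congr rfl (fun a _ => by rw [h2 a])
    rw [h4, h3]
    calc _ ≤ ∑ r ∈ range N0,
          (N1 : ℝ) * Real.exp (-(t * ((1 - ε) * (1 - 2 * ε)) * (h * V (Q0 ∪ Q1)))) :=
          Finset.sum_le_sum (fun r _ => hinner r)
      _ = _ := by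
          rw [Finset.sum_const, Finset.card_range, nsmul_eq_mul]; ring
  -- Markov
  have hcast : (∏ q ∈ Q0 ∪ Q1, (q : ℝ)) = (N0 * N1 : ℝ) := by
    have : ((∏ q ∈ Q0 ∪ Q1, q : ℕ) : ℝ) = ((N0 * N1 : ℕ) : ℝ) := by rw [hNN]
    push_cast at this
    exact this
  rw [hNN, hcast]
  set bad := (range (N0 * N1)).filter (fun a => ((surv (Q0 ∪ Q1) a R).card : ℝ) <
      (1 - 5 * ε) * (h * V (Q0 ∪ Q1))) with hbad
  set X : ℝ := h * V (Q0 ∪ Q1) with hX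
  have hX0 : 0 ≤ X := by
    rw [hX, hVV]; positivity
  have hmark : (bad.card : ℝ) * Real.exp (-(t * ((1 - 5 * ε) * X))) ≤
      (N0 * N1 : ℝ) * Real.exp (-(t * ((1 - ε) * (1 - 2 * ε)) * X)) := by
    refine le_trans ?_ htot
    calc (bad.card : ℝ) * Real.exp (-(t * ((1 - 5 * ε) * X)))
        = ∑ a ∈ bad, Real.exp (-(t * ((1 - 5 * ε) * X))) := by
          rw [Finset.sum_const, nsmul_eq_mul]
      _ ≤ ∑ a ∈ bad, Real.exp (-(t * ((surv (Q0 ∪ Q1) a R).card : ℝ))) := by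
          apply Finset.sum_le_sum
          intro a ha
          apply Real.exp_le_exp.2
          apply neg_le_neg
          apply mul_le_mul_of_nonneg_left _ ht0
          exact (Finset.mem_filter.1 ha).2.le
      _ ≤ _ := Finset.sum_le_sum_of_subset_of_nonneg (Finset.filter_subset _ _)
          (fun _ _ _ => (Real.exp_pos _).le)
  have hfin : (bad.card : ℝ) ≤
      (N0 * N1 : ℝ) * Real.exp (-(t * ((1 - ε) * (1 - 2 * ε)) * X) + t * ((1 - 5 * ε) * X)) := by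
    rw [Real.exp_add, ← mul_assoc, ← div_le_iff₀ (Real.exp_pos _)]
    rw [div_eq_mul_inv, ← Real.exp_neg]
    exact hmark
  refine hfin.trans ?_
  apply mul_le_mul_of_nonneg_left _ (by positivity)
  apply Real.exp_le_exp.2
  have h7 : ε ^ 2 * X / B = t * ε * X := by rw [ht]; ring
  rw [h7]
  have h8 : 0 ≤ t * X := mul_nonneg ht0 hX0
  nlinarith [mul_nonneg h8 hε.le, mul_nonneg (mul_nonneg h8 hε.le) hε.le]

end Pool.Agent.H1.Jac
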