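import Pool.Agent.H1.Jac.Cnt
import Pool.Agent.H1.Jac.MomU

/-!
# Concentration, upper tail

Part of `MP_4e17b9_nt`. Write `h = m/p`, `Q = Q0 ∪ Q1`, `R = AP m p c`, `N0 = ∏ Q0`, `N1 = ∏ Q1`,
`B = h/w + Λ`, `t = ε/B`. `surv Q a R = surv Q1 a (surv Q0 a R)`; the inner set depends on
`a % N0` only, the outer operation on `a % N1`. So by `sum_crt` (`∏ Q = N0 * N1`)
`∑_{a < N0 N1} exp (t |surv Q a R|) = ∑_{a0 < N0} ∑_{a1 < N1} exp (t |surv Q1 a1 T|)`,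
`T = surv Q0 a0 R`, `|T| ≤ (1 + ε) h V Q0` by `hT`. By `mom_up` with `M q = h/q + 1` (`cnt_class`, and `T ⊆ R`;
`M q ≤ h/w + 1 ≤ B` as `q > w`, so `t M q ≤ ε ≤ 1`) the inner sum is
`≤ N1 exp (t |T| V Q1 exp (t ∑ M q/q))` (`1 + x ≤ exp x`), and
`∑_{q ∈ Q1} M q/q = ∑ (h/q² + 1/q) ≤ h/w + Λ - 1 ≤ B` (`∑_{q > w} 1/q² ≤ 1/w`), so
`t ∑ M q/q ≤ ε`. `V Q0 * V Q1 = V Q`. Hence `∑_a exp (t |surv Q a R|) ≤ N0 N1 exp (t (1 + ε) e^ε h V Q)`.
Markov: the number of the `a` with `|surv| > (1 + 5 ε) h V Q` is at most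
`N0 N1 exp (-t ((1 + 5 ε) - (1 + ε) e^ε) h V Q) ≤ N0 N1 exp (-t ε h V Q)`, since
`(1 + ε) e^ε ≤ 1 + 4 ε` for `0 < ε ≤ 1/4` (`e^ε ≤ 1 + ε + ε²`). `t ε = ε²/B`.
-/

set_option autoImplicit false

namespace Pool.Agent.H1.Jac

open Finset

private theorem surv_mod (Q : Finset ℕ) (N a : ℕ) (R : Finset ℕ) (h : ∀ q ∈ Q, q ∣ N) :
    surv Q (a % N) R = surv Q a R := by
  unfold surv
  apply filter_congr
  intro i _
  have key : ∀ q ∈ Q, (q ∣ a % N + i ↔ q ∣ a + i) := by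
    intro q hq
    have h1 : a % N + i + N * (a / N) = a + i := by
      have := Nat.mod_add_div a N
      omega
    have h2 : q ∣ N * (a / N) := Dvd.dvd.mul_right (h q hq) _
    rw [← h1]
    exact (Nat.dvd_add_left h2).symm
  constructor
  · intro h3 q hq h4
    exact h3 q hq ((key q hq).2 h4)
  · intro h3 q hq h4
    exact h3 q hq ((key q hq).1 h4)

private theorem surv_union (Q0 Q1 : Finset ℕ) (a : ℕ) (R : Finset ℕ) :
    surv (Q0 ∪ Q1) a R = surv Q1 a (surv Q0 a R) := by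
  unfold surv
  rw [filter_filter]
  apply filter_congr
  intro i _
  constructor
  · intro h
    exact ⟨fun q hq => h q (mem_union_left _ hq), fun q hq => h q (mem_union_right _ hq)⟩
  · rintro ⟨h, h'⟩ q hq
    rcases mem_union.1 hq with h1 | h1
    · exact h q h1
    · exact h' q h1

private theorem V_nonneg (Q : Finset ℕ) (h : ∀ q ∈ Q, q.Prime) : 0 ≤ V Q := by
  unfold V
  refine prod_nonneg fun q hq => ?_
  have h1 : (1 : ℝ) ≤ q := by exact_mod_cast (h q hq).one_lt.le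
  have h2 : 1 / (q : ℝ) ≤ 1 := by
    rw [div_le_one (by linarith)]
    exact h1
  linarith

private theorem sum_sq (Q1 : Finset ℕ) (w : ℕ) (hw : 0 < w) (hw1 : ∀ q ∈ Q1, w < q) :
    ∑ q ∈ Q1, ((q : ℝ) ^ 2)⁻¹ ≤ 1 / (w : ℝ) := by
  have h1 : Q1 ⊆ Ioc w (w + Q1.sup id) := by
    intro q hq
    rw [mem_Ioc]
    refine ⟨hw1 q hq, ?_⟩
    have := Finset.le_sup (f := id) hq
    simp only [id] at this
    omega
  have h2 : ∑ q ∈ Q1, ((q : ℝ) ^ 2)⁻¹ ≤ ∑ q ∈ Ioc w (w + Q1.sup id), ((q : ℝ) ^ 2)⁻¹ :=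
    sum_le_sum_of_subset_of_nonneg h1 (fun _ _ _ => by positivity)
  have h3 := sum_Ioc_inv_sq_le_sub (α := ℝ) hw.ne' (Nat.le_add_right w (Q1.sup id))
  have h4 : (0 : ℝ) ≤ ((w + Q1.sup id : ℕ) : ℝ)⁻¹ := by positivity
  rw [one_div]
  linarith

private theorem exp_aux (ε : ℝ) (hε : 0 < ε) (hε4 : ε ≤ 1 / 4) :
    (1 + ε) * Real.exp ε ≤ 1 + 4 * ε := by
  have h1 := Real.abs_exp_sub_one_sub_id_le (x := ε) (by rw [abs_of_pos hε]; linarith)
  have h2 := (abs_le.1 h1).2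
  have h3 : Real.exp ε ≤ 1 + ε + ε ^ 2 := by linarith
  have h4 : (1 + ε) * Real.exp ε ≤ (1 + ε) * (1 + ε + ε ^ 2) :=
    mul_le_mul_of_nonneg_left h3 (by linarith)
  have h5 : ε ^ 2 ≤ ε / 4 := by nlinarith
  have h6 : ε ^ 3 ≤ ε / 16 := by
    have : ε ^ 3 = ε * ε ^ 2 := by ring
    rw [this]
    nlinarith
  nlinarith

theorem conc_up (Q0 Q1 : Finset ℕ) (h0 : ∀ q ∈ Q0, q.Prime) (h1 : ∀ q ∈ Q1, q.Prime)
    (hd : Disjoint Q0 Q1) (m p c w : ℕ) (hp : 0 < p) (hpQ : ∀ q ∈ Q0 ∪ Q1, Nat.Coprime p q)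
    (hw : 0 < w) (hw1 : ∀ q ∈ Q1, w < q) (Λ ε : ℝ) (hε : 0 < ε) (hε4 : ε ≤ 1 / 4)
    (hΛ : 1 + ∑ q ∈ Q1, 1 / (q : ℝ) ≤ Λ)
    (hT : ∀ a, ((surv Q0 a (AP m p c)).card : ℝ) ≤ (1 + ε) * ((m : ℝ) / p * V Q0)) :
    (((range (∏ q ∈ Q0 ∪ Q1, q)).filter (fun a => (1 + 5 * ε) * ((m : ℝ) / p * V (Q0 ∪ Q1)) <
      ((surv (Q0 ∪ Q1) a (AP m p c)).card : ℝ))).card : ℝ) ≤
      (∏ q ∈ Q0 ∪ Q1, (q : ℝ)) *
        Real.exp (-(ε ^ 2 * ((m : ℝ) / p * V (Q0 ∪ Q1)) / ((m : ℝ) / p / w + Λ))) := by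
  set h : ℝ := (m : ℝ) / p with hh
  have hh0 : 0 ≤ h := by positivity
  have hwR : (0 : ℝ) < w := by exact_mod_cast hw
  have hsum0 : 0 ≤ ∑ q ∈ Q1, 1 / (q : ℝ) := sum_nonneg fun _ _ => by positivity
  have hΛ1 : 1 ≤ Λ := by linarith
  set B : ℝ := h / w + Λ with hB
  have hhw : 0 ≤ h / w := by positivity
  have hB1 : 1 ≤ B := by linarith
  have hB0 : 0 < B := by linarith
  set t : ℝ := ε / B with ht
  have ht0 : 0 < t := by positivity
  have htB : t * B = ε := by rw [ht]; field_simp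
  set N0 := ∏ q ∈ Q0, q with hN0
  set N1 := ∏ q ∈ Q1, q with hN1
  have hN0p : 0 < N0 := prod_pos fun q hq => (h0 q hq).pos
  have hN1p : 0 < N1 := prod_pos fun q hq => (h1 q hq).pos
  have hN : ∏ q ∈ Q0 ∪ Q1, q = N0 * N1 := prod_union hd
  have hcop : Nat.Coprime N0 N1 := by
    apply Nat.Coprime.prod_left
    intro x hx
    apply Nat.Coprime.prod_right
    intro y hy
    rw [Nat.coprime_primes (h0 x hx) (h1 y hy)]
    rintro rfl
    exact (Finset.disjoint_left.1 hd) hx hy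
  have hV : V (Q0 ∪ Q1) = V Q0 * V Q1 := prod_union hd
  have hV0 : 0 ≤ V Q0 := V_nonneg Q0 h0
  have hV1 : 0 ≤ V Q1 := V_nonneg Q1 h1
  set R := AP m p c with hR
  -- the sum
  have hsum : ∑ a ∈ range (N0 * N1), Real.exp (t * ((surv (Q0 ∪ Q1) a R).card : ℝ)) =
      ∑ a0 ∈ range N0, ∑ a1 ∈ range N1,
        Real.exp (t * ((surv Q1 a1 (surv Q0 a0 R)).card : ℝ)) := by
    rw [← sum_crt N0 N1 hN0p hN1p hcop
      (fun a0 a1 => Real.exp (t * ((surv Q1 a1 (surv Q0 a0 R)).card : ℝ)))]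
    refine sum_congr rfl fun a _ => ?_
    rw [surv_mod Q0 N0 a R (fun q hq => dvd_prod_of_mem _ hq),
      surv_mod Q1 N1 a _ (fun q hq => dvd_prod_of_mem _ hq), surv_union]
  have hM : ∀ q ∈ Q1, t * (h / q + 1) ≤ 1 := by
    intro q hq
    have h2 : (w : ℝ) ≤ q := by exact_mod_cast (hw1 q hq).le
    have h3 : h / q ≤ h / w := div_le_div_of_nonneg_left hh0 hwR h2
    have h4 : t * (h / q + 1) ≤ t * B := mul_le_mul_of_nonneg_left (by linarith) ht0.le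
    linarith
  have hprod : ∏ q ∈ Q1, ((1 - 1 / (q : ℝ)) * (1 + t * (h / q + 1) / q)) ≤
      V Q1 * Real.exp ε := by
    rw [prod_mul_distrib]
    refine mul_le_mul_of_nonneg_left ?_ hV1
    have h2 : ∏ q ∈ Q1, (1 + t * (h / q + 1) / (q : ℝ)) ≤
        ∏ q ∈ Q1, Real.exp (t * (h / q + 1) / (q : ℝ)) := by
      refine prod_le_prod (fun q _ => by positivity) fun q _ => ?_
      have := Real.add_one_le_exp (t * (h / q + 1) / (q : ℝ))
      linarith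
    rw [← Real.exp_sum] at h2
    refine h2.trans (Real.exp_le_exp.2 ?_)
    have h3 : ∑ q ∈ Q1, t * (h / q + 1) / (q : ℝ) =
        t * (h * ∑ q ∈ Q1, ((q : ℝ) ^ 2)⁻¹ + ∑ q ∈ Q1, 1 / (q : ℝ)) := by
      rw [mul_sum, ← sum_add_distrib, mul_sum]
      refine sum_congr rfl fun q hq => ?_
      have hq0 : (q : ℝ) ≠ 0 := by exact_mod_cast (h1 q hq).pos.ne'
      field_simp
    rw [h3, ← htB]
    refine mul_le_mul_of_nonneg_left ?_ ht0.le
    have h4 := mul_le_mul_of_nonneg_left (sum_sq Q1 w hw hw1) hh0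
    rw [mul_one_div] at h4
    linarith
  have hinner : ∀ a0, ∑ a1 ∈ range N1,
      Real.exp (t * ((surv Q1 a1 (surv Q0 a0 R)).card : ℝ)) ≤
      (∏ q ∈ Q1, (q : ℝ)) * Real.exp (t * ((1 + ε) * (h * V Q0)) * (V Q1 * Real.exp ε)) := by
    intro a0
    have h2 := mom_up Q1 h1 (surv Q0 a0 R) (fun q => h / q + 1) t ht0.le hM (by
      intro q hq r
      refine le_trans ?_ (cnt_class m p c hp q (h1 q hq) (hpQ q (mem_union_right _ hq)) r)
      have : (surv Q0 a0 R).filter (fun i => q ∣ r + i) ⊆ R.filter (fun i => q ∣ r + i) :=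
        filter_subset_filter _ (filter_subset _ _)
      exact_mod_cast card_le_card this)
    refine h2.trans ?_
    refine mul_le_mul_of_nonneg_left (Real.exp_le_exp.2 ?_) (prod_nonneg fun _ _ => by positivity)
    refine mul_le_mul (mul_le_mul_of_nonneg_left (hT a0) ht0.le) hprod ?_ ?_
    · refine prod_nonneg fun q hq => mul_nonneg ?_ (by positivity)
      have h3 : (1 : ℝ) ≤ q := by exact_mod_cast (h1 q hq).one_lt.le
      have h4 : 1 / (q : ℝ) ≤ 1 := by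
        rw [div_le_one (by linarith)]
        exact h3
      linarith
    · positivity
  have htot : ∑ a ∈ range (N0 * N1), Real.exp (t * ((surv (Q0 ∪ Q1) a R).card : ℝ)) ≤
      (∏ q ∈ Q0 ∪ Q1, (q : ℝ)) *
        Real.exp (t * ((1 + 4 * ε) * (h * V (Q0 ∪ Q1)))) := by
    rw [hsum]
    refine (sum_le_sum fun a0 _ => hinner a0).trans ?_
    rw [sum_const, card_range, nsmul_eq_mul, prod_union hd, ← mul_assoc]
    have h2 : (N0 : ℝ) = ∏ q ∈ Q0, (q : ℝ) := by rw [hN0]; push_cast; rfl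
    rw [h2]
    refine mul_le_mul_of_nonneg_left (Real.exp_le_exp.2 ?_)
      (mul_nonneg (prod_nonneg fun _ _ => by positivity) (prod_nonneg fun _ _ => by positivity))
    have h3 : t * ((1 + ε) * (h * V Q0)) * (V Q1 * Real.exp ε) =
        t * (((1 + ε) * Real.exp ε) * (h * V (Q0 ∪ Q1))) := by rw [hV]; ring
    rw [h3]
    refine mul_le_mul_of_nonneg_left ?_ ht0.le
    refine mul_le_mul_of_nonneg_right (exp_aux ε hε hε4) ?_
    rw [hV]
    positivity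
  -- Markov
  rw [hN]
  set S := (range (N0 * N1)).filter (fun a => (1 + 5 * ε) * (h * V (Q0 ∪ Q1)) <
      ((surv (Q0 ∪ Q1) a R).card : ℝ)) with hS
  have hmark : (S.card : ℝ) * Real.exp (t * ((1 + 5 * ε) * (h * V (Q0 ∪ Q1)))) ≤
      ∑ a ∈ range (N0 * N1), Real.exp (t * ((surv (Q0 ∪ Q1) a R).card : ℝ)) := by
    have h2 : (S.card : ℝ) * Real.exp (t * ((1 + 5 * ε) * (h * V (Q0 ∪ Q1)))) =
        ∑ a ∈ S, Real.exp (t * ((1 + 5 * ε) * (h * V (Q0 ∪ Q1)))) := by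
      rw [sum_const, nsmul_eq_mul]
    rw [h2]
    refine (sum_le_sum (f := fun _ => _) fun a ha => ?_).trans
      (sum_le_sum_of_subset_of_nonneg (filter_subset _ _) fun _ _ _ => (Real.exp_pos _).le)
    rw [hS, mem_filter] at ha
    exact Real.exp_le_exp.2 (mul_le_mul_of_nonneg_left ha.2.le ht0.le)
  have h2 := hmark.trans htot
  have h3 : (S.card : ℝ) ≤ (∏ q ∈ Q0 ∪ Q1, (q : ℝ)) *
      Real.exp (t * ((1 + 4 * ε) * (h * V (Q0 ∪ Q1)))) *
        Real.exp (-(t * ((1 + 5 * ε) * (h * V (Q0 ∪ Q1))))) := by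
    have h4 := mul_le_mul_of_nonneg_right h2
      (Real.exp_pos (-(t * ((1 + 5 * ε) * (h * V (Q0 ∪ Q1)))))).le
    rw [mul_assoc (S.card : ℝ), ← Real.exp_add, add_neg_cancel, Real.exp_zero, mul_one] at h4
    exact h4
  rw [mul_assoc, ← Real.exp_add] at h3
  have h5 : t * ((1 + 4 * ε) * (h * V (Q0 ∪ Q1))) + -(t * ((1 + 5 * ε) * (h * V (Q0 ∪ Q1)))) =
      -(ε ^ 2 * (h * V (Q0 ∪ Q1)) / B) := by
    rw [ht]
    field_simp
    ring
  rw [h5] at h3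
  exact h3

end Pool.Agent.H1.Jac
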