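import Pool.Agent.H1.Jac.Main

/-!
# The semi-random theorem for two sets of primes
-/

set_option autoImplicit false

namespace Pool.Agent.H1.Jac

open Finset Filter

theorem core (ε : ℝ) (hε : 0 < ε) (hε1 : ε ≤ 1) : ∃ C : ℝ, 1 ≤ C ∧ ∃ k₀ : ℕ, ∀ k ≥ k₀,
    ∀ K : ℝ, Real.log k ≤ K → K ≤ Real.exp (Real.log k ^ (1 / 3 : ℝ)) →
    ∀ Q E : Finset ℕ, (∀ q ∈ Q, q.Prime) → (∀ p ∈ E, p.Prime) → Disjoint Q E → Q.card ≤ k →
    E.card ≤ k → ∑ p ∈ E, 1 / (p : ℝ) ≤ 1 - ε → ∀ m : ℕ, C * k * K / V Q ≤ m →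
    (m : ℝ) ≤ C * k * K / V Q + 1 →
    ((Bd Q E m).card : ℝ) ≤ (∏ q ∈ Q, (q : ℝ)) * Real.exp (-K) := by
  obtain ⟨C2, hC2, hsum⟩ := sum_le
  obtain ⟨c0, hc0, hV⟩ := V_ge
  obtain ⟨C4, hC4, hVf⟩ := V_filter_le
  obtain ⟨C6, hC6, hmid⟩ := mid_sum
  obtain ⟨δ, hδ⟩ : ∃ δ, δ = ε / 20 := ⟨_, rfl⟩
  have hδ0 : 0 < δ := by rw [hδ]; positivity
  have hδ4 : δ ≤ 1 / 4 := by rw [hδ]; linarith
  obtain ⟨W, hW⟩ : ∃ W, W = 12 / (δ ^ 2 * c0) := ⟨_, rfl⟩
  have hW0 : 0 < W := by rw [hW]; positivity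
  obtain ⟨C0, hC0⟩ : ∃ C0, C0 = 96 / ε := ⟨_, rfl⟩
  have hC01 : 1 ≤ C0 := by
    rw [hC0, le_div_iff₀ hε]; linarith
  have hev := (asym1 δ c0 C2 W hδ0 hc0 hC2 hW0).and ((asym2 (C2 + 1) W (by linarith) hW0).and
    ((asym3 (C0 / c0) (by positivity)).and ((asym4 (2 * C4 * C6) (2 * C4 / C0) (ε / 8)
      (by positivity)).and (asym5.and (eventually_ge_atTop 3)))))
  obtain ⟨k₀, hk₀⟩ := eventually_atTop.1 hev
  refine ⟨C0, hC01, k₀, ?_⟩
  intro k hk K hK1 hK2 Q E hQ hE hd hQk hEk hSE m hm1 hm2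
  obtain ⟨a1, a2, a3, a4, ⟨a5, a6⟩, a7⟩ := hk₀ k hk
  obtain ⟨r, a8, a9⟩ := a1 K hK1 hK2
  have a2' := a2 K hK1 hK2
  have a3' := a3 K hK1 hK2
  clear a1 a2 a3 hev hk₀
  obtain ⟨ℓ, hℓ⟩ : ∃ ℓ, ℓ = Real.log k := ⟨_, rfl⟩
  obtain ⟨w, hw⟩ : ∃ w, w = ⌈W * K * Real.log k⌉₊ := ⟨_, rfl⟩
  obtain ⟨L, hL⟩ : ∃ L, L = ⌈Real.exp (Real.log k ^ (2 / 5 : ℝ))⌉₊ := ⟨_, rfl⟩
  rw [← hL] at a4 a5 a6
  rw [← hw] at a9 a2'
  obtain ⟨X, hX⟩ : ∃ X, X = Real.exp (Real.log k ^ (2 / 5 : ℝ)) := ⟨_, rfl⟩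
  rw [← hX] at a9 a2' hL
  rw [← hℓ] at a4 a8 a9 a2' a3' hK1 hw
  have hXL : X ≤ L := by rw [hL]; exact Nat.le_ceil _
  have hX0 : 0 < X := by rw [hX]; exact Real.exp_pos _
  have hk3 : (3 : ℝ) ≤ k := by exact_mod_cast a7
  have hℓ1 : 1 ≤ ℓ := by
    rw [hℓ, Real.le_log_iff_exp_le (by linarith)]
    have := Real.exp_one_lt_d9
    linarith
  have hlℓ : 0 ≤ Real.log ℓ := Real.log_nonneg hℓ1
  have hK0 : 1 ≤ K := hℓ1.trans hK1
  have hv : 0 < V Q := V_pos hQ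
  have hv1 : V Q ≤ 1 := V_le_one hQ
  have hvge : c0 / ℓ ≤ V Q := by rw [hℓ]; exact hV k a7 Q hQ hQk
  have hk0 : (0 : ℝ) < k := by linarith
  have hkM : C0 * k * K ≤ m * V Q := by
    rw [div_le_iff₀ hv] at hm1
    exact hm1
  have hkm : (k : ℝ) ≤ m := by
    have e1 : (k : ℝ) ≤ C0 * k * K := by
      have e2 : (1 : ℝ) ≤ C0 * K := one_le_mul_of_one_le_of_one_le hC01 hK0
      nlinarith
    have e2 : (m : ℝ) * V Q ≤ m := by
      have : (0 : ℝ) ≤ m := Nat.cast_nonneg m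
      nlinarith
    linarith
  have hM : (0 : ℝ) < m := by linarith
  have hw0 : 0 < w := by
    rw [hw]
    exact Nat.ceil_pos.2 (by positivity)
  have hwW : W * K * ℓ ≤ w := by rw [hw]; exact Nat.le_ceil _
  have hw0' : (0 : ℝ) < w := by exact_mod_cast hw0
  -- the two parts of `Q`
  obtain ⟨Q0, hQ0⟩ : ∃ Q0, Q0 = Q.filter (fun q => q ≤ w) := ⟨_, rfl⟩
  obtain ⟨Q1, hQ1⟩ : ∃ Q1, Q1 = Q.filter (fun q => ¬ q ≤ w) := ⟨_, rfl⟩
  have hQu : Q0 ∪ Q1 = Q := by rw [hQ0, hQ1, filter_union_filter_not_eq]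
  have hQd : Disjoint Q0 Q1 := by rw [hQ0, hQ1]; exact disjoint_filter_filter_not _ _ _
  have hQ0s : Q0 ⊆ Q := by rw [hQ0]; exact filter_subset _ _
  have hQ1s : Q1 ⊆ Q := by rw [hQ1]; exact filter_subset _ _
  have hQ0p : ∀ q ∈ Q0, q.Prime := fun q hq => hQ q (hQ0s hq)
  have hQ1p : ∀ q ∈ Q1, q.Prime := fun q hq => hQ q (hQ1s hq)
  have hQ0w : ∀ q ∈ Q0, q ≤ w := fun q hq => by rw [hQ0, mem_filter] at hq; exact hq.2
  have hQ1w : ∀ q ∈ Q1, w < q := fun q hq => by rw [hQ1, mem_filter] at hq; omega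
  have hS0 : ∑ q ∈ Q0, 1 / (q : ℝ) ≤ Real.log ℓ + C2 := by
    rw [hℓ]; exact hsum k a7 Q0 hQ0p ((card_le_card hQ0s).trans hQk)
  have hS0' : 0 ≤ ∑ q ∈ Q0, 1 / (q : ℝ) := sum_nonneg fun q _ => by positivity
  have hS1 : 1 + ∑ q ∈ Q1, 1 / (q : ℝ) ≤ Real.log ℓ + (C2 + 1) := by
    have := hsum k a7 Q1 hQ1p ((card_le_card hQ1s).trans hQk)
    rw [← hℓ] at this
    linarith
  have hv0 : c0 / ℓ ≤ V Q0 := by
    rw [hℓ]; exact hV k a7 Q0 hQ0p ((card_le_card hQ0s).trans hQk)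
  have hc0ℓ : 0 < c0 / ℓ := by positivity
  -- accuracy of the sieve by small primes
  have hacc : ∀ p : ℕ, 0 < p → (∀ q ∈ Q, Nat.Coprime p q) → p * L ≤ m → ∀ a c,
      |((surv Q0 a (AP m p c)).card : ℝ) - (m : ℝ) / p * V Q0| ≤ δ * ((m : ℝ) / p * V Q0) := by
    intro p hp hpq hpL a c
    have hp0 : (0 : ℝ) < p := by exact_mod_cast hp
    have hXm : X ≤ (m : ℝ) / p := by
      rw [le_div_iff₀ hp0]
      have e1 : ((p * L : ℕ) : ℝ) ≤ m := by exact_mod_cast hpL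
      push_cast at e1
      nlinarith
    exact pure_acc hQ0p hp (fun q hq => hpq q (hQ0s hq)) hQ0w hδ0 (a8 _ hS0' hS0) a9 hc0ℓ hv0
      hXm a c
  -- the exponent
  have hexp : ∀ p : ℕ, 0 < p → p * L ≤ m →
      Real.exp (-(δ ^ 2 * ((m : ℝ) / p * V Q) / ((m : ℝ) / p / w + (Real.log ℓ + (C2 + 1))))) ≤
        Real.exp (-(6 * K)) := by
    intro p hp hpL
    have hp0 : (0 : ℝ) < p := by exact_mod_cast hp
    have hXm : X ≤ (m : ℝ) / p := by
      rw [le_div_iff₀ hp0]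
      have e1 : ((p * L : ℕ) : ℝ) ≤ m := by exact_mod_cast hpL
      push_cast at e1
      nlinarith
    apply Real.exp_le_exp.2
    have := exponent (h := (m : ℝ) / p) hδ0 hw0' (a2'.trans hXm) hvge (by linarith) hc0
      (by linarith) hW hwW (by positivity) (by linarith)
    linarith
  -- the thresholds
  obtain ⟨v2, hv2⟩ : ∃ v2, v2 = V (Q.filter (fun q => L < q)) := ⟨_, rfl⟩
  have hv2le : v2 ≤ C4 * Real.log L * V Q := by rw [hv2]; exact hVf L a6 Q hQ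
  have hv20 : 0 < v2 := by
    rw [hv2]; exact V_pos fun q hq => hQ q (mem_filter.1 hq).1
  obtain ⟨N, hN⟩ : ∃ N, N = ∏ q ∈ Q, (q : ℝ) := ⟨_, rfl⟩
  have hN0 : 0 ≤ N := by rw [hN]; positivity
  have hl2 : 1 / 2 ≤ Real.log 2 := by
    have := Real.log_two_gt_d9
    linarith
  have hl2' : 0 < Real.log 2 := by linarith
  set thr : ℕ → ℝ := fun p => if p * L ≤ m then (1 + 5 * δ) * ((m : ℝ) / p * V Q) else
    (v2 * ((m : ℝ) / p + 1) + 6 * K) / Real.log 2 with hthr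
  have hcop : ∀ p ∈ E, ∀ q ∈ Q, Nat.Coprime p q := by
    intro p hp q hq
    refine (Nat.coprime_primes (hE p hp) (hQ q hq)).2 ?_
    rintro rfl
    exact disjoint_left.1 hd hq hp
  have hL0 : 0 < L := by omega
  have hLk : (L : ℝ) ≤ k := by
    refine a5.trans ?_
    rw [Real.sqrt_le_left (by linarith)]
    nlinarith
  have hLm : L ≤ m := by
    have : (L : ℝ) ≤ m := hLk.trans hkm
    exact_mod_cast this
  have hT0 : 0 ≤ N * Real.exp (-(6 * K)) := by positivity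
  have hub := union_bound Q E (fun p hp => (hE p hp).pos) m thr ((1 - 5 * δ) * ((m : ℝ) * V Q))
    (N * Real.exp (-(6 * K))) hT0 ?_ ?_ ?_ ?_
  · -- conclusion
    refine hub.trans ?_
    have e1 : (1 : ℝ) + E.card * m ≤ Real.exp (5 * K) := by
      refine le_trans ?_ a3'
      have e2 : (E.card : ℝ) ≤ k := by exact_mod_cast hEk
      have e3 : (m : ℝ) ≤ C0 / c0 * k * K * ℓ + 1 := by
        refine hm2.trans ?_
        have e4 : C0 * k * K / V Q ≤ C0 * k * K / (c0 / ℓ) :=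
          div_le_div_of_nonneg_left (by positivity) hc0ℓ hvge
        have e5 : C0 * k * K / (c0 / ℓ) = C0 / c0 * k * K * ℓ := by field_simp
        linarith
      have e6 : (E.card : ℝ) * m ≤ k * (C0 / c0 * k * K * ℓ + 1) :=
        mul_le_mul e2 e3 hM.le hk0.le
      have e7 : 0 ≤ (k : ℝ) * (C0 / c0 * k * K * ℓ + 1) := by positivity
      nlinarith
    calc N * Real.exp (-(6 * K)) * (1 + E.card * m)
        ≤ N * Real.exp (-(6 * K)) * Real.exp (5 * K) := mul_le_mul_of_nonneg_left e1 hT0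
      _ = (∏ q ∈ Q, (q : ℝ)) * Real.exp (-K) := by
        rw [mul_assoc, ← Real.exp_add, hN]; congr 2; ring
  · -- lower tail
    have h1 := conc_lo Q0 Q1 hQ0p hQ1p hQd m 1 0 w one_pos (fun q _ => Nat.coprime_one_left q)
      hw0 hQ1w (Real.log ℓ + (C2 + 1)) δ hδ0 hδ4 hS1 (by
        intro a
        have := (abs_le.1 (hacc 1 one_pos (fun q _ => Nat.coprime_one_left q) (by omega) a 0)).1
        linarith)
    rw [hQu, AP_one, ← hN, Nat.cast_one, div_one] at h1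
    have h2 := hexp 1 one_pos (by omega)
    rw [Nat.cast_one, div_one] at h2
    exact h1.trans (mul_le_mul_of_nonneg_left h2 hN0)
  · -- upper tails
    intro p hp hpm c
    have hp0 := (hE p hp).pos
    by_cases hpL : p * L ≤ m
    · have ht : thr p = (1 + 5 * δ) * ((m : ℝ) / p * V Q) := if_pos hpL
      rw [ht]
      have h1 := conc_up Q0 Q1 hQ0p hQ1p hQd m p c w hp0
        (fun q hq => hcop p hp q (by rw [← hQu]; exact hq))
        hw0 hQ1w (Real.log ℓ + (C2 + 1)) δ hδ0 hδ4 hS1 (by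
          intro a
          have := (abs_le.1 (hacc p hp0 (hcop p hp) hpL a c)).2
          linarith)
      rw [hQu, ← hN] at h1
      exact h1.trans (mul_le_mul_of_nonneg_left (hexp p hp0 hpL) hN0)
    · have ht : thr p = (v2 * ((m : ℝ) / p + 1) + 6 * K) / Real.log 2 := if_neg hpL
      have h1 := small Q hQ m p c L hp0 (hcop p hp) (by omega) (thr p)
      rw [← hv2, ← hN] at h1
      refine h1.trans (mul_le_mul_of_nonneg_left ?_ hN0)
      apply Real.exp_le_exp.2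
      rw [ht, div_mul_cancel₀ _ hl2'.ne']
      linarith
  · -- large primes
    intro p hp hpm
    have hpL : ¬ p * L ≤ m := by
      have : m < p * L := lt_of_lt_of_le hpm (Nat.le_mul_of_pos_right p hL0)
      omega
    have ht : thr p = (v2 * ((m : ℝ) / p + 1) + 6 * K) / Real.log 2 := if_neg hpL
    rw [ht, le_div_iff₀ hl2']
    have h1 : 0 ≤ v2 * ((m : ℝ) / p + 1) := by positivity
    have h2 := Real.log_two_lt_d9
    linarith
  · -- the sum of the thresholds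
    obtain ⟨E', hE'⟩ : ∃ E', E' = E.filter (fun p => ¬ p * L ≤ m) := ⟨_, rfl⟩
    have hE's : E' ⊆ E := by rw [hE']; exact filter_subset _ _
    have hS' := hmid k a7 (L : ℝ) (by exact_mod_cast (by omega : 1 ≤ L)) a5 E'
      (fun p hp => hE p (hE's hp)) ((card_le_card hE's).trans hEk) (by
        intro p hp
        rw [hE', mem_filter] at hp
        have h1 : (m : ℝ) < p * L := by exact_mod_cast not_le.1 hp.2
        rw [div_lt_iff₀ (by exact_mod_cast hL0)]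
        linarith)
    rw [← hℓ] at hS'
    have h1 : ∑ p ∈ E, thr p ≤ (1 + 5 * δ) * ((m : ℝ) * V Q) * (∑ p ∈ E, 1 / (p : ℝ)) +
        2 * (v2 * ((m : ℝ) * (∑ p ∈ E', 1 / (p : ℝ)) + k) + 6 * K * k) := by
      have h2 : ∀ p ∈ E, thr p ≤ (1 + 5 * δ) * ((m : ℝ) * V Q) * (1 / (p : ℝ)) +
          (if ¬ p * L ≤ m then 2 * (v2 * ((m : ℝ) * (1 / (p : ℝ)) + 1) + 6 * K) else 0) := by
        intro p hp
        by_cases hpL : p * L ≤ m
        · have ht : thr p = (1 + 5 * δ) * ((m : ℝ) / p * V Q) := if_pos hpL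
          rw [ht, if_neg (not_not.2 hpL), add_zero]
          apply le_of_eq
          ring
        · have ht : thr p = (v2 * ((m : ℝ) / p + 1) + 6 * K) / Real.log 2 := if_neg hpL
          rw [ht, if_pos hpL]
          have h3 : (v2 * ((m : ℝ) / p + 1) + 6 * K) / Real.log 2 ≤
              2 * (v2 * ((m : ℝ) * (1 / (p : ℝ)) + 1) + 6 * K) := by
            rw [div_le_iff₀ hl2']
            have h4 : (m : ℝ) * (1 / (p : ℝ)) = (m : ℝ) / p := by ring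
            rw [h4]
            have h5 : 0 ≤ v2 * ((m : ℝ) / p + 1) + 6 * K := by positivity
            nlinarith
          have h4 : 0 ≤ (1 + 5 * δ) * ((m : ℝ) * V Q) * (1 / (p : ℝ)) := by positivity
          linarith
      refine (sum_le_sum h2).trans ?_
      rw [sum_add_distrib, ← mul_sum, ← sum_filter, ← hE', ← mul_sum]
      have h3 : ∑ p ∈ E', (v2 * ((m : ℝ) * (1 / (p : ℝ)) + 1) + 6 * K) ≤
          v2 * ((m : ℝ) * (∑ p ∈ E', 1 / (p : ℝ)) + k) + 6 * K * k := by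
        have e1 : ∑ p ∈ E', (v2 * ((m : ℝ) * (1 / (p : ℝ)) + 1) + 6 * K) =
            v2 * ((m : ℝ) * (∑ p ∈ E', 1 / (p : ℝ)) + E'.card) + 6 * K * E'.card := by
          rw [sum_add_distrib, ← mul_sum, sum_add_distrib, ← mul_sum, sum_const, sum_const,
            nsmul_eq_mul, nsmul_eq_mul]
          ring
        rw [e1]
        have e2 : (E'.card : ℝ) ≤ k := by
          exact_mod_cast (card_le_card hE's).trans hEk
        have e3 : v2 * (E'.card : ℝ) ≤ v2 * k := mul_le_mul_of_nonneg_left e2 hv20.le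
        have e4 : 6 * K * (E'.card : ℝ) ≤ 6 * K * k :=
          mul_le_mul_of_nonneg_left e2 (by positivity)
        linarith
      linarith
    refine lt_of_le_of_lt h1 ?_
    refine final_ineq (ℓ := ℓ) hε hδ hC0 hC4 hℓ1 hK1 hk0 hM hv hv1
      (Real.log_nonneg (by exact_mod_cast (by omega : 1 ≤ L))) hlℓ hv2le hSE
      (sum_nonneg fun p _ => by positivity) hS' hkM a4

end Pool.Agent.H1.Jac
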