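import Pool.Agent.H1.Jac.MertA
import Pool.Agent.H24.UM.Fixed

/-!
# The product over the large primes

Part of `MP_4e17b9_nt`. Let `Q' := Q.filter (y < ·) ∪ {primes ≤ y}`; it has at most `k + y ≤ 2 k`
elements, so `sum_le` (with `2 k`) gives `∑_{Q'} 1/q ≤ log log (2 k) + C ≤ log log k + C + 1`. By
`Pool.Agent.H24.UM.loglog_lower` (in `H24/UM/Fixed`, `y ≥ 3`; treat `y = 2` apart) the primes up to
`y` contribute at least `log log y - 2`. So `∑_{q ∈ Q, q > y} 1/q ≤ log (log k / log y) + C'`, and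
`V ≥ exp (- ∑ (1/q + 1/q ^ 2))` (`exp_le_one_sub`, `sum_sq_le` in `MertA`).
-/

set_option autoImplicit false

namespace Pool.Agent.H1.Jac

open Finset

private lemma vbig_exp {t : ℝ} (h0 : 0 ≤ t) (h1 : t ≤ 1 / 2) :
    Real.exp (-(t + t ^ 2)) ≤ 1 - t := by
  have hx : 0 ≤ t + t ^ 2 := by positivity
  have h2 := Real.quadratic_le_exp_of_nonneg hx
  have h3 : 1 ≤ (1 - t) * (1 + (t + t ^ 2) + (t + t ^ 2) ^ 2 / 2) := by
    have h4 : (1 - t) * (1 + (t + t ^ 2) + (t + t ^ 2) ^ 2 / 2) =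
        1 + t ^ 2 * (1 - t - t ^ 2 - t ^ 3) / 2 := by ring
    have h5 : 0 ≤ 1 - t - t ^ 2 - t ^ 3 := by
      have h6 : t ^ 2 ≤ (1 / 2) ^ 2 := pow_le_pow_left₀ h0 h1 2
      have h7 : t ^ 3 ≤ (1 / 2) ^ 3 := pow_le_pow_left₀ h0 h1 3
      linarith
    rw [h4]
    have h8 : 0 ≤ t ^ 2 * (1 - t - t ^ 2 - t ^ 3) / 2 := by positivity
    linarith
  have h9 : 1 ≤ (1 - t) * Real.exp (t + t ^ 2) :=
    h3.trans (mul_le_mul_of_nonneg_left h2 (by linarith))
  rw [Real.exp_neg, inv_le_iff_one_le_mul₀ (Real.exp_pos _)]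
  exact h9

private lemma vbig_sq (Q : Finset ℕ) : ∑ q ∈ Q, (1 / (q : ℝ)) ^ 2 ≤ 2 := by
  have h1 : ∑ q ∈ Q, (1 : ℝ) / (q : ℝ) ^ 2 ≤ Real.pi ^ 2 / 6 :=
    sum_le_hasSum Q (fun _ _ => by positivity) hasSum_zeta_two
  have h2 : ∑ q ∈ Q, (1 / (q : ℝ)) ^ 2 = ∑ q ∈ Q, (1 : ℝ) / (q : ℝ) ^ 2 :=
    sum_congr rfl fun q _ => by rw [div_pow, one_pow]
  rw [h2]
  have h3 := Real.pi_lt_d2
  have h4 := Real.pi_pos
  nlinarith

/-- the primes up to `y` contribute at least `log log y - 2` -/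
private lemma vbig_low (y : ℕ) (hy : 2 ≤ y) :
    Real.log (Real.log y) - 2 ≤ ∑ p ∈ (Ioc 0 y).filter Nat.Prime, 1 / (p : ℝ) := by
  have hnn : 0 ≤ ∑ p ∈ (Ioc 0 y).filter Nat.Prime, 1 / (p : ℝ) :=
    sum_nonneg fun _ _ => by positivity
  rcases Nat.lt_or_ge y 3 with h | h
  · have hy2 : y = 2 := by omega
    subst hy2
    have h1 : Real.log (Real.log ((2 : ℕ) : ℝ)) ≤ 0 := by
      refine Real.log_nonpos ?_ ?_
      · exact Real.log_nonneg (by norm_num)
      · have := Real.log_two_lt_d9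
        push_cast
        linarith
    exact (by linarith : Real.log (Real.log ((2 : ℕ) : ℝ)) - 2 ≤ 0).trans hnn
  · refine (Pool.Agent.H24.UM.loglog_lower y h).trans ?_
    refine sum_le_sum_of_subset_of_nonneg ?_ fun _ _ _ => by positivity
    intro p hp
    rw [Pool.Agent.H12.mem_oddPrimes] at hp
    rw [mem_filter, mem_Ioc]
    exact ⟨⟨hp.2.2.pos, hp.2.1.le⟩, hp.2.2⟩

theorem V_big : ∃ c : ℝ, 0 < c ∧ ∀ k : ℕ, 3 ≤ k → ∀ y : ℕ, 2 ≤ y → y ≤ k → ∀ Q : Finset ℕ,
    (∀ q ∈ Q, q.Prime) → Q.card ≤ k →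
    c * Real.log y / Real.log k ≤ V (Q.filter (fun q => y < q)) := by
  obtain ⟨C, hC, h⟩ := sum_le
  refine ⟨Real.exp (-(C + 5)), Real.exp_pos _, fun k hk y hy hyk Q hQ hcard => ?_⟩
  have hk1 : (1 : ℝ) < k := by exact_mod_cast (by omega : 1 < k)
  have hy1 : (1 : ℝ) < y := by exact_mod_cast (by omega : 1 < y)
  have hlk : 0 < Real.log k := Real.log_pos hk1
  have hly : 0 < Real.log y := Real.log_pos hy1
  have hdis : Disjoint (Q.filter (fun q => y < q)) ((Ioc 0 y).filter Nat.Prime) := by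
    rw [disjoint_left]
    intro q h1 h2
    rw [mem_filter] at h1 h2
    rw [mem_Ioc] at h2
    omega
  have h1 := h (2 * k) (by omega) (Q.filter (fun q => y < q) ∪ (Ioc 0 y).filter Nat.Prime)
    (by
      intro q hq
      rw [mem_union, mem_filter, mem_filter] at hq
      rcases hq with hq | hq
      · exact hQ q hq.1
      · exact hq.2)
    (by
      refine (card_union_le _ _).trans ?_
      have e1 : (Q.filter (fun q => y < q)).card ≤ k := (card_filter_le _ _).trans hcard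
      have e2 : ((Ioc 0 y).filter Nat.Prime).card ≤ y := by
        refine (card_filter_le _ _).trans ?_
        simp
      omega)
  rw [sum_union hdis] at h1
  have h2 := vbig_low y hy
  have h3 : Real.log (Real.log ((2 * k : ℕ) : ℝ)) ≤ Real.log (Real.log k) + 1 := by
    have hk3 : (3 : ℝ) ≤ k := by exact_mod_cast hk
    have e1 : Real.log ((2 * k : ℕ) : ℝ) ≤ 2 * Real.log k := by
      have e2 : ((2 * k : ℕ) : ℝ) ≤ (k : ℝ) ^ 2 := by
        push_cast
        nlinarith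
      have e3 := Real.log_le_log (by push_cast; linarith) e2
      rw [Real.log_pow] at e3
      push_cast at e3 ⊢
      linarith
    have e4 : 0 < Real.log ((2 * k : ℕ) : ℝ) := by
      refine Real.log_pos ?_
      push_cast
      linarith
    have e5 := Real.log_le_log e4 e1
    rw [Real.log_mul (by norm_num) hlk.ne'] at e5
    have e6 := Real.log_two_lt_d9
    linarith
  have h4 : ∑ q ∈ Q.filter (fun q => y < q), 1 / (q : ℝ) ≤
      Real.log (Real.log k) - Real.log (Real.log y) + (C + 3) := by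
    linarith
  have h5 := vbig_sq (Q.filter (fun q => y < q))
  have h6 : Real.exp (∑ q ∈ Q.filter (fun q => y < q), -(1 / (q : ℝ) + (1 / (q : ℝ)) ^ 2)) ≤
      V (Q.filter (fun q => y < q)) := by
    rw [Real.exp_sum]
    unfold V
    refine prod_le_prod (fun _ _ => (Real.exp_pos _).le) fun q hq => ?_
    have hq2 : (2 : ℝ) ≤ q := by exact_mod_cast (hQ q (mem_filter.1 hq).1).two_le
    refine vbig_exp (by positivity) ?_
    exact one_div_le_one_div_of_le (by norm_num) hq2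
  refine le_trans ?_ h6
  have h7 : Real.exp (-(C + 5)) * Real.log y / Real.log k =
      Real.exp (-(Real.log (Real.log k) - Real.log (Real.log y) + (C + 3)) - 2) := by
    rw [show -(Real.log (Real.log k) - Real.log (Real.log y) + (C + 3)) - 2 =
      -(C + 5) + Real.log (Real.log y) - Real.log (Real.log k) by ring,
      Real.exp_sub, Real.exp_add, Real.exp_log hlk, Real.exp_log hly]
  rw [h7]
  refine Real.exp_le_exp.2 ?_
  rw [sum_neg_distrib, sum_add_distrib]
  linarith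

end Pool.Agent.H1.Jac
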