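import Pool.Agent.H1.Jac.Main2
import Pool.Agent.H1.Jac.Cheb
import Pool.Agent.H1.Jac.VBig
import Pool.Agent.H1.Jac.Mid2
import Pool.Agent.H1.Jac.AsymC

/-!
# The semi-random theorem for two sets of primes, intervals of length `k K (log k) ^ (1 - c)`
-/

set_option autoImplicit false

namespace Pool.Agent.H1.Jac

open Finset Filter

theorem core_two (ε : ℝ) (hε : 0 < ε) (hε1 : ε ≤ 1) : ∃ c : ℝ, 0 < c ∧ c ≤ 1 / 4 ∧ ∃ k₀ : ℕ,
    ∀ k ≥ k₀,
    ∀ K : ℝ, Real.log k ≤ K → K ≤ Real.exp (Real.log k ^ (1 / 3 : ℝ)) →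
    ∀ Q E : Finset ℕ, (∀ q ∈ Q, q.Prime) → (∀ p ∈ E, p.Prime) → Disjoint Q E → Q.card ≤ k →
    E.card ≤ k → ∑ p ∈ E, 1 / (p : ℝ) ≤ 1 - ε → ∀ m : ℕ,
    k * K * Real.log k ^ (1 - c) ≤ m → (m : ℝ) ≤ k * K * Real.log k ^ (1 - c) + 1 →
    ((Bd Q E m).card : ℝ) ≤ (∏ q ∈ Q, (q : ℝ)) * Real.exp (-K) := by
  obtain ⟨C2, hC2, hsum⟩ := sum_le
  obtain ⟨c0, hc0, hV⟩ := V_ge
  obtain ⟨C4, hC4, hVf⟩ := V_filter_le
  obtain ⟨C6, hC6, hmid⟩ := mid_sum
  obtain ⟨CS, hCS, N, hN, hsieve⟩ := sieveU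
  obtain ⟨Cπ, hCπ, hcheb⟩ := cheb
  obtain ⟨c7, hc7, hVb⟩ := V_big
  obtain ⟨C9, hC9, hmid2⟩ := mid_two
  obtain ⟨δ, hδ⟩ : ∃ δ, δ = ε / 20 := ⟨_, rfl⟩
  have hδ0 : 0 < δ := by rw [hδ]; positivity
  have hδ4 : δ ≤ 1 / 4 := by rw [hδ]; linarith
  obtain ⟨W, hW⟩ : ∃ W, W = 12 / (δ ^ 2 * c0) := ⟨_, rfl⟩
  have hW0 : 0 < W := by rw [hW]; positivity
  obtain ⟨N4, hN4⟩ : ∃ N4 : ℝ, N4 = 4 * N := ⟨_, rfl⟩
  have hN40 : 0 < N4 := by
    rw [hN4]
    have : (1 : ℝ) ≤ N := by exact_mod_cast hN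
    linarith
  -- the constants `c` and `B`
  obtain ⟨A, hA⟩ : ∃ A, A = CS * N4 * C9 / c7 := ⟨_, rfl⟩
  have hA0 : 0 < A := by rw [hA]; positivity
  obtain ⟨A', hA'⟩ : ∃ A', A' = CS * N4 / c7 := ⟨_, rfl⟩
  have hA'0 : 0 < A' := by rw [hA']; positivity
  obtain ⟨c, hc⟩ : ∃ c, c = min (1 / 4) (ε / (64 * A)) := ⟨_, rfl⟩
  have hcpos : 0 < c := by rw [hc]; positivity
  have hc4 : c ≤ 1 / 4 := by rw [hc]; exact min_le_left _ _
  have hcs : A * c ≤ ε / 64 := by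
    have h1 : c ≤ ε / (64 * A) := by rw [hc]; exact min_le_right _ _
    have h2 : A * (ε / (64 * A)) = ε / 64 := by field_simp
    rw [← h2]
    exact mul_le_mul_of_nonneg_left h1 hA0.le
  obtain ⟨B, hB⟩ : ∃ B, B = max 1 (288 * Cπ / (c0 * ε)) := ⟨_, rfl⟩
  have hB1 : 1 ≤ B := by rw [hB]; exact le_max_left _ _
  have hBge : 288 * Cπ / (c0 * ε) ≤ B := by rw [hB]; exact le_max_right _ _
  have hB0 : 0 < B := by linarith
  -- asymptotics
  have hlog : Tendsto (fun k : ℕ => Real.log k) atTop atTop :=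
    Real.tendsto_log_atTop.comp tendsto_natCast_atTop_atTop
  have hllog : Tendsto (fun k : ℕ => Real.log (Real.log k)) atTop atTop :=
    Real.tendsto_log_atTop.comp hlog
  have hpow : Tendsto (fun k : ℕ => Real.log k ^ (3 / 4 : ℝ)) atTop atTop :=
    (tendsto_rpow_atTop (by norm_num)).comp hlog
  have hpow4 : Tendsto (fun k : ℕ => Real.log k ^ (1 / 4 : ℝ)) atTop atTop :=
    (tendsto_rpow_atTop (by norm_num)).comp hlog
  have hsqrt : Tendsto (fun k : ℕ => Real.sqrt k) atTop atTop :=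
    Real.tendsto_sqrt_atTop.comp tendsto_natCast_atTop_atTop
  have hev := (asym1 δ c0 C2 W hδ0 hc0 hC2 hW0).and ((asym2 (C2 + 1) W (by linarith) hW0).and
    ((asym3 1 (by norm_num)).and ((asym4 (2 * C4 * C6) (2 * C4) (ε / 16)
      (by positivity)).and (asym5.and ((eventually_ge_atTop 3).and ((asymC N hN).and
      ((hllog.eventually_ge_atTop 1).and ((hllog.eventually_ge_atTop
        (A * (Real.log B + 1) * 64 / ε)).and
      ((hpow4.eventually_ge_atTop (A' * 64 / ε)).and ((hpow.eventually_ge_atTop B).and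
      (hsqrt.eventually_ge_atTop B)))))))))))
  obtain ⟨k₀, hk₀⟩ := eventually_atTop.1 hev
  refine ⟨c, hcpos, hc4, k₀, ?_⟩
  intro k hk K hK1 hK2 Q E hQ hE hd hQk hEk hSE m hm1 hm2
  obtain ⟨a1, a2, a3, a4, ⟨a5, a6⟩, a7, ⟨y, hy2, hyk, hyN, hly⟩, a8', a9', a10, a11, a12⟩ := hk₀ k hk
  obtain ⟨r, a8, a9⟩ := a1 K hK1 hK2
  have a2' := a2 K hK1 hK2
  have a3' := a3 K hK1 hK2
  clear a1 a2 a3 hev hk₀
  obtain ⟨ℓ, hℓ⟩ : ∃ ℓ, ℓ = Real.log k := ⟨_, rfl⟩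
  obtain ⟨w, hw⟩ : ∃ w, w = ⌈W * K * Real.log k⌉₊ := ⟨_, rfl⟩
  obtain ⟨L, hL⟩ : ∃ L, L = ⌈Real.exp (Real.log k ^ (2 / 5 : ℝ))⌉₊ := ⟨_, rfl⟩
  rw [← hL] at a4 a5 a6
  rw [← hw] at a9 a2'
  obtain ⟨X, hX⟩ : ∃ X, X = Real.exp (Real.log k ^ (2 / 5 : ℝ)) := ⟨_, rfl⟩
  rw [← hX] at a9 a2' hL
  rw [← hℓ] at a4 a8 a9 a2' a3' hK1 hw hyN hly a8' a9' a10 a11 hm1 hm2
  have hXL : X ≤ L := by rw [hL]; exact Nat.le_ceil _
  have hX0 : 0 < X := by rw [hX]; exact Real.exp_pos _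
  have hk3 : (3 : ℝ) ≤ k := by exact_mod_cast a7
  have hℓ1 : 1 ≤ ℓ := by
    rw [hℓ, Real.le_log_iff_exp_le (by linarith)]
    have := Real.exp_one_lt_d9
    linarith
  have hℓ0 : 0 < ℓ := by linarith
  have hlℓ : 0 < Real.log ℓ := by linarith
  have hK0 : 1 ≤ K := hℓ1.trans hK1
  have hv : 0 < V Q := V_pos hQ
  have hv1 : V Q ≤ 1 := V_le_one hQ
  have hvge : c0 / ℓ ≤ V Q := by rw [hℓ]; exact hV k a7 Q hQ hQk
  have hk0 : (0 : ℝ) < k := by linarith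
  have hpw1 : 1 ≤ ℓ ^ (1 - c) := Real.one_le_rpow hℓ1 (by linarith)
  have hpwℓ : ℓ ^ (1 - c) ≤ ℓ := by
    have := Real.rpow_le_rpow_of_exponent_le hℓ1 (show 1 - c ≤ 1 by linarith)
    rwa [Real.rpow_one] at this
  have hkm : (k : ℝ) ≤ m := by
    refine le_trans ?_ hm1
    have e1 : (k : ℝ) * 1 ≤ k * K := mul_le_mul_of_nonneg_left hK0 hk0.le
    have e2 : (k : ℝ) * K * 1 ≤ k * K * ℓ ^ (1 - c) :=
      mul_le_mul_of_nonneg_left hpw1 (by positivity)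
    linarith
  have hM : (0 : ℝ) < m := by linarith
  have hw0 : 0 < w := by
    rw [hw]
    exact Nat.ceil_pos.2 (by positivity)
  have hwW : W * K * ℓ ≤ w := by rw [hw]; exact Nat.le_ceil _
  have hw0' : (0 : ℝ) < w := by exact_mod_cast hw0
  -- the two parts of `Q`
  obtain ⟨Q0, hQ0⟩ : ∃ Q0, Q0 = Q.filter (fun q => q ≤ w) := ⟨_, rfl⟩
  obtain ⟨Q1, hQ1⟩ : ∃ Q1, Q1 = Q.filter (fun q => ¬ q ≤ w) := ⟨_, rfl⟩
  have hQu : Q0 ∪ Q1 = Q := by rw [hQ0, hQ1, filter_union_filter_not_eq]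
  have hQd : Disjoint Q0 Q1 := by rw [hQ0, hQ1]; exact disjoint_filter_filter_not _ _ _
  have hQ0s : Q0 ⊆ Q := by rw [hQ0]; exact filter_subset _ _
  have hQ1s : Q1 ⊆ Q := by rw [hQ1]; exact filter_subset _ _
  have hQ0p : ∀ q ∈ Q0, q.Prime := fun q hq => hQ q (hQ0s hq)
  have hQ1p : ∀ q ∈ Q1, q.Prime := fun q hq => hQ q (hQ1s hq)
  have hQ0w : ∀ q ∈ Q0, q ≤ w := fun q hq => by rw [hQ0, mem_filter] at hq; exact hq.2
  have hQ1w : ∀ q ∈ Q1, w < q := fun q hq => by rw [hQ1, mem_filter] at hq; omega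
  have hS0 : ∑ q ∈ Q0, 1 / (q : ℝ) ≤ Real.log ℓ + C2 := by
    rw [hℓ]; exact hsum k a7 Q0 hQ0p ((card_le_card hQ0s).trans hQk)
  have hS0' : 0 ≤ ∑ q ∈ Q0, 1 / (q : ℝ) := sum_nonneg fun q _ => by positivity
  have hS1 : 1 + ∑ q ∈ Q1, 1 / (q : ℝ) ≤ Real.log ℓ + (C2 + 1) := by
    have := hsum k a7 Q1 hQ1p ((card_le_card hQ1s).trans hQk)
    rw [← hℓ] at this
    linarith
  have hv0 : c0 / ℓ ≤ V Q0 := by
    rw [hℓ]; exact hV k a7 Q0 hQ0p ((card_le_card hQ0s).trans hQk)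
  have hc0ℓ : 0 < c0 / ℓ := by positivity
  -- accuracy of the sieve by small primes
  have hacc : ∀ p : ℕ, 0 < p → (∀ q ∈ Q, Nat.Coprime p q) → p * L ≤ m → ∀ a c,
      |((surv Q0 a (AP m p c)).card : ℝ) - (m : ℝ) / p * V Q0| ≤ δ * ((m : ℝ) / p * V Q0) := by
    intro p hp hpq hpL a c
    have hp0 : (0 : ℝ) < p := by exact_mod_cast hp
    have hXm : X ≤ (m : ℝ) / p := by
      rw [le_div_iff₀ hp0]
      have e1 : ((p * L : ℕ) : ℝ) ≤ m := by exact_mod_cast hpL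
      push_cast at e1
      have e2 : X * p ≤ L * p := mul_le_mul_of_nonneg_right hXL hp0.le
      linarith
    exact pure_acc hQ0p hp (fun q hq => hpq q (hQ0s hq)) hQ0w hδ0 (a8 _ hS0' hS0) a9 hc0ℓ hv0
      hXm a c
  -- the exponent
  have hexp : ∀ p : ℕ, 0 < p → p * L ≤ m →
      Real.exp (-(δ ^ 2 * ((m : ℝ) / p * V Q) / ((m : ℝ) / p / w + (Real.log ℓ + (C2 + 1))))) ≤
        Real.exp (-(6 * K)) := by
    intro p hp hpL
    have hp0 : (0 : ℝ) < p := by exact_mod_cast hp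
    have hXm : X ≤ (m : ℝ) / p := by
      rw [le_div_iff₀ hp0]
      have e1 : ((p * L : ℕ) : ℝ) ≤ m := by exact_mod_cast hpL
      push_cast at e1
      have e2 : X * p ≤ L * p := mul_le_mul_of_nonneg_right hXL hp0.le
      linarith
    apply Real.exp_le_exp.2
    have := exponent (h := (m : ℝ) / p) hδ0 hw0' (a2'.trans hXm) hvge (by linarith) hc0
      (by linarith) hW hwW (by positivity) (by linarith)
    linarith
  -- the thresholds
  obtain ⟨v2, hv2⟩ : ∃ v2, v2 = V (Q.filter (fun q => L < q)) := ⟨_, rfl⟩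
  have hv2le : v2 ≤ C4 * Real.log L * V Q := by rw [hv2]; exact hVf L a6 Q hQ
  have hv20 : 0 < v2 := by
    rw [hv2]; exact V_pos fun q hq => hQ q (mem_filter.1 hq).1
  obtain ⟨vy, hvy⟩ : ∃ vy, vy = V (Q.filter (fun q => ¬ y < q)) := ⟨_, rfl⟩
  have hvy0 : 0 < vy := by
    rw [hvy]; exact V_pos fun q hq => hQ q (mem_filter.1 hq).1
  have hvyle : vy ≤ N4 / c7 * (V Q * ℓ / Real.log ℓ) := by
    have e1 := hVb k a7 y hy2 hyk Q hQ hQk
    rw [← hℓ] at e1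
    have e2 : V Q = V (Q.filter (fun q => y < q)) * vy := by
      rw [hvy]
      unfold V
      exact (prod_filter_mul_prod_filter_not Q (fun q => y < q) _).symm
    have e3 : Real.log ℓ / N4 ≤ Real.log y := by rw [hN4]; exact hly
    have e4 : c7 * (Real.log ℓ / N4) / ℓ ≤ V (Q.filter (fun q => y < q)) := by
      refine le_trans ?_ e1
      gcongr
    have e5 : c7 * (Real.log ℓ / N4) / ℓ * vy ≤ V Q := by
      rw [e2]; exact mul_le_mul_of_nonneg_right e4 hvy0.le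
    have e6 : vy = N4 / c7 * ((c7 * (Real.log ℓ / N4) / ℓ * vy) * ℓ / Real.log ℓ) := by
      field_simp
    rw [e6]
    gcongr
  obtain ⟨Nn, hNn⟩ : ∃ Nn, Nn = ∏ q ∈ Q, (q : ℝ) := ⟨_, rfl⟩
  have hNn0 : 0 ≤ Nn := by rw [hNn]; positivity
  have hl2 : 1 / 2 ≤ Real.log 2 := by
    have := Real.log_two_gt_d9
    linarith
  have hl2' : 0 < Real.log 2 := by linarith
  obtain ⟨y2, hy2d⟩ : ∃ y2 : ℝ, y2 = k * ℓ ^ (1 - c) / B := ⟨_, rfl⟩
  have hy2m : y2 ≤ m := by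
    rw [hy2d, div_le_iff₀ hB0]
    have e1 : (k : ℝ) * ℓ ^ (1 - c) ≤ k * K * ℓ ^ (1 - c) := by
      have : (k : ℝ) * 1 ≤ k * K := mul_le_mul_of_nonneg_left hK0 hk0.le
      refine mul_le_mul_of_nonneg_right (by linarith) (by positivity)
    have e2 : (m : ℝ) * 1 ≤ m * B := mul_le_mul_of_nonneg_left hB1 hM.le
    linarith
  obtain ⟨thr, hthr⟩ : ∃ thr : ℕ → ℝ, thr = thrF ((1 + 5 * δ) * ((m : ℝ) * V Q)) v2 K (CS * vy)
    ((y : ℝ) ^ N) y2 m L := ⟨_, rfl⟩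
  have hcop : ∀ p ∈ E, ∀ q ∈ Q, Nat.Coprime p q := by
    intro p hp q hq
    refine (Nat.coprime_primes (hE p hp) (hQ q hq)).2 ?_
    rintro rfl
    exact disjoint_left.1 hd hq hp
  have hL0 : 0 < L := by omega
  have hLk : (L : ℝ) ≤ k := by
    refine a5.trans (Real.sqrt_le_iff.2 ⟨by linarith, ?_⟩)
    have : (k : ℝ) * 1 ≤ k * k := mul_le_mul_of_nonneg_left (by linarith) hk0.le
    linarith [sq (k : ℝ)]
  have hLm : L ≤ m := by
    have : (L : ℝ) ≤ m := hLk.trans hkm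
    exact_mod_cast this
  have hT0 : 0 ≤ Nn * Real.exp (-(6 * K)) := by positivity
  have hub := union_bound_two Q E (fun p hp => (hE p hp).pos) m thr
    ((1 - 5 * δ) * ((m : ℝ) * V Q)) (Nn * Real.exp (-(6 * K))) hT0 ?_ ?_ ?_
  · -- conclusion
    refine hub.trans ?_
    have e1 : (1 : ℝ) + E.card * m ≤ Real.exp (5 * K) := by
      refine le_trans ?_ a3'
      have e2 : (E.card : ℝ) ≤ k := by exact_mod_cast hEk
      have e3 : (m : ℝ) ≤ 1 * k * K * ℓ + 1 := by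
        refine hm2.trans ?_
        have e4 : (k : ℝ) * K * ℓ ^ (1 - c) ≤ k * K * ℓ :=
          mul_le_mul_of_nonneg_left hpwℓ (by positivity)
        linarith
      have e6 : (E.card : ℝ) * m ≤ k * (1 * k * K * ℓ + 1) :=
        mul_le_mul e2 e3 hM.le hk0.le
      have e7 : 0 ≤ (k : ℝ) * (1 * k * K * ℓ + 1) := by positivity
      nlinarith
    calc Nn * Real.exp (-(6 * K)) * (1 + E.card * m)
        ≤ Nn * Real.exp (-(6 * K)) * Real.exp (5 * K) := mul_le_mul_of_nonneg_left e1 hT0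
      _ = (∏ q ∈ Q, (q : ℝ)) * Real.exp (-K) := by
        rw [mul_assoc, ← Real.exp_add, hNn]; congr 2; ring
  · -- lower tail
    have h1 := conc_lo Q0 Q1 hQ0p hQ1p hQd m 1 0 w one_pos (fun q _ => Nat.coprime_one_left q)
      hw0 hQ1w (Real.log ℓ + (C2 + 1)) δ hδ0 hδ4 hS1 (by
        intro a
        have := (abs_le.1 (hacc 1 one_pos (fun q _ => Nat.coprime_one_left q) (by omega) a 0)).1
        linarith)
    rw [hQu, AP_one, ← hNn, Nat.cast_one, div_one] at h1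
    have h2 := hexp 1 one_pos (by omega)
    rw [Nat.cast_one, div_one] at h2
    exact h1.trans (mul_le_mul_of_nonneg_left h2 hNn0)
  · -- upper tails
    intro p hp
    have hp0 := (hE p hp).pos
    by_cases hpL : p * L ≤ m
    · right
      refine ⟨le_trans (Nat.le_mul_of_pos_right p hL0) hpL, fun c => ?_⟩
      have ht : thr p = (1 + 5 * δ) * ((m : ℝ) / p * V Q) := by
        rw [hthr]; unfold thrF; rw [if_pos hpL]; ring
      rw [ht]
      have h1 := conc_up Q0 Q1 hQ0p hQ1p hQd m p c w hp0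
        (fun q hq => hcop p hp q (by rw [← hQu]; exact hq))
        hw0 hQ1w (Real.log ℓ + (C2 + 1)) δ hδ0 hδ4 hS1 (by
          intro a
          have := (abs_le.1 (hacc p hp0 (hcop p hp) hpL a c)).2
          linarith)
      rw [hQu, ← hNn] at h1
      exact h1.trans (mul_le_mul_of_nonneg_left (hexp p hp0 hpL) hNn0)
    · by_cases hpy : (p : ℝ) ≤ y2
      · right
        refine ⟨by exact_mod_cast hpy.trans hy2m, fun c => ?_⟩
        have ht : thr p = (v2 * ((m : ℝ) / p + 1) + 6 * K) / Real.log 2 := by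
          rw [hthr]; unfold thrF; rw [if_neg hpL, if_pos hpy]
        have h1 := small Q hQ m p c L hp0 (hcop p hp) (by omega) (thr p)
        rw [← hv2, ← hNn] at h1
        refine h1.trans (mul_le_mul_of_nonneg_left ?_ hNn0)
        apply Real.exp_le_exp.2
        rw [ht, div_mul_cancel₀ _ hl2'.ne']
        linarith
      · left
        intro a c
        have ht : thr p = CS * vy * ((m : ℝ) * (1 / (p : ℝ)) + (y : ℝ) ^ N) := by
          rw [hthr]; unfold thrF; rw [if_neg hpL, if_neg hpy]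
        rw [ht, hvy]
        exact det_big hsieve hQ hy2 hp0 (hcop p hp) a c
  · -- the sum of the thresholds
    obtain ⟨E2, hE2⟩ : ∃ E2, E2 = E.filter (fun p => ¬ p * L ≤ m) := ⟨_, rfl⟩
    obtain ⟨E3, hE3⟩ : ∃ E3, E3 = E.filter (fun p : ℕ => ¬ (p : ℝ) ≤ y2) := ⟨_, rfl⟩
    obtain ⟨E4, hE4⟩ : ∃ E4, E4 = E.filter (fun p : ℕ => (p : ℝ) ≤ y2) := ⟨_, rfl⟩
    have hE2s : E2 ⊆ E := by rw [hE2]; exact filter_subset _ _
    have hE3s : E3 ⊆ E := by rw [hE3]; exact filter_subset _ _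
    have hE4s : E4 ⊆ E := by rw [hE4]; exact filter_subset _ _
    have hS' := hmid k a7 (L : ℝ) (by exact_mod_cast (by omega : 1 ≤ L)) a5 E2
      (fun p hp => hE p (hE2s hp)) ((card_le_card hE2s).trans hEk) (by
        intro p hp
        rw [hE2, mem_filter] at hp
        have h1 : (m : ℝ) < p * L := by exact_mod_cast not_le.1 hp.2
        rw [div_lt_iff₀ (by exact_mod_cast hL0)]
        linarith)
    rw [← hℓ] at hS'
    have hBℓ : B * ℓ ^ c ≤ ℓ := by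
      have e1 : B * ℓ ^ c ≤ ℓ ^ (3 / 4 : ℝ) * ℓ ^ c :=
        mul_le_mul_of_nonneg_right a11 (Real.rpow_nonneg hℓ0.le _)
      rw [← Real.rpow_add hℓ0] at e1
      have e2 := Real.rpow_le_rpow_of_exponent_le hℓ1 (show 3 / 4 + c ≤ 1 by linarith)
      rw [Real.rpow_one] at e2
      exact e1.trans e2
    have hlogZ : Real.log (B * ℓ ^ c) = Real.log B + c * Real.log ℓ := by
      rw [Real.log_mul hB0.ne' (Real.rpow_pos_of_pos hℓ0 _).ne', Real.log_rpow hℓ0]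
    have hS3 := hmid2 k a7 (B * ℓ ^ c) (one_le_mul_of_one_le_of_one_le hB1
      (Real.one_le_rpow hℓ1 hcpos.le)) (by rw [← hℓ]; exact hBℓ) E3
      (fun p hp => hE p (hE3s hp)) ((card_le_card hE3s).trans hEk) (by
        intro p hp
        rw [hE3, mem_filter] at hp
        have h1 := not_le.1 hp.2
        rw [hy2d] at h1
        rw [← hℓ]
        refine lt_of_le_of_lt (le_of_eq ?_) h1
        rw [Real.rpow_sub hℓ0, Real.rpow_one]
        field_simp)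
    rw [← hℓ, hlogZ] at hS3
    have hn2 := hcheb k a7 y2 (by
        rw [hy2d, le_div_iff₀ hB0]
        have e1 : Real.sqrt k * B ≤ Real.sqrt k * Real.sqrt k :=
          mul_le_mul_of_nonneg_left a12 (Real.sqrt_nonneg _)
        rw [Real.mul_self_sqrt hk0.le] at e1
        have e2 : (k : ℝ) * 1 ≤ k * ℓ ^ (1 - c) := mul_le_mul_of_nonneg_left hpw1 hk0.le
        linarith) E4 (fun p hp => hE p (hE4s hp)) (by
        intro p hp
        rw [hE4, mem_filter] at hp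
        exact hp.2)
    rw [← hℓ] at hn2
    have h1 := thrF_sum (A1 := (1 + 5 * δ) * ((m : ℝ) * V Q)) (v2 := v2) (K := K) (D := CS * vy)
      (y0 := (y : ℝ) ^ N) (y2 := y2) (m := m) (L := L) (k := k) (by positivity) hv20.le
      (by linarith) (by positivity) (by positivity) E hEk
    rw [← hthr, ← hE2, ← hE3, ← hE4] at h1
    refine lt_of_le_of_lt h1 ?_
    rw [hy2d] at hn2
    refine final_two (C4 := C4) (C6 := C6) (C9 := C9) (Cπ := Cπ) (c0 := c0) (c7 := c7)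
      (lL := Real.log L) (lℓ := Real.log ℓ) (ℓ := ℓ) (B := B) (c := c) (N4 := N4)
      hε hδ hC4 hC9 hCπ hCS hc0 hc7 hℓ1 hK1 hk0 hM hv
      (Real.log_nonneg (by exact_mod_cast (by omega : 1 ≤ L))) hlℓ hv2le hSE
      (sum_nonneg fun p _ => by positivity) hS' hcpos hc4 hm1 hvge a4 hB0 hBge hn2 hN40 hvyle
      (sum_nonneg fun p _ => by positivity) hS3 hk0.le le_rfl (by positivity) hyN
      (by rw [← hA]; exact hcs) ?_ ?_
    · rw [← hA, ← mul_div_assoc, div_le_iff₀ hlℓ]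
      rw [div_le_iff₀ hε] at a9'
      linarith
    · rw [← hA']
      have e1 : ℓ ^ (-(1 / 4) : ℝ) = (ℓ ^ (1 / 4 : ℝ))⁻¹ := Real.rpow_neg hℓ0.le _
      have e2 : ℓ ^ (-(1 / 4) : ℝ) / Real.log ℓ ≤ ℓ ^ (-(1 / 4) : ℝ) :=
        div_le_self (Real.rpow_nonneg hℓ0.le _) a8'
      refine (mul_le_mul_of_nonneg_left e2 hA'0.le).trans ?_
      rw [e1]
      have e3 : 0 < ℓ ^ (1 / 4 : ℝ) := Real.rpow_pos_of_pos hℓ0 _
      rw [← div_eq_mul_inv, div_le_iff₀ e3]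
      rw [div_le_iff₀ hε] at a10
      linarith

end Pool.Agent.H1.Jac
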