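import Pool.Agent.H1.Jac.Defs

/-!
# Sums over residues modulo a product

Part of `MP_4e17b9_nt`. `a ↦ (a % q, a % N)` is a bijection from `range (q * N)` to
`range q ×ˢ range N` (`Nat.chineseRemainder`; compare `BrunC_card_crt` in `H48/SF/BrunC.lean`).
`card_crt_le`: the number of the `a < q * N` with `P (a % N)` is `q` times the number of the
`b < N` with `P b`; here `q`, `N` need not be coprime.
-/

set_option autoImplicit false

namespace Pool.Agent.H1.Jac

open Finset

theorem sum_crt (q N : ℕ) (hq : 0 < q) (hN : 0 < N) (hc : Nat.Coprime q N) (F : ℕ → ℕ → ℝ) :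
    ∑ a ∈ range (q * N), F (a % q) (a % N) = ∑ r ∈ range q, ∑ b ∈ range N, F r b := by
  rw [← Finset.sum_product' (range q) (range N) F]
  refine Finset.sum_nbij (fun a => (a % q, a % N)) ?_ ?_ ?_ (fun a _ => rfl)
  · intro a _
    exact Finset.mem_product.2 ⟨Finset.mem_range.2 (Nat.mod_lt _ hq),
      Finset.mem_range.2 (Nat.mod_lt _ hN)⟩
  · intro a ha b hb hab
    have h1 : a ≡ b [MOD q] := congrArg Prod.fst hab
    have h2 : a ≡ b [MOD N] := congrArg Prod.snd hab
    have h3 : a ≡ b [MOD q * N] := (Nat.modEq_and_modEq_iff_modEq_mul hc).1 ⟨h1, h2⟩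
    exact h3.eq_of_lt_of_lt (Finset.mem_range.1 (Finset.mem_coe.1 ha))
      (Finset.mem_range.1 (Finset.mem_coe.1 hb))
  · rintro ⟨r, b⟩ hrb
    have hrb' := Finset.mem_product.1 (Finset.mem_coe.1 hrb)
    have hr : r < q := Finset.mem_range.1 hrb'.1
    have hb : b < N := Finset.mem_range.1 hrb'.2
    refine ⟨(Nat.chineseRemainder hc r b : ℕ), ?_, ?_⟩
    · exact Finset.mem_coe.2 (Finset.mem_range.2
        (Nat.chineseRemainder_lt_mul hc r b hq.ne' hN.ne'))
    · have h1 := (Nat.chineseRemainder hc r b).2.1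
      have h2 := (Nat.chineseRemainder hc r b).2.2
      refine Prod.ext ?_ ?_
      · exact Eq.trans h1 (Nat.mod_eq_of_lt hr)
      · exact Eq.trans h2 (Nat.mod_eq_of_lt hb)

theorem sum_mod (q N : ℕ) (hN : 0 < N) (F : ℕ → ℝ) :
    ∑ a ∈ range (q * N), F (a % N) = q * ∑ b ∈ range N, F b := by
  induction q with
  | zero => simp
  | succ q ih =>
    rw [Nat.succ_mul, Finset.sum_range_add, ih, Nat.cast_succ, add_mul, one_mul]
    congr 1
    refine Finset.sum_congr rfl fun b hb => ?_
    rw [mul_comm q N, Nat.mul_add_mod, Nat.mod_eq_of_lt (Finset.mem_range.1 hb)]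

end Pool.Agent.H1.Jac
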