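import Mathlib

/-!
# Intervals without integers coprime to `n`: definitions of the proof

Part of `MP_4e17b9_nt`.
-/

set_option autoImplicit false

namespace Pool.Agent.H1.Jac

open Finset

/-- the elements `i` of `R` such that no prime of `Q` divides `a + i` -/
def surv (Q : Finset ℕ) (a : ℕ) (R : Finset ℕ) : Finset ℕ :=
  R.filter (fun i => ∀ q ∈ Q, ¬ q ∣ a + i)

/-- the numbers `i < m` such that `p` divides `c + i` -/
def AP (m p c : ℕ) : Finset ℕ := (range m).filter (fun i => p ∣ c + i)

/-- the product of the `1 - 1/q` -/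
noncomputable def V (Q : Finset ℕ) : ℝ := ∏ q ∈ Q, (1 - 1 / (q : ℝ))

end Pool.Agent.H1.Jac
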