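import Pool.Agent.H1.Jac.Defs

/-!
# The survivors are covered by the remaining primes

Part of `MP_4e17b9_nt`. If `i ∈ surv Q a (range m)`, then no `q ∈ Q` divides `a + i`, hence none divides
`x + i` (`hxa`), so by `hcov` some `p ∈ E` divides `x + i`, i.e. `p ∣ c p + i` with
`c p = (x % p).toNat`, that is `i ∈ AP m p (c p)`. So
`surv Q a (range m) ⊆ E.biUnion (fun p => surv Q a (AP m p (c p)))`; `Finset.card_biUnion_le`.
-/

set_option autoImplicit false

namespace Pool.Agent.H1.Jac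

open Finset

theorem det (Q E : Finset ℕ) (hE : ∀ p ∈ E, 0 < p) (x : ℤ) (m a : ℕ)
    (hxa : ∀ q ∈ Q, (q : ℤ) ∣ x - a)
    (hcov : ∀ i < m, (∃ q ∈ Q, (q : ℤ) ∣ x + i) ∨ ∃ p ∈ E, (p : ℤ) ∣ x + i) :
    (surv Q a (range m)).card ≤ ∑ p ∈ E, (surv Q a (AP m p (x % p).toNat)).card := by
  refine le_trans (Finset.card_le_card ?_) Finset.card_biUnion_le
  intro i hi
  simp only [surv, AP, mem_filter, mem_range, mem_biUnion] at hi ⊢
  obtain ⟨him, hq⟩ := hi
  rcases hcov i him with ⟨q, hqQ, hdvd⟩ | ⟨p, hpE, hdvd⟩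
  · exfalso
    apply hq q hqQ
    have h1 : (q : ℤ) ∣ ((a + i : ℕ) : ℤ) := by
      have h2 : ((a + i : ℕ) : ℤ) = (x + i) - (x - a) := by
        push_cast
        ring
      rw [h2]
      exact dvd_sub hdvd (hxa q hqQ)
    exact_mod_cast h1
  · refine ⟨p, hpE, ⟨him, ?_⟩, hq⟩
    have hp0 : (p : ℤ) ≠ 0 := by
      have := hE p hpE
      exact_mod_cast this.ne'
    have h1 : (((x % p).toNat : ℕ) : ℤ) = x % p := Int.toNat_of_nonneg (Int.emod_nonneg x hp0)
    have h2 : (p : ℤ) ∣ (((x % p).toNat + i : ℕ) : ℤ) := by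
      have h3 : (((x % p).toNat + i : ℕ) : ℤ) = (x + i) - p * (x / p) := by
        push_cast
        rw [h1, Int.emod_def]
        ring
      rw [h3]
      exact dvd_sub hdvd (dvd_mul_right _ _)
    exact_mod_cast h2

end Pool.Agent.H1.Jac
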