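import Pool.Agent.H1.Jac.Defs
import Pool.Agent.H34.NA.Primes

/-!
# Primes larger than a power of `k`

Part of `MP_4e17b9_nt`. `Pool.Agent.H34.NA.mertens_window`: `∑_{y < p ≤ x} log p/p ≤ log x - log y + C`.

`large_sum` (`0 < θ < 1`): the primes `p ∈ E` with `p > k log k` contribute at most
`k / (k log k) = 1/log k`. The other ones are in `(k^θ, k log k]`. Choose `N` with
`(1/θ) ^ (1/N) ≤ 1 + η`, `N (…)`; that is, with `y_i = k^(θ ρ^i)`, `ρ = θ^(-1/N)`, `i ≤ N`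
(`y_N = k`): `∑_{y_i < p ≤ y_{i+1}} 1/p ≤ (1/log y_i) (log y_{i+1} - log y_i + C) = (ρ - 1) + C/(θ log k)`
(take floors), so in total `N (ρ - 1) + N C/(θ log k)`, and `N (ρ - 1) → log (1/θ)` for `N → ∞`
(`ρ = exp (log (1/θ)/N)`); choose `N` with `N (ρ - 1) ≤ log (1/θ) + ε/2` first. Finally
`∑_{k < p ≤ k log k} 1/p ≤ (log log k + C)/log k`.

`mid_sum`: the primes `p ∈ E` with `p > k log k` contribute at most `1/log k`; for the other ones
`∑ 1/p ≤ (1/log (k/Y)) ∑ log p/p ≤ (2/log k) (log (k log k) - log (k/Y) + C)`, `k/Y ≥ √k`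
(take the floor of `k/Y`).
-/

set_option autoImplicit false

namespace Pool.Agent.H1.Jac

open Finset

private lemma tele (Y : ℕ → ℕ) (hY : Monotone Y) (f : ℕ → ℝ) (B : ℝ) (N : ℕ)
    (h : ∀ i < N, ∑ p ∈ (Ioc (Y i) (Y (i + 1))).filter Nat.Prime, f p ≤ B) :
    ∑ p ∈ (Ioc (Y 0) (Y N)).filter Nat.Prime, f p ≤ N * B := by
  induction N with
  | zero => simp
  | succ N ih =>
    have h1 := ih fun i hi => h i (by omega)
    have h2 := h N (by omega)
    have h3 : (Ioc (Y 0) (Y (N + 1))).filter Nat.Prime =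
        (Ioc (Y 0) (Y N)).filter Nat.Prime ∪ (Ioc (Y N) (Y (N + 1))).filter Nat.Prime := by
      rw [← filter_union, Ioc_union_Ioc_eq_Ioc (hY (Nat.zero_le N)) (hY (Nat.le_succ N))]
    have h4 : Disjoint ((Ioc (Y 0) (Y N)).filter Nat.Prime)
        ((Ioc (Y N) (Y (N + 1))).filter Nat.Prime) := by
      refine disjoint_filter_filter ?_
      rw [disjoint_left]
      intro p hp1 hp2
      rw [mem_Ioc] at hp1 hp2
      omega
    rw [h3, sum_union h4]
    push_cast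
    linarith

private lemma window {C : ℝ} (hC : ∀ y x : ℕ, 1 ≤ y → y ≤ x →
    |∑ p ∈ (Ioc y x).filter Nat.Prime, Real.log p / p - (Real.log x - Real.log y)| ≤ C)
    {Y X : ℕ} (hY : 2 ≤ Y) (hYX : Y ≤ X) :
    ∑ p ∈ (Ioc Y X).filter Nat.Prime, 1 / (p : ℝ) ≤
      (Real.log X - Real.log Y + C) / Real.log Y := by
  have hlY : 0 < Real.log Y := Real.log_pos (by exact_mod_cast (by omega : 1 < Y))
  have h1 := (abs_le.1 (hC Y X (by omega) hYX)).2
  rw [le_div_iff₀ hlY, sum_mul]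
  refine le_trans (sum_le_sum fun p hp => ?_) (by linarith :
    ∑ p ∈ (Ioc Y X).filter Nat.Prime, Real.log p / p ≤ Real.log X - Real.log Y + C)
  rw [mem_filter, mem_Ioc] at hp
  have hp0 : (0 : ℝ) < p := by exact_mod_cast hp.2.pos
  have h2 : Real.log Y ≤ Real.log p :=
    Real.log_le_log (by exact_mod_cast (by omega : 0 < Y)) (by exact_mod_cast hp.1.1.le)
  rw [one_div_mul_eq_div]
  exact div_le_div_of_nonneg_right h2 hp0.le

theorem large_sum (θ ε : ℝ) (h0 : 0 < θ) (h1 : θ < 1) (hε : 0 < ε) : ∃ k₀ : ℕ, ∀ k ≥ k₀,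
    ∀ E : Finset ℕ, (∀ p ∈ E, p.Prime) → E.card ≤ k → (∀ p ∈ E, (k : ℝ) ^ θ < p) →
    ∑ p ∈ E, 1 / (p : ℝ) ≤ Real.log (1 / θ) + ε := by
  obtain ⟨C, hC0, hC⟩ := Pool.Agent.H34.NA.mertens_window
  set a : ℝ := Real.log (1 / θ) with ha
  have ha0 : 0 < a := Real.log_pos (by rw [lt_div_iff₀ h0]; linarith)
  obtain ⟨N, hN⟩ := exists_nat_ge (a + 4 * a ^ 2 / ε + 1)
  have hq : 0 ≤ 4 * a ^ 2 / ε := by positivity
  have hN0 : (0 : ℝ) < N := by linarith
  have hNa : a / N ≤ 1 := by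
    rw [div_le_one hN0]
    linarith
  set ρ : ℝ := Real.exp (a / N) with hρ
  have hρ1 : 1 ≤ ρ := Real.one_le_exp (by positivity)
  have hρ0 : 0 < ρ := Real.exp_pos _
  have hρN : θ * ρ ^ N = 1 := by
    rw [hρ, ← Real.exp_nat_mul, mul_div_cancel₀ _ hN0.ne', ha, Real.exp_log (by positivity)]
    field_simp
  have hNρ : N * (ρ - 1) ≤ a + ε / 4 := by
    have h2 := (abs_le.1 (Real.abs_exp_sub_one_sub_id_le (x := a / N) (by
      rw [abs_of_nonneg (by positivity)]; exact hNa))).2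
    rw [← hρ] at h2
    have h3 : N * (ρ - 1) ≤ N * (a / N + (a / N) ^ 2) :=
      mul_le_mul_of_nonneg_left (by linarith) hN0.le
    have h4 : N * (a / N + (a / N) ^ 2) = a + a ^ 2 / N := by field_simp
    have h5 : a ^ 2 / N ≤ ε / 4 := by
      rw [div_le_iff₀ hN0]
      have h6 : 4 * a ^ 2 / ε ≤ N := by linarith
      rw [div_le_iff₀ hε] at h6
      linarith
    linarith
  set δ : ℝ := ε / (4 * N) with hδ
  have hδ0 : 0 < δ := by positivity
  -- conditions on `log k`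
  have hev1 : ∀ᶠ L : ℝ in Filter.atTop, (1 + C + (ρ - 1 + δ)) / (δ * θ) + 2 / θ + 1 +
      (16 * C / ε + 8 / ε + 1) ≤ L := Filter.eventually_ge_atTop _
  have hev2 : ∀ᶠ L : ℝ in Filter.atTop, Real.log (L + 1) ≤ ε / 16 * (L + 1) := by
    have h2 := Real.isLittleO_log_id_atTop.def (show (0 : ℝ) < ε / 16 by positivity)
    have h3 : ∀ᶠ x : ℝ in Filter.atTop, Real.log x ≤ ε / 16 * x := by
      filter_upwards [h2, Filter.eventually_ge_atTop 1] with x hx hx1
      rw [Real.norm_eq_abs, Real.norm_eq_abs, id, abs_of_nonneg (Real.log_nonneg hx1),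
        abs_of_nonneg (by linarith)] at hx
      exact hx
    exact (Filter.tendsto_atTop_add_const_right _ 1 Filter.tendsto_id).eventually h3
  have hlog : Filter.Tendsto (fun k : ℕ => Real.log (k : ℝ)) Filter.atTop Filter.atTop :=
    Real.tendsto_log_atTop.comp tendsto_natCast_atTop_atTop
  obtain ⟨k₀, hk₀⟩ := Filter.eventually_atTop.1 (hlog.eventually (hev1.and hev2))
  refine ⟨max k₀ 3, fun k hk E hE hcard hlow => ?_⟩
  obtain ⟨hL1, hL2⟩ := hk₀ k (le_trans (le_max_left _ _) hk)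
  have hk3 : 3 ≤ k := le_trans (le_max_right _ _) hk
  have hk0 : (0 : ℝ) < k := by exact_mod_cast (by omega : 0 < k)
  have hk1 : (1 : ℝ) ≤ k := by exact_mod_cast (by omega : 1 ≤ k)
  set L : ℝ := Real.log k with hL
  have hp1 : 0 ≤ (1 + C + (ρ - 1 + δ)) / (δ * θ) := by
    have : 0 ≤ ρ - 1 := by linarith
    positivity
  have hp2 : 0 ≤ 2 / θ := by positivity
  have hp3 : 0 ≤ 16 * C / ε := by positivity
  have hp4 : 0 ≤ 8 / ε := by positivity
  have hLpos : 1 ≤ L := by linarith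
  have hLa : (1 + C + (ρ - 1 + δ)) ≤ L * (δ * θ) := by
    rw [← div_le_iff₀ (by positivity)]
    linarith
  have hLb : 2 ≤ L * θ := by
    rw [← div_le_iff₀ h0]
    linarith
  have hLc : 16 * C ≤ (L - 1) * ε := by
    rw [← div_le_iff₀ hε]
    linarith
  have hLd : 8 ≤ L * ε := by
    rw [← div_le_iff₀ hε]
    linarith
  -- the windows
  set Y : ℕ → ℕ := fun i => ⌊(k : ℝ) ^ (θ * ρ ^ i)⌋₊ with hYdef
  have hYmono : Monotone Y := by
    refine monotone_nat_of_le_succ fun i => Nat.floor_mono ?_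
    refine Real.rpow_le_rpow_of_exponent_le hk1 ?_
    refine mul_le_mul_of_nonneg_left ?_ h0.le
    exact pow_le_pow_right₀ hρ1 (Nat.le_succ i)
  have hYN : Y N = k := by
    show ⌊(k : ℝ) ^ (θ * ρ ^ N)⌋₊ = k
    rw [hρN, Real.rpow_one, Nat.floor_natCast]
  have hylog : ∀ i, Real.log ((k : ℝ) ^ (θ * ρ ^ i)) = θ * ρ ^ i * L := fun i =>
    Real.log_rpow hk0 _
  have hAi : ∀ i : ℕ, θ ≤ θ * ρ ^ i := fun i => by
    have := one_le_pow₀ hρ1 (n := i)
    nlinarith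
  have hy2 : ∀ i, 2 ≤ (k : ℝ) ^ (θ * ρ ^ i) := by
    intro i
    have h3 : Real.log 2 ≤ Real.log ((k : ℝ) ^ (θ * ρ ^ i)) := by
      rw [hylog]
      have h4 := Real.log_two_lt_d9
      have h5 : θ * L ≤ θ * ρ ^ i * L := mul_le_mul_of_nonneg_right (hAi i) (by linarith)
      linarith
    exact (Real.log_le_log_iff (by norm_num) (Real.rpow_pos_of_pos hk0 _)).1 h3
  have hY2 : ∀ i, 2 ≤ Y i := fun i => Nat.le_floor (by exact_mod_cast hy2 i)
  have hYlow : ∀ i, θ * ρ ^ i * L - 1 ≤ Real.log (Y i) := by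
    intro i
    have h3 : (k : ℝ) ^ (θ * ρ ^ i) < Y i + 1 := Nat.lt_floor_add_one _
    have h4 : (2 : ℝ) ≤ Y i := by exact_mod_cast hY2 i
    have h5 : (k : ℝ) ^ (θ * ρ ^ i) ≤ Y i * Real.exp 1 := by
      have := Real.exp_one_gt_d9
      nlinarith
    have h6 := Real.log_le_log (Real.rpow_pos_of_pos hk0 _) h5
    rw [hylog, Real.log_mul (by linarith) (Real.exp_pos _).ne', Real.log_exp] at h6
    linarith
  have hYup : ∀ i, Real.log (Y i) ≤ θ * ρ ^ i * L := by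
    intro i
    rw [← hylog]
    refine Real.log_le_log (by exact_mod_cast (by have := hY2 i; omega : 0 < Y i)) ?_
    exact Nat.floor_le (Real.rpow_nonneg hk0.le _)
  have hwin : ∀ i < N, ∑ p ∈ (Ioc (Y i) (Y (i + 1))).filter Nat.Prime, 1 / (p : ℝ) ≤
      ρ - 1 + δ := by
    intro i _
    refine (window hC (hY2 i) (hYmono (Nat.le_succ i))).trans ?_
    have h3 := hYlow i
    have h4 := hYup (i + 1)
    have h5 : θ * L ≤ θ * ρ ^ i * L := mul_le_mul_of_nonneg_right (hAi i) (by linarith)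
    have h6 : 0 < Real.log (Y i) := by linarith
    rw [div_le_iff₀ h6]
    have h7 : (ρ - 1 + δ) * (θ * ρ ^ i * L - 1) ≤ (ρ - 1 + δ) * Real.log (Y i) :=
      mul_le_mul_of_nonneg_left h3 (by linarith)
    have h8 : δ * (θ * L) ≤ δ * (θ * ρ ^ i * L) := mul_le_mul_of_nonneg_left h5 hδ0.le
    have h9 : θ * ρ ^ (i + 1) * L = (θ * ρ ^ i * L) * ρ := by ring
    rw [h9] at h4
    nlinarith
  have hS1 : ∑ p ∈ E.filter (fun p => p ≤ k), 1 / (p : ℝ) ≤ a + ε / 2 := by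
    have h3 : ∑ p ∈ E.filter (fun p => p ≤ k), 1 / (p : ℝ) ≤
        ∑ p ∈ (Ioc (Y 0) (Y N)).filter Nat.Prime, 1 / (p : ℝ) := by
      refine sum_le_sum_of_subset_of_nonneg ?_ fun _ _ _ => by positivity
      intro p hp
      rw [mem_filter] at hp
      rw [mem_filter, mem_Ioc, hYN]
      refine ⟨⟨?_, hp.2⟩, hE p hp.1⟩
      have h4 := hlow p hp.1
      have h5 : (Y 0 : ℝ) ≤ (k : ℝ) ^ θ := by
        have : (Y 0 : ℝ) ≤ (k : ℝ) ^ (θ * ρ ^ 0) := Nat.floor_le (Real.rpow_nonneg hk0.le _)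
        simpa using this
      exact_mod_cast lt_of_le_of_lt h5 h4
    have h4 := tele Y hYmono (fun p => 1 / (p : ℝ)) (ρ - 1 + δ) N hwin
    have h5 : (N : ℝ) * (ρ - 1 + δ) = N * (ρ - 1) + ε / 4 := by
      rw [hδ]
      field_simp
    linarith
  -- the large primes
  set X : ℕ := k * ⌈L⌉₊ with hX
  have hcL : (1 : ℝ) ≤ (⌈L⌉₊ : ℝ) := hLpos.trans (Nat.le_ceil L)
  have hcN : 1 ≤ ⌈L⌉₊ := by exact_mod_cast hcL
  have hkX : k ≤ X := by
    rw [hX]
    exact Nat.le_mul_of_pos_right k (by omega)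
  have hcU : (⌈L⌉₊ : ℝ) < L + 1 := Nat.ceil_lt_add_one (by linarith)
  have hS2 : ∑ p ∈ (Ioc k X).filter Nat.Prime, 1 / (p : ℝ) ≤ ε / 8 := by
    refine (window hC (by omega) hkX).trans ?_
    have h3 : Real.log (X : ℝ) = L + Real.log (⌈L⌉₊ : ℝ) := by
      rw [hX]
      push_cast
      rw [Real.log_mul hk0.ne' (by linarith)]
    have h4 : Real.log (⌈L⌉₊ : ℝ) ≤ Real.log (L + 1) := Real.log_le_log (by linarith) hcU.le
    rw [div_le_iff₀ (by linarith : 0 < Real.log (k : ℝ)), h3]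
    linarith
  have hS3 : ∑ p ∈ (E.filter (fun p => ¬ p ≤ k)).filter (fun p => ¬ p ≤ X), 1 / (p : ℝ) ≤
      ε / 8 := by
    have hX0 : (0 : ℝ) < X := by exact_mod_cast (by omega : 0 < X)
    calc ∑ p ∈ (E.filter (fun p => ¬ p ≤ k)).filter (fun p => ¬ p ≤ X), 1 / (p : ℝ)
        ≤ ∑ _p ∈ (E.filter (fun p => ¬ p ≤ k)).filter (fun p => ¬ p ≤ X), 1 / (X : ℝ) := by
          refine sum_le_sum fun p hp => ?_
          rw [mem_filter] at hp
          have : (X : ℝ) ≤ p := by exact_mod_cast (by omega : X ≤ p)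
          exact one_div_le_one_div_of_le hX0 this
      _ = (((E.filter (fun p => ¬ p ≤ k)).filter (fun p => ¬ p ≤ X)).card : ℝ) *
            (1 / (X : ℝ)) := by rw [sum_const, nsmul_eq_mul]
      _ ≤ (k : ℝ) * (1 / (X : ℝ)) := by
          refine mul_le_mul_of_nonneg_right ?_ (by positivity)
          exact_mod_cast ((card_filter_le _ _).trans (card_filter_le _ _)).trans hcard
      _ ≤ ε / 8 := by
          rw [mul_one_div, div_le_iff₀ hX0, hX]
          push_cast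
          have h3 : L ≤ (⌈L⌉₊ : ℝ) := Nat.le_ceil L
          have h4 : 8 ≤ (⌈L⌉₊ : ℝ) * ε := hLd.trans (mul_le_mul_of_nonneg_right h3 hε.le)
          nlinarith
  have hS4 : ∑ p ∈ (E.filter (fun p => ¬ p ≤ k)).filter (fun p => p ≤ X), 1 / (p : ℝ) ≤
      ∑ p ∈ (Ioc k X).filter Nat.Prime, 1 / (p : ℝ) := by
    refine sum_le_sum_of_subset_of_nonneg ?_ fun _ _ _ => by positivity
    intro p hp
    rw [mem_filter, mem_filter] at hp
    rw [mem_filter, mem_Ioc]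
    exact ⟨⟨by omega, hp.2⟩, hE p hp.1.1⟩
  rw [← sum_filter_add_sum_filter_not E (fun p => p ≤ k),
    ← sum_filter_add_sum_filter_not (E.filter (fun p => ¬ p ≤ k)) (fun p => p ≤ X)]
  linarith

end Pool.Agent.H1.Jac
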