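import Pool.Agent.H1.Jac.Core
import Pool.Agent.H1.Jac.MertB

/-!
# From the two sets of primes to intervals without integers coprime to `n`
-/

set_option autoImplicit false

namespace Pool.Agent.H1.Jac

open Finset Filter

/-- None of the `m` consecutive integers `x, x + 1, …, x + m - 1` is coprime to `n`. -/
def Blocked (n : ℕ) (x : ℤ) (m : ℕ) : Prop :=
  ∀ i : ℕ, i < m → ¬ IsCoprime (x + (i : ℤ)) (n : ℤ)

/-- The residues `a` modulo `N` such that some integer `x ≡ a (mod N)` is the beginning of `m`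
consecutive integers none of which is coprime to `n`. -/
noncomputable def blockedResidues (N n m : ℕ) : Finset ℕ := by
  classical exact (range N).filter (fun a => ∃ x : ℤ, x ≡ a [ZMOD N] ∧ Blocked n x m)

lemma mem_blockedResidues {N n m a : ℕ} : a ∈ blockedResidues N n m ↔
    a < N ∧ ∃ x : ℤ, x ≡ a [ZMOD N] ∧ Blocked n x m := by
  classical
  unfold blockedResidues
  rw [mem_filter, mem_range]

lemma prod_inv_eq (Q : Finset ℕ) : ∏ p ∈ Q, (1 - 1 / (p : ℝ))⁻¹ = (V Q)⁻¹ := by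
  unfold V
  rw [prod_inv_distrib]

lemma blocked_le {n m m0 : ℕ} {R S : Finset ℕ} (hn : n ≠ 0)
    (hR : R ⊆ n.primeFactors) (hS : S ⊆ n.primeFactors) (hm : m0 ≤ m) :
    (blockedResidues (∏ p ∈ R, p) n m).card ≤
      (Bd (R ∪ S) (n.primeFactors \ (R ∪ S)) m0).card := by
  classical
  have hRS : R ∪ S ⊆ n.primeFactors := union_subset hR hS
  have hpr : ∀ p ∈ R ∪ S, p.Prime := fun p hp => Nat.prime_of_mem_primeFactors (hRS hp)
  have hdvd : (∏ p ∈ R, p) ∣ ∏ p ∈ R ∪ S, p := prod_dvd_prod_of_subset _ _ _ subset_union_left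
  have hN0 : 0 < ∏ p ∈ R, p := prod_pos fun p hp => (hpr p (mem_union_left _ hp)).pos
  have hQ0 : 0 < ∏ p ∈ R ∪ S, p := prod_pos fun p hp => (hpr p hp).pos
  have hsub : blockedResidues (∏ p ∈ R, p) n m ⊆
      (Bd (R ∪ S) (n.primeFactors \ (R ∪ S)) m0).image (fun b => b % ∏ p ∈ R, p) := by
    intro a ha
    rw [mem_blockedResidues] at ha
    obtain ⟨haN, x, hxa, hbl⟩ := ha
    rw [mem_image]
    have hQ0' : (0 : ℤ) < ((∏ p ∈ R ∪ S, p : ℕ) : ℤ) := by exact_mod_cast hQ0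
    have h1 := Int.emod_nonneg x hQ0'.ne'
    have h2 := Int.emod_lt_of_pos x hQ0'
    refine ⟨(x % ((∏ p ∈ R ∪ S, p : ℕ) : ℤ)).toNat, ?_, ?_⟩
    · rw [mem_Bd]
      refine ⟨by omega, x, ?_, ?_⟩
      · intro q hq
        rw [Int.toNat_of_nonneg h1]
        have h3 : ((∏ p ∈ R ∪ S, p : ℕ) : ℤ) ∣ x - x % ((∏ p ∈ R ∪ S, p : ℕ) : ℤ) :=
          Int.dvd_self_sub_emod
        refine dvd_trans ?_ h3
        exact_mod_cast dvd_prod_of_mem (fun p : ℕ => p) hq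
      · intro i hi
        have h3 := hbl i (by omega)
        rw [Int.isCoprime_iff_gcd_eq_one] at h3
        obtain ⟨p, hp, hpd⟩ := Nat.exists_prime_and_dvd h3
        have h4 : (p : ℤ) ∣ x + i := dvd_trans (by exact_mod_cast hpd) (Int.gcd_dvd_left (a := x + i) (b := (n : ℤ)))
        have h5 : p ∣ n := by
          have : (p : ℤ) ∣ (n : ℤ) := dvd_trans (by exact_mod_cast hpd)
            (Int.gcd_dvd_right (a := x + i) (b := (n : ℤ)))
          exact_mod_cast this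
        have h6 : p ∈ n.primeFactors := Nat.mem_primeFactors.2 ⟨hp, h5, hn⟩
        by_cases h7 : p ∈ R ∪ S
        · exact Or.inl ⟨p, h7, h4⟩
        · exact Or.inr ⟨p, mem_sdiff.2 ⟨h6, h7⟩, h4⟩
    · have h3 : (((x % ((∏ p ∈ R ∪ S, p : ℕ) : ℤ)).toNat % ∏ p ∈ R, p : ℕ) : ℤ) = a := by
        rw [Int.natCast_mod, Int.toNat_of_nonneg h1,
          Int.emod_emod_of_dvd x (by exact_mod_cast hdvd)]
        have h4 : x % ((∏ p ∈ R, p : ℕ) : ℤ) = (a : ℤ) % ((∏ p ∈ R, p : ℕ) : ℤ) := hxa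
        rw [h4, Int.emod_eq_of_lt (by positivity) (by exact_mod_cast haN)]
      exact_mod_cast h3
  exact (card_le_card hsub).trans card_image_le

theorem semi_random (ε : ℝ) (hε : 0 < ε) : ∃ C : ℝ, 0 < C ∧ ∃ k₀ : ℕ, ∀ k ≥ k₀,
    ∀ K : ℝ, Real.log k ≤ K → K ≤ Real.exp (Real.log k ^ (1 / 4 : ℝ)) →
    ∀ n : ℕ, n ≠ 0 → n.primeFactors.card ≤ k → ∀ R S : Finset ℕ, R ⊆ n.primeFactors →
    S ⊆ n.primeFactors → Disjoint R S → (∏ p ∈ S, (p : ℝ)) ≤ Real.exp K →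
    ∑ p ∈ n.primeFactors \ (R ∪ S), 1 / (p : ℝ) ≤ 1 - ε →
    ∀ m : ℕ, C * k * K * ∏ p ∈ R ∪ S, (1 - 1 / (p : ℝ))⁻¹ ≤ m →
    ((blockedResidues (∏ p ∈ R, p) n m).card : ℝ) ≤
      Real.exp (-K) * ((∏ p ∈ R, p : ℕ) : ℝ) := by
  obtain ⟨C, hC, k₀, hcore⟩ := core (min ε 1) (lt_min hε one_pos) (min_le_right _ _)
  -- `2 exp (ℓ^(1/4)) ≤ exp (ℓ^(1/3))`
  have hlog : Tendsto (fun k : ℕ => Real.log k) atTop atTop :=
    Real.tendsto_log_atTop.comp tendsto_natCast_atTop_atTop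
  have hev : ∀ᶠ k : ℕ in atTop, 2 * Real.exp (Real.log k ^ (1 / 4 : ℝ)) ≤
      Real.exp (Real.log k ^ (1 / 3 : ℝ)) := by
    have h1 : Tendsto (fun x : ℝ => x ^ (1 / 12 : ℝ)) atTop atTop :=
      tendsto_rpow_atTop (by norm_num)
    filter_upwards [hlog.eventually (h1.eventually_ge_atTop 2), hlog.eventually_ge_atTop 1]
      with k h2 h3
    have h4 : Real.log k ^ (1 / 3 : ℝ) = Real.log k ^ (1 / 4 : ℝ) * Real.log k ^ (1 / 12 : ℝ) := by
      rw [← Real.rpow_add (by linarith)]; norm_num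
    have h5 : 1 ≤ Real.log k ^ (1 / 4 : ℝ) := Real.one_le_rpow h3 (by norm_num)
    have h6 : Real.log k ^ (1 / 4 : ℝ) + 1 ≤ Real.log k ^ (1 / 3 : ℝ) := by
      rw [h4]; nlinarith
    have h7 : (2 : ℝ) ≤ Real.exp 1 := by
      have := Real.add_one_le_exp (1 : ℝ); linarith
    calc 2 * Real.exp (Real.log k ^ (1 / 4 : ℝ))
        ≤ Real.exp 1 * Real.exp (Real.log k ^ (1 / 4 : ℝ)) :=
          mul_le_mul_of_nonneg_right h7 (Real.exp_pos _).le
      _ = Real.exp (Real.log k ^ (1 / 4 : ℝ) + 1) := by rw [← Real.exp_add]; ring_nf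
      _ ≤ _ := Real.exp_le_exp.2 h6
  obtain ⟨k₁, hk₁⟩ := eventually_atTop.1 (hev.and (eventually_ge_atTop 3))
  refine ⟨C * 2, by linarith, max k₀ k₁, ?_⟩
  intro k hk K hK1 hK2 n hn hnk R S hR hS hRS hSK hsum m hm
  obtain ⟨hk2, hk3⟩ := hk₁ k (le_trans (le_max_right _ _) hk)
  have hRSs : R ∪ S ⊆ n.primeFactors := union_subset hR hS
  have hpr : ∀ p ∈ n.primeFactors, p.Prime := fun p hp => Nat.prime_of_mem_primeFactors hp
  have hk3' : (3 : ℝ) ≤ k := by exact_mod_cast hk3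
  have hℓ : 1 ≤ Real.log k := by
    rw [Real.le_log_iff_exp_le (by linarith)]
    have := Real.exp_one_lt_d9
    linarith
  have hK0 : 1 ≤ K := hℓ.trans hK1
  have hV : 0 < V (R ∪ S) := V_pos fun p hp => hpr p (hRSs hp)
  obtain ⟨m0, hm0⟩ : ∃ m0, m0 = ⌈C * k * (2 * K) / V (R ∪ S)⌉₊ := ⟨_, rfl⟩
  have hpos : 0 ≤ C * k * (2 * K) / V (R ∪ S) := by positivity
  have h1 := hcore k (le_trans (le_max_left _ _) hk) (2 * K) (by linarith) (by linarith)
    (R ∪ S) (n.primeFactors \ (R ∪ S)) (fun p hp => hpr p (hRSs hp))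
    (fun p hp => hpr p (mem_sdiff.1 hp).1) disjoint_sdiff
    ((card_le_card hRSs).trans hnk) ((card_le_card sdiff_subset).trans hnk)
    (hsum.trans (by linarith [min_le_left ε 1])) m0 (by rw [hm0]; exact Nat.le_ceil _)
    (by rw [hm0]; exact (Nat.ceil_lt_add_one hpos).le)
  have hmm : m0 ≤ m := by
    rw [hm0]
    refine Nat.ceil_le.2 ?_
    rw [prod_inv_eq] at hm
    refine le_trans (le_of_eq ?_) hm
    rw [div_eq_mul_inv]
    ring
  have h2 : ((blockedResidues (∏ p ∈ R, p) n m).card : ℝ) ≤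
      ((Bd (R ∪ S) (n.primeFactors \ (R ∪ S)) m0).card : ℝ) := by
    exact_mod_cast blocked_le hn hR hS hmm
  refine h2.trans (h1.trans ?_)
  rw [prod_union hRS]
  have h3 : (0 : ℝ) ≤ ∏ p ∈ R, (p : ℝ) := by positivity
  calc (∏ p ∈ R, (p : ℝ)) * (∏ p ∈ S, (p : ℝ)) * Real.exp (-(2 * K))
      ≤ (∏ p ∈ R, (p : ℝ)) * Real.exp K * Real.exp (-(2 * K)) := by
        refine mul_le_mul_of_nonneg_right (mul_le_mul_of_nonneg_left hSK h3) (Real.exp_pos _).le
    _ = Real.exp (-K) * ((∏ p ∈ R, p : ℕ) : ℝ) := by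
        rw [mul_assoc, ← Real.exp_add]
        push_cast
        rw [mul_comm]
        congr 2
        ring

theorem semi_random_theta (θ : ℝ) (hθ : Real.exp (-1) < θ) : ∃ C : ℝ, 0 < C ∧ ∃ k₀ : ℕ,
    ∀ k ≥ k₀, ∀ K : ℝ, Real.log k ≤ K → K ≤ Real.exp (Real.log k ^ (1 / 4 : ℝ)) →
    ∀ n : ℕ, n ≠ 0 → n.primeFactors.card ≤ k → ∀ m : ℕ, C * k * K * Real.log k ≤ m →
    ((blockedResidues
      (∏ p ∈ n.primeFactors.filter (fun p : ℕ => K / 2 < p ∧ (p : ℝ) ≤ (k : ℝ) ^ θ), p)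
        n m).card : ℝ) ≤ Real.exp (-K) *
      ((∏ p ∈ n.primeFactors.filter (fun p : ℕ => K / 2 < p ∧ (p : ℝ) ≤ (k : ℝ) ^ θ), p : ℕ) :
        ℝ) := by
  have hθ0 : 0 < θ := (Real.exp_pos _).trans hθ
  obtain ⟨θ', hθ'⟩ : ∃ θ', θ' = min θ (9 / 10) := ⟨_, rfl⟩
  have hθ'0 : 0 < θ' := by rw [hθ']; exact lt_min hθ0 (by norm_num)
  have hθ'1 : θ' < 1 := by rw [hθ']; exact lt_of_le_of_lt (min_le_right _ _) (by norm_num)
  have hθ'e : Real.exp (-1) < θ' := by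
    rw [hθ']
    refine lt_min hθ ?_
    rw [Real.exp_neg]
    have h1 := Real.exp_one_gt_d9
    have h2 : (Real.exp 1)⁻¹ ≤ (2 : ℝ)⁻¹ := inv_anti₀ (by norm_num) (by linarith)
    linarith
  have hlogθ : Real.log (1 / θ') < 1 := by
    rw [one_div, Real.log_inv, neg_lt, ← Real.exp_lt_exp, Real.exp_log hθ'0]
    exact hθ'e
  obtain ⟨η, hη⟩ : ∃ η, η = (1 - Real.log (1 / θ')) / 2 := ⟨_, rfl⟩
  have hη0 : 0 < η := by rw [hη]; linarith
  obtain ⟨C, hC, k₀, hmain⟩ := semi_random η hη0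
  obtain ⟨k₁, hk₁⟩ := large_sum θ' η hθ'0 hθ'1 hη0
  obtain ⟨c0, hc0, hV⟩ := V_ge
  refine ⟨C / c0, by positivity, max k₀ (max k₁ 3), ?_⟩
  intro k hk K hK1 hK2 n hn hnk m hm
  have hk3 : 3 ≤ k := le_trans (le_trans (le_max_right _ _) (le_max_right _ _)) hk
  have hk3' : (3 : ℝ) ≤ k := by exact_mod_cast hk3
  have hℓ : 1 ≤ Real.log k := by
    rw [Real.le_log_iff_exp_le (by linarith)]
    have := Real.exp_one_lt_d9
    linarith
  have hK0 : 1 ≤ K := hℓ.trans hK1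
  have hpr : ∀ p ∈ n.primeFactors, p.Prime := fun p hp => Nat.prime_of_mem_primeFactors hp
  obtain ⟨R, hRdef⟩ : ∃ R, R = n.primeFactors.filter
      (fun p : ℕ => K / 2 < p ∧ (p : ℝ) ≤ (k : ℝ) ^ θ) := ⟨_, rfl⟩
  obtain ⟨S, hSdef⟩ : ∃ S, S = n.primeFactors.filter (fun p : ℕ => (p : ℝ) ≤ K / 2) := ⟨_, rfl⟩
  rw [← hRdef]
  have hR : R ⊆ n.primeFactors := by rw [hRdef]; exact filter_subset _ _
  have hS : S ⊆ n.primeFactors := by rw [hSdef]; exact filter_subset _ _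
  have hRS : Disjoint R S := by
    rw [disjoint_left]
    intro p hp hp'
    rw [hRdef, mem_filter] at hp
    rw [hSdef, mem_filter] at hp'
    linarith [hp.2.1, hp'.2]
  refine hmain k (le_trans (le_max_left _ _) hk) K hK1 hK2 n hn hnk R S hR hS hRS ?_ ?_ m ?_
  · -- the product of the small primes
    have h1 : ∏ p ∈ S, p ≤ primorial ⌊K / 2⌋₊ := by
      unfold primorial
      refine prod_le_prod_of_subset_of_one_le' ?_ ?_
      · intro p hp
        rw [hSdef, mem_filter] at hp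
        rw [mem_filter, mem_range]
        exact ⟨Nat.lt_succ_of_le (Nat.le_floor hp.2), hpr p hp.1⟩
      · intro p hp _
        exact (mem_filter.1 hp).2.one_lt.le
    have h2 : primorial ⌊K / 2⌋₊ ≤ 4 ^ ⌊K / 2⌋₊ := primorial_le_four_pow _
    have h3 : ((∏ p ∈ S, p : ℕ) : ℝ) ≤ (4 : ℝ) ^ ⌊K / 2⌋₊ := by exact_mod_cast h1.trans h2
    push_cast at h3
    refine h3.trans ?_
    have h4 : (4 : ℝ) ^ ⌊K / 2⌋₊ ≤ Real.exp (2 * (⌊K / 2⌋₊ : ℝ)) := by
      have h5 : (4 : ℝ) ≤ Real.exp 2 := by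
        have h6 : (2 : ℝ) ≤ Real.exp 1 := by
          have := Real.add_one_le_exp (1 : ℝ); linarith
        have h7 : Real.exp 2 = Real.exp 1 * Real.exp 1 := by rw [← Real.exp_add]; norm_num
        rw [h7]; nlinarith
      have h8 : Real.exp (2 * (⌊K / 2⌋₊ : ℝ)) = Real.exp 2 ^ ⌊K / 2⌋₊ := by
        rw [← Real.exp_nat_mul]; ring_nf
      rw [h8]
      exact pow_le_pow_left₀ (by norm_num) h5 _
    refine h4.trans (Real.exp_le_exp.2 ?_)
    have := Nat.floor_le (show 0 ≤ K / 2 by linarith)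
    linarith
  · -- the large primes
    have h1 := hk₁ k (le_trans (le_trans (le_max_left _ _) (le_max_right _ _)) hk)
      (n.primeFactors \ (R ∪ S)) (fun p hp => hpr p (mem_sdiff.1 hp).1)
      ((card_le_card sdiff_subset).trans hnk) (by
        intro p hp
        obtain ⟨hp1, hp23⟩ := mem_sdiff.1 hp
        rw [mem_union, not_or, hRdef, hSdef, mem_filter, mem_filter] at hp23
        obtain ⟨hp2, hp3⟩ := hp23
        have h4 : K / 2 < p := by
          by_contra h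
          exact hp3 ⟨hp1, not_lt.1 h⟩
        have h5 : (k : ℝ) ^ θ < p := by
          by_contra h
          exact hp2 ⟨hp1, h4, not_lt.1 h⟩
        refine lt_of_le_of_lt ?_ h5
        exact Real.rpow_le_rpow_of_exponent_le (by linarith) (by rw [hθ']; exact min_le_left _ _))
    rw [hη] at h1 ⊢
    linarith
  · -- the length
    refine le_trans ?_ hm
    rw [prod_inv_eq]
    have h1 := hV k hk3 (R ∪ S) (fun p hp => hpr p (union_subset hR hS hp))
      ((card_le_card (union_subset hR hS)).trans hnk)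
    have h2 : (V (R ∪ S))⁻¹ ≤ (c0 / Real.log k)⁻¹ := inv_anti₀ (by positivity) h1
    have h3 : (c0 / Real.log k)⁻¹ = Real.log k / c0 := inv_div _ _
    rw [h3] at h2
    calc C * k * K * (V (R ∪ S))⁻¹ ≤ C * k * K * (Real.log k / c0) :=
          mul_le_mul_of_nonneg_left h2 (by positivity)
      _ = C / c0 * k * K * Real.log k := by ring

end Pool.Agent.H1.Jac
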