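import Pool.Agent.H1.Jac.Core2
import Pool.Agent.H1.Jac.Fin

/-!
# From the two sets of primes to intervals without integers coprime to `n`: length
`k K (log k) ^ (1 - c)`
-/

set_option autoImplicit false

namespace Pool.Agent.H1.Jac

open Finset Filter

theorem semi_random_two (ε : ℝ) (hε : 0 < ε) : ∃ c : ℝ, 0 < c ∧ ∃ k₀ : ℕ, ∀ k ≥ k₀,
    ∀ K : ℝ, Real.log k ≤ K → K ≤ Real.exp (Real.log k ^ (1 / 4 : ℝ)) →
    ∀ n : ℕ, n ≠ 0 → n.primeFactors.card ≤ k → ∀ R S : Finset ℕ, R ⊆ n.primeFactors →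
    S ⊆ n.primeFactors → Disjoint R S → (∏ p ∈ S, (p : ℝ)) ≤ Real.exp K →
    ∑ p ∈ n.primeFactors \ (R ∪ S), 1 / (p : ℝ) ≤ 1 - ε →
    ∀ m : ℕ, k * K * Real.log k ^ (1 - c) ≤ m →
    ((blockedResidues (∏ p ∈ R, p) n m).card : ℝ) ≤
      Real.exp (-K) * ((∏ p ∈ R, p : ℕ) : ℝ) := by
  obtain ⟨c, hc, hc4, k₀, hcore⟩ := core_two (min ε 1) (lt_min hε one_pos) (min_le_right _ _)
  -- `2 exp (ℓ^(1/4)) ≤ exp (ℓ^(1/3))`
  have hlog : Tendsto (fun k : ℕ => Real.log k) atTop atTop :=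
    Real.tendsto_log_atTop.comp tendsto_natCast_atTop_atTop
  have hev : ∀ᶠ k : ℕ in atTop, 2 * Real.exp (Real.log k ^ (1 / 4 : ℝ)) ≤
      Real.exp (Real.log k ^ (1 / 3 : ℝ)) := by
    have h1 : Tendsto (fun x : ℝ => x ^ (1 / 12 : ℝ)) atTop atTop :=
      tendsto_rpow_atTop (by norm_num)
    filter_upwards [hlog.eventually (h1.eventually_ge_atTop 2), hlog.eventually_ge_atTop 1]
      with k h2 h3
    have h4 : Real.log k ^ (1 / 3 : ℝ) = Real.log k ^ (1 / 4 : ℝ) * Real.log k ^ (1 / 12 : ℝ) := by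
      rw [← Real.rpow_add (by linarith)]; norm_num
    have h5 : 1 ≤ Real.log k ^ (1 / 4 : ℝ) := Real.one_le_rpow h3 (by norm_num)
    have h6 : Real.log k ^ (1 / 4 : ℝ) + 1 ≤ Real.log k ^ (1 / 3 : ℝ) := by
      rw [h4]; nlinarith
    have h7 : (2 : ℝ) ≤ Real.exp 1 := by
      have := Real.add_one_le_exp (1 : ℝ); linarith
    calc 2 * Real.exp (Real.log k ^ (1 / 4 : ℝ))
        ≤ Real.exp 1 * Real.exp (Real.log k ^ (1 / 4 : ℝ)) :=
          mul_le_mul_of_nonneg_right h7 (Real.exp_pos _).le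
      _ = Real.exp (Real.log k ^ (1 / 4 : ℝ) + 1) := by rw [← Real.exp_add]; ring_nf
      _ ≤ _ := Real.exp_le_exp.2 h6
  have hev2 : ∀ᶠ k : ℕ in atTop, 2 ≤ Real.log k ^ (c / 2) :=
    ((tendsto_rpow_atTop (half_pos hc)).comp hlog).eventually_ge_atTop 2
  obtain ⟨k₁, hk₁⟩ := eventually_atTop.1 (hev.and (hev2.and (eventually_ge_atTop 3)))
  refine ⟨c / 2, half_pos hc, max k₀ k₁, ?_⟩
  intro k hk K hK1 hK2 n hn hnk R S hR hS hRS hSK hsum m hm
  obtain ⟨hk2, hk4, hk3⟩ := hk₁ k (le_trans (le_max_right _ _) hk)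
  have hRSs : R ∪ S ⊆ n.primeFactors := union_subset hR hS
  have hpr : ∀ p ∈ n.primeFactors, p.Prime := fun p hp => Nat.prime_of_mem_primeFactors hp
  have hk3' : (3 : ℝ) ≤ k := by exact_mod_cast hk3
  have hℓ : 1 ≤ Real.log k := by
    rw [Real.le_log_iff_exp_le (by linarith)]
    have := Real.exp_one_lt_d9
    linarith
  have hK0 : 1 ≤ K := hℓ.trans hK1
  obtain ⟨m0, hm0⟩ : ∃ m0, m0 = ⌈k * (2 * K) * Real.log k ^ (1 - c)⌉₊ := ⟨_, rfl⟩
  have hpw : 0 ≤ Real.log k ^ (1 - c) := Real.rpow_nonneg (by linarith) _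
  have hpos : 0 ≤ k * (2 * K) * Real.log k ^ (1 - c) := by positivity
  have h1 := hcore k (le_trans (le_max_left _ _) hk) (2 * K) (by linarith) (by linarith)
    (R ∪ S) (n.primeFactors \ (R ∪ S)) (fun p hp => hpr p (hRSs hp))
    (fun p hp => hpr p (mem_sdiff.1 hp).1) disjoint_sdiff
    ((card_le_card hRSs).trans hnk) ((card_le_card sdiff_subset).trans hnk)
    (hsum.trans (by linarith [min_le_left ε 1])) m0 (by rw [hm0]; exact Nat.le_ceil _)
    (by rw [hm0]; exact (Nat.ceil_lt_add_one hpos).le)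
  have hmm : m0 ≤ m := by
    rw [hm0]
    refine Nat.ceil_le.2 ?_
    refine le_trans ?_ hm
    have h3 : Real.log k ^ (1 - c / 2) = Real.log k ^ (c / 2) * Real.log k ^ (1 - c) := by
      rw [← Real.rpow_add (by linarith)]
      congr 1
      ring
    rw [h3]
    have h4 := mul_le_mul_of_nonneg_right hk4 hpw
    calc k * (2 * K) * Real.log k ^ (1 - c) = k * K * (2 * Real.log k ^ (1 - c)) := by ring
      _ ≤ k * K * (Real.log k ^ (c / 2) * Real.log k ^ (1 - c)) :=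
        mul_le_mul_of_nonneg_left h4 (by positivity)
  have h2 : ((blockedResidues (∏ p ∈ R, p) n m).card : ℝ) ≤
      ((Bd (R ∪ S) (n.primeFactors \ (R ∪ S)) m0).card : ℝ) := by
    exact_mod_cast blocked_le hn hR hS hmm
  refine h2.trans (h1.trans ?_)
  rw [prod_union hRS]
  have h3 : (0 : ℝ) ≤ ∏ p ∈ R, (p : ℝ) := by positivity
  calc (∏ p ∈ R, (p : ℝ)) * (∏ p ∈ S, (p : ℝ)) * Real.exp (-(2 * K))
      ≤ (∏ p ∈ R, (p : ℝ)) * Real.exp K * Real.exp (-(2 * K)) := by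
        refine mul_le_mul_of_nonneg_right (mul_le_mul_of_nonneg_left hSK h3) (Real.exp_pos _).le
    _ = Real.exp (-K) * ((∏ p ∈ R, p : ℕ) : ℝ) := by
        rw [mul_assoc, ← Real.exp_add]
        push_cast
        rw [mul_comm]
        congr 2
        ring

/-- both lengths together -/
theorem semi_random_min (ε : ℝ) (hε : 0 < ε) : ∃ C c : ℝ, 0 < C ∧ 0 < c ∧ ∃ k₀ : ℕ, ∀ k ≥ k₀,
    ∀ K : ℝ, Real.log k ≤ K → K ≤ Real.exp (Real.log k ^ (1 / 4 : ℝ)) →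
    ∀ n : ℕ, n ≠ 0 → n.primeFactors.card ≤ k → ∀ R S : Finset ℕ, R ⊆ n.primeFactors →
    S ⊆ n.primeFactors → Disjoint R S → (∏ p ∈ S, (p : ℝ)) ≤ Real.exp K →
    ∑ p ∈ n.primeFactors \ (R ∪ S), 1 / (p : ℝ) ≤ 1 - ε →
    ∀ m : ℕ, k * K * min (Real.log k ^ (1 - c)) (C * ∏ p ∈ R ∪ S, (1 - 1 / (p : ℝ))⁻¹) ≤ m →
    ((blockedResidues (∏ p ∈ R, p) n m).card : ℝ) ≤
      Real.exp (-K) * ((∏ p ∈ R, p : ℕ) : ℝ) := by
  obtain ⟨C, hC, k₀, h1⟩ := semi_random ε hε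
  obtain ⟨c, hc, k₁, h2⟩ := semi_random_two ε hε
  refine ⟨C, c, hC, hc, max k₀ k₁, ?_⟩
  intro k hk K hK1 hK2 n hn hnk R S hR hS hRS hSK hsum m hm
  rcases le_total (Real.log k ^ (1 - c)) (C * ∏ p ∈ R ∪ S, (1 - 1 / (p : ℝ))⁻¹) with h | h
  · rw [min_eq_left h] at hm
    exact h2 k (le_trans (le_max_right _ _) hk) K hK1 hK2 n hn hnk R S hR hS hRS hSK hsum m hm
  · rw [min_eq_right h] at hm
    refine h1 k (le_trans (le_max_left _ _) hk) K hK1 hK2 n hn hnk R S hR hS hRS hSK hsum m ?_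
    refine le_trans (le_of_eq ?_) hm
    ring

theorem semi_random_theta_two (θ : ℝ) (hθ : Real.exp (-1) < θ) : ∃ c : ℝ, 0 < c ∧ ∃ k₀ : ℕ,
    ∀ k ≥ k₀, ∀ K : ℝ, Real.log k ≤ K → K ≤ Real.exp (Real.log k ^ (1 / 4 : ℝ)) →
    ∀ n : ℕ, n ≠ 0 → n.primeFactors.card ≤ k → ∀ m : ℕ, k * K * Real.log k ^ (1 - c) ≤ m →
    ((blockedResidues
      (∏ p ∈ n.primeFactors.filter (fun p : ℕ => K / 2 < p ∧ (p : ℝ) ≤ (k : ℝ) ^ θ), p)
        n m).card : ℝ) ≤ Real.exp (-K) *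
      ((∏ p ∈ n.primeFactors.filter (fun p : ℕ => K / 2 < p ∧ (p : ℝ) ≤ (k : ℝ) ^ θ), p : ℕ) :
        ℝ) := by
  have hθ0 : 0 < θ := (Real.exp_pos _).trans hθ
  obtain ⟨θ', hθ'⟩ : ∃ θ', θ' = min θ (9 / 10) := ⟨_, rfl⟩
  have hθ'0 : 0 < θ' := by rw [hθ']; exact lt_min hθ0 (by norm_num)
  have hθ'1 : θ' < 1 := by rw [hθ']; exact lt_of_le_of_lt (min_le_right _ _) (by norm_num)
  have hθ'e : Real.exp (-1) < θ' := by
    rw [hθ']
    refine lt_min hθ ?_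
    rw [Real.exp_neg]
    have h1 := Real.exp_one_gt_d9
    have h2 : (Real.exp 1)⁻¹ ≤ (2 : ℝ)⁻¹ := inv_anti₀ (by norm_num) (by linarith)
    linarith
  have hlogθ : Real.log (1 / θ') < 1 := by
    rw [one_div, Real.log_inv, neg_lt, ← Real.exp_lt_exp, Real.exp_log hθ'0]
    exact hθ'e
  obtain ⟨η, hη⟩ : ∃ η, η = (1 - Real.log (1 / θ')) / 2 := ⟨_, rfl⟩
  have hη0 : 0 < η := by rw [hη]; linarith
  obtain ⟨c, hc, k₀, hmain⟩ := semi_random_two η hη0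
  obtain ⟨k₁, hk₁⟩ := large_sum θ' η hθ'0 hθ'1 hη0
  refine ⟨c, hc, max k₀ (max k₁ 3), ?_⟩
  intro k hk K hK1 hK2 n hn hnk m hm
  have hk3 : 3 ≤ k := le_trans (le_trans (le_max_right _ _) (le_max_right _ _)) hk
  have hk3' : (3 : ℝ) ≤ k := by exact_mod_cast hk3
  have hℓ : 1 ≤ Real.log k := by
    rw [Real.le_log_iff_exp_le (by linarith)]
    have := Real.exp_one_lt_d9
    linarith
  have hK0 : 1 ≤ K := hℓ.trans hK1
  have hpr : ∀ p ∈ n.primeFactors, p.Prime := fun p hp => Nat.prime_of_mem_primeFactors hp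
  obtain ⟨R, hRdef⟩ : ∃ R, R = n.primeFactors.filter
      (fun p : ℕ => K / 2 < p ∧ (p : ℝ) ≤ (k : ℝ) ^ θ) := ⟨_, rfl⟩
  obtain ⟨S, hSdef⟩ : ∃ S, S = n.primeFactors.filter (fun p : ℕ => (p : ℝ) ≤ K / 2) := ⟨_, rfl⟩
  rw [← hRdef]
  have hR : R ⊆ n.primeFactors := by rw [hRdef]; exact filter_subset _ _
  have hS : S ⊆ n.primeFactors := by rw [hSdef]; exact filter_subset _ _
  have hRS : Disjoint R S := by
    rw [disjoint_left]
    intro p hp hp'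
    rw [hRdef, mem_filter] at hp
    rw [hSdef, mem_filter] at hp'
    linarith [hp.2.1, hp'.2]
  refine hmain k (le_trans (le_max_left _ _) hk) K hK1 hK2 n hn hnk R S hR hS hRS ?_ ?_ m hm
  · -- the product of the small primes
    have h1 : ∏ p ∈ S, p ≤ primorial ⌊K / 2⌋₊ := by
      unfold primorial
      refine prod_le_prod_of_subset_of_one_le' ?_ ?_
      · intro p hp
        rw [hSdef, mem_filter] at hp
        rw [mem_filter, mem_range]
        exact ⟨Nat.lt_succ_of_le (Nat.le_floor hp.2), hpr p hp.1⟩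
      · intro p hp _
        exact (mem_filter.1 hp).2.one_lt.le
    have h2 : primorial ⌊K / 2⌋₊ ≤ 4 ^ ⌊K / 2⌋₊ := primorial_le_four_pow _
    have h3 : ((∏ p ∈ S, p : ℕ) : ℝ) ≤ (4 : ℝ) ^ ⌊K / 2⌋₊ := by exact_mod_cast h1.trans h2
    push_cast at h3
    refine h3.trans ?_
    have h4 : (4 : ℝ) ^ ⌊K / 2⌋₊ ≤ Real.exp (2 * (⌊K / 2⌋₊ : ℝ)) := by
      have h5 : (4 : ℝ) ≤ Real.exp 2 := by
        have h6 : (2 : ℝ) ≤ Real.exp 1 := by
          have := Real.add_one_le_exp (1 : ℝ); linarith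
        have h7 : Real.exp 2 = Real.exp 1 * Real.exp 1 := by rw [← Real.exp_add]; norm_num
        rw [h7]; nlinarith
      have h8 : Real.exp (2 * (⌊K / 2⌋₊ : ℝ)) = Real.exp 2 ^ ⌊K / 2⌋₊ := by
        rw [← Real.exp_nat_mul]; ring_nf
      rw [h8]
      exact pow_le_pow_left₀ (by norm_num) h5 _
    refine h4.trans (Real.exp_le_exp.2 ?_)
    have := Nat.floor_le (show 0 ≤ K / 2 by linarith)
    linarith
  · -- the large primes
    have h1 := hk₁ k (le_trans (le_trans (le_max_left _ _) (le_max_right _ _)) hk)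
      (n.primeFactors \ (R ∪ S)) (fun p hp => hpr p (mem_sdiff.1 hp).1)
      ((card_le_card sdiff_subset).trans hnk) (by
        intro p hp
        obtain ⟨hp1, hp23⟩ := mem_sdiff.1 hp
        rw [mem_union, not_or, hRdef, hSdef, mem_filter, mem_filter] at hp23
        obtain ⟨hp2, hp3⟩ := hp23
        have h4 : K / 2 < p := by
          by_contra h
          exact hp3 ⟨hp1, not_lt.1 h⟩
        have h5 : (k : ℝ) ^ θ < p := by
          by_contra h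
          exact hp2 ⟨hp1, h4, not_lt.1 h⟩
        refine lt_of_le_of_lt ?_ h5
        exact Real.rpow_le_rpow_of_exponent_le (by linarith) (by rw [hθ']; exact min_le_left _ _))
    rw [hη] at h1 ⊢
    linarith

end Pool.Agent.H1.Jac
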