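import Pool.Agent.H1.Jac.Defs
import Pool.Agent.H24.UM.Scales

/-!
# Sums and products over primes

Part of `MP_4e17b9_nt`.
`sum_primes_le`: `Pool.Agent.H24.UM.sum_inv_sharp` (`aS J = ∑_{p < 2^J} 1/p ≤ HH (J-1) + C`,
`HH_le : HH n ≤ 1 + log n`): with `2^(J-1) ≤ L < 2^J`, `J - 1 ≤ log L / log 2`.
`sum_le`: split `Q` at `k`: the primes `≤ k` by `sum_primes_le`, the at most `k` others are `> k`, so
they contribute at most `1`.
`V_ge`: `1 - 1/q ≥ exp (-1/q - 1/q²)` for `q ≥ 2` and `∑ 1/q² ≤ 2`, so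
`V Q ≥ exp (-∑ 1/q - 2) ≥ exp (-log log k - C - 2)`.
`V_filter_le`: `V Q = V (Q.filter (· ≤ L)) * V (Q.filter (L < ·))`, and
`V (Q.filter (· ≤ L)) ≥ c / log L` (`V_ge` with `k = L`: at most `L` primes).
-/

set_option autoImplicit false

namespace Pool.Agent.H1.Jac

open Finset

private lemma exp_le_one_sub {t : ℝ} (h0 : 0 ≤ t) (h1 : t ≤ 1 / 2) :
    Real.exp (-(t + t ^ 2)) ≤ 1 - t := by
  have hx : 0 ≤ t + t ^ 2 := by positivity
  have h2 := Real.quadratic_le_exp_of_nonneg hx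
  have h3 : 1 ≤ (1 - t) * (1 + (t + t ^ 2) + (t + t ^ 2) ^ 2 / 2) := by
    have h4 : (1 - t) * (1 + (t + t ^ 2) + (t + t ^ 2) ^ 2 / 2) =
        1 + t ^ 2 * (1 - t - t ^ 2 - t ^ 3) / 2 := by ring
    have h5 : 0 ≤ 1 - t - t ^ 2 - t ^ 3 := by
      have h6 : t ^ 2 ≤ (1 / 2) ^ 2 := pow_le_pow_left₀ h0 h1 2
      have h7 : t ^ 3 ≤ (1 / 2) ^ 3 := pow_le_pow_left₀ h0 h1 3
      linarith
    rw [h4]
    have h8 : 0 ≤ t ^ 2 * (1 - t - t ^ 2 - t ^ 3) / 2 := by positivity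
    linarith
  have h9 : 1 ≤ (1 - t) * Real.exp (t + t ^ 2) :=
    h3.trans (mul_le_mul_of_nonneg_left h2 (by linarith))
  rw [Real.exp_neg, inv_le_iff_one_le_mul₀ (Real.exp_pos _)]
  exact h9

private lemma sum_sq_le (Q : Finset ℕ) : ∑ q ∈ Q, (1 / (q : ℝ)) ^ 2 ≤ 2 := by
  have h1 : ∑ q ∈ Q, (1 : ℝ) / (q : ℝ) ^ 2 ≤ Real.pi ^ 2 / 6 :=
    sum_le_hasSum Q (fun _ _ => by positivity) hasSum_zeta_two
  have h2 : ∑ q ∈ Q, (1 / (q : ℝ)) ^ 2 = ∑ q ∈ Q, (1 : ℝ) / (q : ℝ) ^ 2 :=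
    sum_congr rfl fun q _ => by rw [div_pow, one_pow]
  rw [h2]
  have h3 := Real.pi_lt_d2
  have h4 := Real.pi_pos
  nlinarith

theorem sum_primes_le : ∃ C : ℝ, 0 ≤ C ∧ ∀ L : ℕ, 3 ≤ L →
    ∑ q ∈ (Ioc 0 L).filter Nat.Prime, 1 / (q : ℝ) ≤ Real.log (Real.log L) + C := by
  obtain ⟨C, hC, h⟩ := Pool.Agent.H24.UM.sum_inv_sharp
  refine ⟨C + 2, by linarith, fun L hL => ?_⟩
  set n : ℕ := Nat.log 2 L with hn
  have hn1 : 1 ≤ n := Nat.log_pos (by norm_num) (by omega)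
  have h1 : 2 ^ n ≤ L := Nat.pow_log_le_self 2 (by omega)
  have h2 : L < 2 ^ (n + 1) := Nat.lt_pow_succ_log_self (by norm_num) L
  have h3 : ∑ q ∈ (Ioc 0 L).filter Nat.Prime, 1 / (q : ℝ) ≤ Pool.Agent.H24.UM.aS (n + 1) := by
    unfold Pool.Agent.H24.UM.aS
    refine sum_le_sum_of_subset_of_nonneg ?_ fun _ _ _ => by positivity
    intro p hp
    rw [mem_filter, mem_Ioc] at hp
    rw [Nat.mem_primesBelow]
    exact ⟨hp.1.2.trans_lt h2, hp.2⟩
  have h4 := h n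
  have h5 : Pool.Agent.H24.UM.HH n ≤ 1 + Real.log n := Pool.Agent.H24.UM.HH_le
  have hl2 : 0 < Real.log 2 := Real.log_pos (by norm_num)
  have hL0 : (1 : ℝ) < L := by exact_mod_cast (by omega : 1 < L)
  have hlL : 0 < Real.log L := Real.log_pos hL0
  have h6 : (n : ℝ) * Real.log 2 ≤ Real.log L := by
    rw [← Real.log_pow]
    exact Real.log_le_log (by positivity) (by exact_mod_cast h1)
  have hn0 : (0 : ℝ) < n := by exact_mod_cast hn1
  have h7 : Real.log n ≤ Real.log (Real.log L) + 1 := by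
    have h8 : (n : ℝ) ≤ Real.log L * Real.exp 1 := by
      have h9 : (1 : ℝ) ≤ Real.log 2 * Real.exp 1 := by
        have := Real.log_two_gt_d9
        have := Real.exp_one_gt_d9
        nlinarith
      calc (n : ℝ) = n * 1 := (mul_one _).symm
        _ ≤ n * (Real.log 2 * Real.exp 1) := mul_le_mul_of_nonneg_left h9 hn0.le
        _ = n * Real.log 2 * Real.exp 1 := by ring
        _ ≤ Real.log L * Real.exp 1 := mul_le_mul_of_nonneg_right h6 (Real.exp_pos _).le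
    calc Real.log n ≤ Real.log (Real.log L * Real.exp 1) := Real.log_le_log hn0 h8
      _ = Real.log (Real.log L) + 1 := by
        rw [Real.log_mul hlL.ne' (Real.exp_pos _).ne', Real.log_exp]
  linarith

theorem sum_le : ∃ C : ℝ, 0 ≤ C ∧ ∀ k : ℕ, 3 ≤ k → ∀ Q : Finset ℕ, (∀ q ∈ Q, q.Prime) →
    Q.card ≤ k → ∑ q ∈ Q, 1 / (q : ℝ) ≤ Real.log (Real.log k) + C := by
  obtain ⟨C, hC, h⟩ := sum_primes_le
  refine ⟨C + 1, by linarith, fun k hk Q hQ hcard => ?_⟩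
  have hk0 : (0 : ℝ) < k := by exact_mod_cast (by omega : 0 < k)
  rw [← sum_filter_add_sum_filter_not Q (fun q => q ≤ k)]
  have h1 : ∑ q ∈ Q.filter (fun q => q ≤ k), 1 / (q : ℝ) ≤
      ∑ q ∈ (Ioc 0 k).filter Nat.Prime, 1 / (q : ℝ) := by
    refine sum_le_sum_of_subset_of_nonneg ?_ fun _ _ _ => by positivity
    intro p hp
    rw [mem_filter] at hp
    rw [mem_filter, mem_Ioc]
    exact ⟨⟨(hQ p hp.1).pos, hp.2⟩, hQ p hp.1⟩
  have h2 : ∑ q ∈ Q.filter (fun q => ¬ q ≤ k), 1 / (q : ℝ) ≤ 1 := by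
    calc ∑ q ∈ Q.filter (fun q => ¬ q ≤ k), 1 / (q : ℝ)
        ≤ ∑ _q ∈ Q.filter (fun q => ¬ q ≤ k), 1 / (k : ℝ) := by
          refine sum_le_sum fun q hq => ?_
          rw [mem_filter] at hq
          have : (k : ℝ) ≤ q := by exact_mod_cast (by omega : k ≤ q)
          exact one_div_le_one_div_of_le hk0 this
      _ = ((Q.filter (fun q => ¬ q ≤ k)).card : ℝ) * (1 / (k : ℝ)) := by
          rw [sum_const, nsmul_eq_mul]
      _ ≤ (k : ℝ) * (1 / (k : ℝ)) := by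
          refine mul_le_mul_of_nonneg_right ?_ (by positivity)
          exact_mod_cast (card_filter_le _ _).trans hcard
      _ = 1 := mul_one_div_cancel hk0.ne'
  have h3 := h k hk
  linarith

theorem V_ge : ∃ c : ℝ, 0 < c ∧ ∀ k : ℕ, 3 ≤ k → ∀ Q : Finset ℕ, (∀ q ∈ Q, q.Prime) →
    Q.card ≤ k → c / Real.log k ≤ V Q := by
  obtain ⟨C, hC, h⟩ := sum_le
  refine ⟨Real.exp (-(C + 2)), Real.exp_pos _, fun k hk Q hQ hcard => ?_⟩
  have h1 := h k hk Q hQ hcard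
  have h2 := sum_sq_le Q
  have hk1 : (1 : ℝ) < k := by exact_mod_cast (by omega : 1 < k)
  have hlk : 0 < Real.log k := Real.log_pos hk1
  have h3 : Real.exp (∑ q ∈ Q, -(1 / (q : ℝ) + (1 / (q : ℝ)) ^ 2)) ≤ V Q := by
    rw [Real.exp_sum]
    unfold V
    refine prod_le_prod (fun _ _ => (Real.exp_pos _).le) fun q hq => ?_
    have hq2 : (2 : ℝ) ≤ q := by exact_mod_cast (hQ q hq).two_le
    refine exp_le_one_sub (by positivity) ?_
    exact one_div_le_one_div_of_le (by norm_num) hq2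
  refine le_trans ?_ h3
  have h4 : Real.exp (-(C + 2)) / Real.log k =
      Real.exp (-(Real.log (Real.log k) + C) - 2) := by
    rw [show -(Real.log (Real.log k) + C) - 2 = -(C + 2) - Real.log (Real.log k) by ring,
      Real.exp_sub, Real.exp_log hlk]
  rw [h4]
  refine Real.exp_le_exp.2 ?_
  rw [sum_neg_distrib, sum_add_distrib]
  linarith

private lemma V_nonneg (Q : Finset ℕ) (hQ : ∀ q ∈ Q, q.Prime) : 0 ≤ V Q := by
  unfold V
  refine prod_nonneg fun q hq => ?_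
  have hq1 : (1 : ℝ) ≤ q := by exact_mod_cast (hQ q hq).one_lt.le
  have : 1 / (q : ℝ) ≤ 1 := by
    rw [div_le_one (by linarith)]
    exact hq1
  linarith

theorem V_filter_le : ∃ C : ℝ, 0 < C ∧ ∀ L : ℕ, 3 ≤ L → ∀ Q : Finset ℕ, (∀ q ∈ Q, q.Prime) →
    V (Q.filter (fun q => L < q)) ≤ C * Real.log L * V Q := by
  obtain ⟨c, hc, h⟩ := V_ge
  refine ⟨1 / c, by positivity, fun L hL Q hQ => ?_⟩
  have hL1 : (1 : ℝ) < L := by exact_mod_cast (by omega : 1 < L)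
  have hlL : 0 < Real.log L := Real.log_pos hL1
  have hcard : (Q.filter (fun q => ¬ L < q)).card ≤ L := by
    have hsub : Q.filter (fun q => ¬ L < q) ⊆ Ioc 0 L := by
      intro q hq
      rw [mem_filter] at hq
      rw [mem_Ioc]
      exact ⟨(hQ q hq.1).pos, by omega⟩
    simpa using card_le_card hsub
  have h1 := h L hL (Q.filter (fun q => ¬ L < q)) (fun q hq => hQ q (mem_filter.1 hq).1) hcard
  have h2 : V Q = V (Q.filter (fun q => L < q)) * V (Q.filter (fun q => ¬ L < q)) := by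
    unfold V
    rw [prod_filter_mul_prod_filter_not]
  have h3 : 0 ≤ V (Q.filter (fun q => L < q)) :=
    V_nonneg _ fun q hq => hQ q (mem_filter.1 hq).1
  have h4 : V (Q.filter (fun q => L < q)) * (c / Real.log L) ≤ V Q := by
    rw [h2]
    exact mul_le_mul_of_nonneg_left h1 h3
  calc V (Q.filter (fun q => L < q))
      = 1 / c * Real.log L * (V (Q.filter (fun q => L < q)) * (c / Real.log L)) := by
        field_simp
    _ ≤ 1 / c * Real.log L * V Q := mul_le_mul_of_nonneg_left h4 (by positivity)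

end Pool.Agent.H1.Jac
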