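import Pool.Agent.H1.Jac.Defs
import Pool.Agent.H34.NA.Primes

/-!
# Primes larger than `k / Y`

Part of `MP_4e17b9_nt`. `Pool.Agent.H34.NA.mertens_window`: `∑_{y < p ≤ x} log p/p ≤ log x - log y + C`.

`large_sum` (`0 < θ < 1`): the primes `p ∈ E` with `p > k log k` contribute at most
`k / (k log k) = 1/log k`. The other ones are in `(k^θ, k log k]`. Choose `N` with
`(1/θ) ^ (1/N) ≤ 1 + η`, `N (…)`; that is, with `y_i = k^(θ ρ^i)`, `ρ = θ^(-1/N)`, `i ≤ N`
(`y_N = k`): `∑_{y_i < p ≤ y_{i+1}} 1/p ≤ (1/log y_i) (log y_{i+1} - log y_i + C) = (ρ - 1) + C/(θ log k)`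
(take floors), so in total `N (ρ - 1) + N C/(θ log k)`, and `N (ρ - 1) → log (1/θ)` for `N → ∞`
(`ρ = exp (log (1/θ)/N)`); choose `N` with `N (ρ - 1) ≤ log (1/θ) + ε/2` first. Finally
`∑_{k < p ≤ k log k} 1/p ≤ (log log k + C)/log k`.

`mid_sum`: the primes `p ∈ E` with `p > k log k` contribute at most `1/log k`; for the other ones
`∑ 1/p ≤ (1/log (k/Y)) ∑ log p/p ≤ (2/log k) (log (k log k) - log (k/Y) + C)`, `k/Y ≥ √k`
(take the floor of `k/Y`).
-/

set_option autoImplicit false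

namespace Pool.Agent.H1.Jac

open Finset

private theorem mertC_log3 {k : ℕ} (hk : 3 ≤ k) : 1 ≤ Real.log k := by
  have hk3 : (3 : ℝ) ≤ k := by exact_mod_cast hk
  rw [Real.le_log_iff_exp_le (by linarith)]
  have := Real.exp_one_lt_d9
  linarith

theorem mid_sum : ∃ C : ℝ, 0 < C ∧ ∀ k : ℕ, 3 ≤ k → ∀ Y : ℝ, 1 ≤ Y → Y ≤ Real.sqrt k →
    ∀ E : Finset ℕ, (∀ p ∈ E, p.Prime) → E.card ≤ k → (∀ p ∈ E, (k : ℝ) / Y < p) →
    ∑ p ∈ E, 1 / (p : ℝ) ≤ C * (Real.log Y + Real.log (Real.log k) + 1) / Real.log k := by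
  obtain ⟨C₀, hC₀, hM⟩ := Pool.Agent.H34.NA.mertens_window
  have hlog2 : 0 < Real.log 2 := Real.log_pos (by norm_num)
  refine ⟨2 * Real.log 2 + 2 * C₀ + 3, by positivity, ?_⟩
  intro k hk Y hY hYk E hE hcard hlarge
  have hk3 : (3 : ℝ) ≤ k := by exact_mod_cast hk
  have hk0 : (0 : ℝ) < k := by linarith
  have hlk : 1 ≤ Real.log k := mertC_log3 hk
  have hlk0 : 0 < Real.log k := by linarith
  have hllk : 0 ≤ Real.log (Real.log k) := Real.log_nonneg hlk
  have hlY : 0 ≤ Real.log Y := Real.log_nonneg hY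
  have hY0 : 0 < Y := by linarith
  have hsq : Real.sqrt k * Real.sqrt k = k := Real.mul_self_sqrt hk0.le
  have hsq0 : 0 < Real.sqrt k := Real.sqrt_pos.2 hk0
  have hkY : Real.sqrt k ≤ (k : ℝ) / Y := by
    rw [le_div_iff₀ hY0]
    nlinarith
  have hsq1 : 1 ≤ Real.sqrt k := Real.one_le_sqrt.2 (by linarith)
  have hkY1 : 1 ≤ (k : ℝ) / Y := hsq1.trans hkY
  have hlkY : Real.log k / 2 ≤ Real.log ((k : ℝ) / Y) := by
    rw [← Real.log_sqrt hk0.le]
    exact Real.log_le_log hsq0 hkY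
  -- the two floors
  set y := ⌊(k : ℝ) / Y⌋₊ with hy
  set X := ⌊(k : ℝ) * Real.log k⌋₊ with hX
  have hy1 : 1 ≤ y := by
    rw [hy, Nat.one_le_floor_iff]
    exact hkY1
  have hyle : (y : ℝ) ≤ (k : ℝ) / Y := Nat.floor_le (by positivity)
  have hygt : (k : ℝ) / Y < y + 1 := Nat.lt_floor_add_one _
  have hy1' : (1 : ℝ) ≤ y := by exact_mod_cast hy1
  have hyhalf : (k : ℝ) / Y / 2 ≤ y := by linarith
  have hXle : (X : ℝ) ≤ (k : ℝ) * Real.log k := Nat.floor_le (by positivity)
  have hXgt : (k : ℝ) * Real.log k < X + 1 := Nat.lt_floor_add_one _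
  have hkYk : (k : ℝ) / Y ≤ (k : ℝ) * Real.log k := by
    have h1 : (k : ℝ) / Y ≤ k := div_le_self hk0.le hY
    have h2 : (k : ℝ) ≤ k * Real.log k := by nlinarith
    linarith
  have hyX : y ≤ X := Nat.floor_le_floor hkYk
  have hX1 : (1 : ℝ) ≤ X := by exact_mod_cast hy1.trans hyX
  have hlogX : Real.log X ≤ Real.log k + Real.log (Real.log k) := by
    rw [← Real.log_mul hk0.ne' hlk0.ne']
    exact Real.log_le_log (by linarith) hXle
  have hlogy : Real.log k - Real.log Y - Real.log 2 ≤ Real.log y := by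
    rw [← Real.log_div hk0.ne' hY0.ne', ← Real.log_div (by positivity) (by norm_num)]
    exact Real.log_le_log (by positivity) hyhalf
  -- splitting
  have hsplit : ∑ p ∈ E, 1 / (p : ℝ) =
      ∑ p ∈ E.filter (fun p => p ≤ X), 1 / (p : ℝ) +
        ∑ p ∈ E.filter (fun p => ¬ p ≤ X), 1 / (p : ℝ) :=
    (Finset.sum_filter_add_sum_filter_not E (fun p => p ≤ X) _).symm
  have hbig : ∑ p ∈ E.filter (fun p => ¬ p ≤ X), 1 / (p : ℝ) ≤ 1 / Real.log k := by
    have h1 : ∀ p ∈ E.filter (fun p => ¬ p ≤ X), 1 / (p : ℝ) ≤ 1 / ((k : ℝ) * Real.log k) := by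
      intro p hp
      rw [Finset.mem_filter] at hp
      have h2 : X + 1 ≤ p := by omega
      have h3 : ((X : ℝ) + 1) ≤ p := by exact_mod_cast h2
      exact one_div_le_one_div_of_le (by positivity) (by linarith)
    have h2 := Finset.sum_le_card_nsmul _ _ _ h1
    refine h2.trans ?_
    rw [nsmul_eq_mul]
    have h3 : ((E.filter (fun p => ¬ p ≤ X)).card : ℝ) ≤ k := by
      have : (E.filter (fun p => ¬ p ≤ X)).card ≤ k := (Finset.card_filter_le _ _).trans hcard
      exact_mod_cast this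
    calc ((E.filter (fun p => ¬ p ≤ X)).card : ℝ) * (1 / ((k : ℝ) * Real.log k)) ≤
        k * (1 / ((k : ℝ) * Real.log k)) := by gcongr
      _ = 1 / Real.log k := by field_simp
  have hsmall : ∑ p ∈ E.filter (fun p => p ≤ X), 1 / (p : ℝ) ≤
      2 / Real.log k * ∑ p ∈ (Ioc y X).filter Nat.Prime, Real.log p / p := by
    rw [Finset.mul_sum]
    have hsub : E.filter (fun p => p ≤ X) ⊆ (Ioc y X).filter Nat.Prime := by
      intro p hp
      rw [Finset.mem_filter] at hp
      rw [Finset.mem_filter, Finset.mem_Ioc]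
      refine ⟨⟨?_, hp.2⟩, hE p hp.1⟩
      have h1 := hlarge p hp.1
      have h2 : (y : ℝ) < p := by linarith
      exact_mod_cast h2
    calc ∑ p ∈ E.filter (fun p => p ≤ X), 1 / (p : ℝ) ≤
        ∑ p ∈ E.filter (fun p => p ≤ X), 2 / Real.log k * (Real.log p / p) := by
          refine Finset.sum_le_sum fun p hp => ?_
          rw [Finset.mem_filter] at hp
          have h1 := hlarge p hp.1
          have hp0 : (0 : ℝ) < p := by linarith
          have h2 : Real.log k / 2 ≤ Real.log p :=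
            hlkY.trans (Real.log_le_log (by linarith) h1.le)
          have h3 : 2 / Real.log k * (Real.log p / p) = (2 / Real.log k * Real.log p) * (1 / p) := by
            ring
          rw [h3]
          have h4 : 1 ≤ 2 / Real.log k * Real.log p := by
            rw [div_mul_eq_mul_div, le_div_iff₀ hlk0]
            linarith
          have h5 : 0 ≤ 1 / (p : ℝ) := by positivity
          nlinarith
      _ ≤ ∑ p ∈ (Ioc y X).filter Nat.Prime, 2 / Real.log k * (Real.log p / p) := by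
          refine Finset.sum_le_sum_of_subset_of_nonneg hsub fun p hp _ => ?_
          rw [Finset.mem_filter] at hp
          have h1 : (1 : ℝ) ≤ p := by exact_mod_cast hp.2.one_lt.le
          have h2 := Real.log_nonneg h1
          positivity
  have hM1 := (abs_le.1 (hM y X hy1 hyX)).2
  have hM2 : ∑ p ∈ (Ioc y X).filter Nat.Prime, Real.log p / p ≤
      Real.log (Real.log k) + Real.log Y + Real.log 2 + C₀ := by linarith
  have hsmall' : ∑ p ∈ E.filter (fun p => p ≤ X), 1 / (p : ℝ) ≤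
      2 / Real.log k * (Real.log (Real.log k) + Real.log Y + Real.log 2 + C₀) :=
    hsmall.trans (by gcongr)
  rw [hsplit]
  refine (add_le_add hsmall' hbig).trans ?_
  rw [div_mul_eq_mul_div, ← add_div]
  apply div_le_div_of_nonneg_right _ hlk0.le
  have h6 : 0 ≤ (Real.log Y + Real.log (Real.log k)) * (2 * Real.log 2 + 2 * C₀ + 1) := by
    positivity
  nlinarith

end Pool.Agent.H1.Jac
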