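import Pool.Agent.H1.Jac.Cnt
import Pool.Agent.H1.Jac.MomZ

/-!
# Few survivors in short progressions

Part of `MP_4e17b9_nt`. Let `R = AP m p c`, `Q2 = Q.filter (L < ·)`, `Q1` the rest. `surv Q a R ⊆ surv Q2 a R`,
and `surv Q2 a R` depends on `a % ∏ Q2` only, so by `sum_mod` (`∏ Q = ∏ Q1 * ∏ Q2`) and `mom_z` with
`z = 1`: `∑_{a < ∏ Q} 2^|surv Q a R| ≤ ∏ Q1 * ∏ Q2 * (1 + V Q2)^|R| ≤ ∏ Q * exp (V Q2 * |R|)`. The classes
modulo `q ∈ Q2` have at most one element in `R`: by `cnt_class` at most `m/p/q + 1 < 2`, as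
`m ≤ p L < p q`. `|R| ≤ m/p + 1` (`cnt_ap`). Markov: `#{a : s < |surv Q a R|} * 2^s ≤ ∑_a 2^|surv Q a R|`.
-/

set_option autoImplicit false

namespace Pool.Agent.H1.Jac

open Finset

theorem small (Q : Finset ℕ) (hQ : ∀ q ∈ Q, q.Prime) (m p c L : ℕ) (hp : 0 < p)
    (hpQ : ∀ q ∈ Q, Nat.Coprime p q) (hL : m ≤ p * L) (s : ℝ) :
    (((range (∏ q ∈ Q, q)).filter (fun a => s < ((surv Q a (AP m p c)).card : ℝ))).card : ℝ) ≤
      (∏ q ∈ Q, (q : ℝ)) *
        Real.exp (V (Q.filter (fun q => L < q)) * ((m : ℝ) / p + 1) - s * Real.log 2) := by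
  classical
  set R := AP m p c with hR
  set Q2 := Q.filter (fun q => L < q) with hQ2
  set Q1 := Q.filter (fun q => ¬ L < q) with hQ1
  have hQ2Q : ∀ q ∈ Q2, q ∈ Q := fun q hq => (mem_filter.mp hq).1
  set N2 := ∏ q ∈ Q2, q with hN2
  set N1 := ∏ q ∈ Q1, q with hN1
  have hN : ∏ q ∈ Q, q = N1 * N2 := by
    rw [mul_comm]
    exact (prod_filter_mul_prod_filter_not Q (fun q => L < q) (fun q => q)).symm
  have hN2pos : 0 < N2 := prod_pos fun q hq => (hQ q (hQ2Q q hq)).pos
  have hV0 : 0 ≤ V Q2 := by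
    refine prod_nonneg fun q hq => ?_
    have h1 : (1 : ℝ) ≤ q := by exact_mod_cast (hQ q (hQ2Q q hq)).one_lt.le
    have h2 : 1 / (q : ℝ) ≤ 1 := by
      rw [div_le_one (by linarith)]
      exact h1
    linarith
  have hpr : (0 : ℝ) < p := by exact_mod_cast hp
  have hM : ∀ q ∈ Q2, ∀ r, (R.filter (fun i => q ∣ r + i)).card ≤ 1 := by
    intro q hq r
    have hqQ := hQ2Q q hq
    have hLq : L < q := (mem_filter.mp hq).2
    have h := cnt_class m p c hp q (hQ q hqQ) (hpQ q hqQ) r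
    have hqr : (0 : ℝ) < q := by exact_mod_cast (hQ q hqQ).pos
    have h1 : (m : ℝ) / p / q < 1 := by
      rw [div_div, div_lt_one (by positivity)]
      have h2 : m < p * q := lt_of_le_of_lt hL (Nat.mul_lt_mul_of_pos_left hLq hp)
      exact_mod_cast h2
    have h3 : (((AP m p c).filter (fun i => q ∣ r + i)).card : ℝ) < (2 : ℕ) := by
      push_cast
      linarith
    have h4 := Nat.cast_lt.mp h3
    rw [hR]
    omega
  have hmod : ∀ a, surv Q2 a R = surv Q2 (a % N2) R := by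
    intro a
    unfold surv
    refine filter_congr fun i _ => ?_
    refine forall₂_congr fun q hq => ?_
    have h1 : a % N2 ≡ a [MOD q] := (Nat.mod_modEq a N2).of_dvd (dvd_prod_of_mem (fun q => q) hq)
    exact not_congr ((h1.add_right i).dvd_iff dvd_rfl).symm
  have hsub : ∀ a, (surv Q a R).card ≤ (surv Q2 a R).card := by
    intro a
    refine card_le_card fun i hi => ?_
    rw [surv, mem_filter] at hi ⊢
    exact ⟨hi.1, fun q hq => hi.2 q (hQ2Q q hq)⟩
  have hS : ∑ a ∈ range (∏ q ∈ Q, q), (2 : ℝ) ^ (surv Q a R).card ≤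
      (∏ q ∈ Q, (q : ℝ)) * Real.exp (V Q2 * ((m : ℝ) / p + 1)) := by
    calc ∑ a ∈ range (∏ q ∈ Q, q), (2 : ℝ) ^ (surv Q a R).card
        ≤ ∑ a ∈ range (∏ q ∈ Q, q), (2 : ℝ) ^ (surv Q2 (a % N2) R).card := by
          refine sum_le_sum fun a _ => ?_
          rw [← hmod a]
          exact pow_le_pow_right₀ (by norm_num) (hsub a)
      _ = (N1 : ℝ) * ∑ b ∈ range N2, (2 : ℝ) ^ (surv Q2 b R).card := by
          rw [hN]
          exact sum_mod N1 N2 hN2pos (fun b => (2 : ℝ) ^ (surv Q2 b R).card)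
      _ ≤ (N1 : ℝ) * ((∏ q ∈ Q2, (q : ℝ)) * (1 + 1 * V Q2) ^ R.card) := by
          refine mul_le_mul_of_nonneg_left ?_ (by positivity)
          have h := mom_z Q2 (fun q hq => hQ q (hQ2Q q hq)) R 1 zero_le_one hM
          have e : (1 + 1 : ℝ) = 2 := by norm_num
          rw [e] at h
          exact h
      _ = (∏ q ∈ Q, (q : ℝ)) * (1 + V Q2) ^ R.card := by
          rw [one_mul, ← mul_assoc]
          congr 1
          have e : ((∏ q ∈ Q, q : ℕ) : ℝ) = (N1 : ℝ) * (N2 : ℝ) := by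
            rw [hN]
            push_cast
            rfl
          push_cast at e
          rw [e, hN2]
          push_cast
          rfl
      _ ≤ (∏ q ∈ Q, (q : ℝ)) * Real.exp (V Q2 * ((m : ℝ) / p + 1)) := by
          refine mul_le_mul_of_nonneg_left ?_ (by positivity)
          have h1 : (1 + V Q2) ^ R.card ≤ Real.exp (V Q2) ^ R.card :=
            pow_le_pow_left₀ (by linarith) (by linarith [Real.add_one_le_exp (V Q2)]) _
          refine h1.trans ?_
          rw [← Real.exp_nat_mul, Real.exp_le_exp, mul_comm]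
          exact mul_le_mul_of_nonneg_left (cnt_ap m p c hp) hV0
  set B := (range (∏ q ∈ Q, q)).filter (fun a => s < ((surv Q a R).card : ℝ)) with hB
  have hMk : (B.card : ℝ) * Real.exp (s * Real.log 2) ≤
      ∑ a ∈ range (∏ q ∈ Q, q), (2 : ℝ) ^ (surv Q a R).card := by
    calc (B.card : ℝ) * Real.exp (s * Real.log 2) = ∑ _a ∈ B, Real.exp (s * Real.log 2) := by
          rw [sum_const, nsmul_eq_mul]
      _ ≤ ∑ a ∈ B, (2 : ℝ) ^ (surv Q a R).card := by
          refine sum_le_sum fun a ha => ?_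
          have h1 : s < ((surv Q a R).card : ℝ) := (mem_filter.mp ha).2
          have h2 : (2 : ℝ) ^ (surv Q a R).card = Real.exp ((surv Q a R).card * Real.log 2) := by
            rw [Real.exp_nat_mul, Real.exp_log (by norm_num)]
          rw [h2, Real.exp_le_exp]
          exact mul_le_mul_of_nonneg_right h1.le (Real.log_nonneg (by norm_num))
      _ ≤ ∑ a ∈ range (∏ q ∈ Q, q), (2 : ℝ) ^ (surv Q a R).card :=
          sum_le_sum_of_subset_of_nonneg (filter_subset _ _) fun _ _ _ => by positivity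
  have hfin := hMk.trans hS
  rw [Real.exp_sub, ← mul_div_assoc, le_div_iff₀ (Real.exp_pos _)]
  exact hfin

end Pool.Agent.H1.Jac
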