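import Pool.Agent.H1.Jac.Pure
import Pool.Agent.H1.Jac.MertA
import Pool.Agent.H1.Jac.MertC
import Pool.Agent.H1.Jac.ConcU
import Pool.Agent.H1.Jac.ConcL
import Pool.Agent.H1.Jac.Small
import Pool.Agent.H1.Jac.Det
import Pool.Agent.H1.Jac.AsymA
import Pool.Agent.H1.Jac.AsymB

/-!
# The main estimate
-/

set_option autoImplicit false

namespace Pool.Agent.H1.Jac

open Finset Filter

lemma V_pos {Q : Finset ℕ} (hQ : ∀ q ∈ Q, q.Prime) : 0 < V Q := by
  refine prod_pos fun q hq => ?_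
  have h2 : (2 : ℝ) ≤ q := by exact_mod_cast (hQ q hq).two_le
  have : 1 / (q : ℝ) ≤ 1 / 2 := by
    apply one_div_le_one_div_of_le <;> linarith
  linarith

lemma V_le_one {Q : Finset ℕ} (hQ : ∀ q ∈ Q, q.Prime) : V Q ≤ 1 := by
  refine prod_le_one (fun q hq => ?_) (fun q hq => ?_)
  · have h2 : (2 : ℝ) ≤ q := by exact_mod_cast (hQ q hq).two_le
    have : 1 / (q : ℝ) ≤ 1 / 2 := by
      apply one_div_le_one_div_of_le <;> linarith
    linarith
  · have : 0 ≤ 1 / (q : ℝ) := by positivity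
    linarith

lemma AP_one (m c : ℕ) : AP m 1 c = range m := by
  unfold AP
  exact filter_true_of_mem fun i _ => one_dvd _

/-- The sieve by the small primes of `Q` is accurate. -/
lemma pure_acc {Q0 : Finset ℕ} (h0 : ∀ q ∈ Q0, q.Prime) {m p w : ℕ} (hp : 0 < p)
    (hpQ : ∀ q ∈ Q0, Nat.Coprime p q) (hw : ∀ q ∈ Q0, q ≤ w) {δ v X : ℝ} (hδ : 0 < δ) {r : ℕ}
    (hS : (∑ q ∈ Q0, 1 / (q : ℝ)) ^ (r + 1) / ((r + 1).factorial : ℝ) +
      (∑ q ∈ Q0, 1 / (q : ℝ)) ^ (r + 2) / ((r + 2).factorial : ℝ) ≤ δ / 2 * v)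
    (hX : ((w : ℝ) + 1) ^ (r + 1) ≤ δ / 2 * v * X) (hv0 : 0 < v) (hv : v ≤ V Q0)
    (hXm : X ≤ (m : ℝ) / p) (a c : ℕ) :
    |((surv Q0 a (AP m p c)).card : ℝ) - (m : ℝ) / p * V Q0| ≤ δ * ((m : ℝ) / p * V Q0) := by
  have h1 := pure_brun Q0 h0 m p c a r hp hpQ
  refine h1.trans ?_
  have hcard : (Q0.card : ℝ) ≤ w := by
    have : Q0 ⊆ Ioc 0 w := fun q hq => mem_Ioc.2 ⟨(h0 q hq).pos, hw q hq⟩
    have h2 := card_le_card this
    rw [Nat.card_Ioc, Nat.sub_zero] at h2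
    exact_mod_cast h2
  have h2 : ((Q0.card : ℝ) + 1) ^ (r + 1) ≤ ((w : ℝ) + 1) ^ (r + 1) := by
    gcongr
  have hh : 0 ≤ (m : ℝ) / p := by positivity
  have h3 : (m : ℝ) / p * ((∑ q ∈ Q0, 1 / (q : ℝ)) ^ (r + 1) / ((r + 1).factorial : ℝ) +
      (∑ q ∈ Q0, 1 / (q : ℝ)) ^ (r + 2) / ((r + 2).factorial : ℝ)) ≤
      (m : ℝ) / p * (δ / 2 * V Q0) := by
    refine mul_le_mul_of_nonneg_left (hS.trans ?_) hh
    exact mul_le_mul_of_nonneg_left hv (by positivity)
  have h4 : δ / 2 * v * X ≤ δ / 2 * V Q0 * ((m : ℝ) / p) := by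
    have h5 : δ / 2 * v * X ≤ δ / 2 * v * ((m : ℝ) / p) :=
      mul_le_mul_of_nonneg_left hXm (by positivity)
    have h6 : δ / 2 * v ≤ δ / 2 * V Q0 := mul_le_mul_of_nonneg_left hv (by positivity)
    exact h5.trans (mul_le_mul_of_nonneg_right h6 hh)
  linarith

/-- The exponent of the concentration inequality. -/
lemma exponent {δ h Vq w Λ K W c ℓ : ℝ} (hδ : 0 < δ) (hw : 0 < w) (hΛ : Λ * w ≤ h)
    (hVq : c / ℓ ≤ Vq) (hℓ : 0 < ℓ) (hc : 0 < c) (hK : 0 < K) (hW : W = 12 / (δ ^ 2 * c))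
    (hwW : W * K * ℓ ≤ w) (hh : 0 < h) (hΛ0 : 0 < Λ) :
    6 * K ≤ δ ^ 2 * (h * Vq) / (h / w + Λ) := by
  have h1 : Λ ≤ h / w := by rw [le_div_iff₀ hw]; exact hΛ
  have hB : h / w + Λ ≤ 2 * (h / w) := by linarith
  have hB0 : 0 < h / w + Λ := by positivity
  have hV0 : 0 < Vq := lt_of_lt_of_le (by positivity) hVq
  rw [le_div_iff₀ hB0]
  have h2 : 6 * K * (h / w + Λ) ≤ 6 * K * (2 * (h / w)) :=
    mul_le_mul_of_nonneg_left hB (by positivity)
  refine h2.trans ?_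
  have h3 : 12 * K ≤ δ ^ 2 * Vq * w := by
    have h4 : δ ^ 2 * (c / ℓ) * (W * K * ℓ) = 12 * K := by
      rw [hW]; field_simp
    rw [← h4]
    have h5 : δ ^ 2 * (c / ℓ) ≤ δ ^ 2 * Vq := mul_le_mul_of_nonneg_left hVq (by positivity)
    have h6 : 0 ≤ W * K * ℓ := by rw [hW]; positivity
    exact mul_le_mul h5 hwW h6 (by positivity)
  have h7 : 6 * K * (2 * (h / w)) = 12 * K * (h / w) := by ring
  rw [h7]
  calc 12 * K * (h / w) ≤ δ ^ 2 * Vq * w * (h / w) :=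
        mul_le_mul_of_nonneg_right h3 (by positivity)
    _ = δ ^ 2 * (h * Vq) := by field_simp

/-- the residues `a` modulo `∏ q ∈ Q, q` for which some integer `x ≡ a` begins an interval of `m`
integers, each of them divisible by a prime of `Q` or `E` -/
noncomputable def Bd (Q E : Finset ℕ) (m : ℕ) : Finset ℕ := by
  classical exact (range (∏ q ∈ Q, q)).filter (fun a => ∃ x : ℤ, (∀ q ∈ Q, (q : ℤ) ∣ x - a) ∧
    ∀ i < m, (∃ q ∈ Q, (q : ℤ) ∣ x + i) ∨ ∃ p ∈ E, (p : ℤ) ∣ x + i)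

lemma mem_Bd {Q E : Finset ℕ} {m a : ℕ} : a ∈ Bd Q E m ↔ a < ∏ q ∈ Q, q ∧
    ∃ x : ℤ, (∀ q ∈ Q, (q : ℤ) ∣ x - a) ∧
      ∀ i < m, (∃ q ∈ Q, (q : ℤ) ∣ x + i) ∨ ∃ p ∈ E, (p : ℤ) ∣ x + i := by
  classical
  unfold Bd
  rw [mem_filter, mem_range]

lemma union_bound (Q E : Finset ℕ) (hE : ∀ p ∈ E, 0 < p) (m : ℕ) (thr : ℕ → ℝ) (lo T : ℝ)
    (hT : 0 ≤ T)
    (hlo : (((range (∏ q ∈ Q, q)).filter
      (fun a => ((surv Q a (range m)).card : ℝ) < lo)).card : ℝ) ≤ T)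
    (hup : ∀ p ∈ E, p ≤ m → ∀ c, (((range (∏ q ∈ Q, q)).filter
      (fun a => thr p < ((surv Q a (AP m p c)).card : ℝ))).card : ℝ) ≤ T)
    (hbig : ∀ p ∈ E, m < p → 1 ≤ thr p) (hsum : ∑ p ∈ E, thr p < lo) :
    ((Bd Q E m).card : ℝ) ≤ T * (1 + E.card * m) := by
  classical
  set B0 := (range (∏ q ∈ Q, q)).filter (fun a => ((surv Q a (range m)).card : ℝ) < lo) with hB0
  set B1 : ℕ → ℕ → Finset ℕ := fun p c => (range (∏ q ∈ Q, q)).filter
      (fun a => thr p < ((surv Q a (AP m p c)).card : ℝ)) with hB1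
  set E1 := E.filter (fun p => p ≤ m) with hE1
  have hsub : Bd Q E m ⊆ B0 ∪ E1.biUnion (fun p => (range p).biUnion (fun c => B1 p c)) := by
    intro a ha
    rw [mem_Bd] at ha
    obtain ⟨haN, x, hxa, hcov⟩ := ha
    by_contra hcon
    rw [mem_union, not_or] at hcon
    obtain ⟨h1, h2⟩ := hcon
    have h3 : lo ≤ ((surv Q a (range m)).card : ℝ) := by
      by_contra h
      exact h1 (mem_filter.2 ⟨mem_range.2 haN, not_le.1 h⟩)
    have h4 := det Q E hE x m a hxa hcov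
    have h5 : ∀ p ∈ E, ((surv Q a (AP m p (x % p).toNat)).card : ℝ) ≤ thr p := by
      intro p hp
      by_cases hpm : p ≤ m
      · by_contra h
        apply h2
        rw [mem_biUnion]
        refine ⟨p, mem_filter.2 ⟨hp, hpm⟩, ?_⟩
        rw [mem_biUnion]
        have hp0 : (0 : ℤ) < p := by exact_mod_cast hE p hp
        have h6 := Int.emod_lt_of_pos x hp0
        have h7 := Int.emod_nonneg x hp0.ne'
        refine ⟨(x % p).toNat, mem_range.2 (by omega), ?_⟩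
        exact mem_filter.2 ⟨mem_range.2 haN, not_le.1 h⟩
      · have h6 : (surv Q a (AP m p (x % p).toNat)).card ≤ 1 := by
          refine (card_le_card (filter_subset _ _)).trans ?_
          rw [card_le_one]
          intro i hi j hj
          unfold AP at hi hj
          rw [mem_filter, mem_range] at hi hj
          have h8 : (p : ℤ) ∣ (i : ℤ) - j := by
            have e1 : (p : ℤ) ∣ (((x % p).toNat + i : ℕ) : ℤ) := by exact_mod_cast hi.2
            have e2 : (p : ℤ) ∣ (((x % p).toNat + j : ℕ) : ℤ) := by exact_mod_cast hj.2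
            have e3 := dvd_sub e1 e2
            push_cast at e3
            have e4 : ((x % p).toNat : ℤ) + i - (((x % p).toNat : ℤ) + j) = (i : ℤ) - j := by ring
            rwa [e4] at e3
          have h9 : (i : ℤ) - j = 0 := by
            refine Int.eq_zero_of_abs_lt_dvd h8 ?_
            rw [abs_lt]
            omega
          omega
        have h7 := hbig p hp (by omega)
        have h8 : ((surv Q a (AP m p (x % p).toNat)).card : ℝ) ≤ 1 := by exact_mod_cast h6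
        exact h8.trans h7
    have h6 : ((surv Q a (range m)).card : ℝ) ≤
        ∑ p ∈ E, ((surv Q a (AP m p (x % p).toNat)).card : ℝ) := by
      exact_mod_cast h4
    have h7 := sum_le_sum h5
    linarith
  have h1 := (card_le_card hsub).trans (card_union_le _ _)
  have h2 : ((E1.biUnion (fun p => (range p).biUnion (fun c => B1 p c))).card : ℝ) ≤
      T * (E.card * m) := by
    have h3 : ((E1.biUnion (fun p => (range p).biUnion (fun c => B1 p c))).card : ℝ) ≤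
        ∑ p ∈ E1, ∑ c ∈ range p, ((B1 p c).card : ℝ) := by
      have h4 : (E1.biUnion (fun p => (range p).biUnion (fun c => B1 p c))).card ≤
          ∑ p ∈ E1, ∑ c ∈ range p, (B1 p c).card :=
        card_biUnion_le.trans (sum_le_sum fun p _ => card_biUnion_le)
      exact_mod_cast h4
    refine h3.trans ?_
    have h5 : ∀ p ∈ E1, ∑ c ∈ range p, ((B1 p c).card : ℝ) ≤ m * T := by
      intro p hp
      rw [hE1, mem_filter] at hp
      have h6 : ∑ c ∈ range p, ((B1 p c).card : ℝ) ≤ ∑ _c ∈ range p, T :=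
        sum_le_sum fun c _ => hup p hp.1 hp.2 c
      refine h6.trans ?_
      rw [sum_const, card_range, nsmul_eq_mul]
      exact mul_le_mul_of_nonneg_right (by exact_mod_cast hp.2) hT
    refine (sum_le_sum h5).trans ?_
    rw [sum_const, nsmul_eq_mul]
    have h6 : (E1.card : ℝ) ≤ E.card := by exact_mod_cast card_le_card (filter_subset _ _)
    have h7 : 0 ≤ (m : ℝ) * T := by positivity
    calc (E1.card : ℝ) * (m * T) ≤ E.card * (m * T) := mul_le_mul_of_nonneg_right h6 h7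
      _ = T * (E.card * m) := by ring
  have h3 : ((Bd Q E m).card : ℝ) ≤ (B0.card : ℝ) +
      ((E1.biUnion (fun p => (range p).biUnion (fun c => B1 p c))).card : ℝ) := by
    exact_mod_cast h1
  nlinarith

/-- the last inequality -/
lemma final_ineq {ε δ C0 C4 C6 lL lℓ ℓ K k M v v2 S S' : ℝ} (hε : 0 < ε)
    (hδ : δ = ε / 20) (hC0 : C0 = 96 / ε) (hC4 : 0 < C4) (hℓ : 1 ≤ ℓ)
    (hK : ℓ ≤ K) (hk : 0 < k) (hM : 0 < M) (hv : 0 < v) (hv1 : v ≤ 1) (hlL : 0 ≤ lL)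
    (hlℓ : 0 ≤ lℓ) (hv2 : v2 ≤ C4 * lL * v) (hS : S ≤ 1 - ε) (hS'0 : 0 ≤ S')
    (hS' : S' ≤ C6 * (lL + lℓ + 1) / ℓ) (hkM : C0 * k * K ≤ M * v)
    (has : 2 * C4 * C6 * lL * (lL + lℓ + 1) / ℓ + 2 * C4 / C0 * lL / ℓ ≤ ε / 8) :
    (1 + 5 * δ) * (M * v) * S + 2 * (v2 * (M * S' + k) + 6 * K * k) < (1 - 5 * δ) * (M * v) := by
  have hMv : 0 < M * v := by positivity
  have hC0p : 0 < C0 := by rw [hC0]; positivity
  have h1 : v2 * (M * S' + k) ≤ C4 * lL * v * (M * S' + k) :=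
    mul_le_mul_of_nonneg_right hv2 (by positivity)
  have h2 : C4 * lL * v * (M * S') ≤ C4 * lL * v * (M * (C6 * (lL + lℓ + 1) / ℓ)) := by
    refine mul_le_mul_of_nonneg_left (mul_le_mul_of_nonneg_left hS' hM.le) (by positivity)
  have h3 : C4 * lL * v * k ≤ C4 / C0 * lL / ℓ * (M * v) := by
    have e1 : C4 * lL * v * k ≤ C4 * lL * k := by
      have : 0 ≤ C4 * lL * k := by positivity
      nlinarith
    have e2 : C0 * k * ℓ ≤ M * v := by
      refine le_trans ?_ hkM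
      exact mul_le_mul_of_nonneg_left hK (by positivity)
    have e3 : C4 * lL * k = C4 / C0 * lL / ℓ * (C0 * k * ℓ) := by field_simp
    rw [e3] at e1
    exact e1.trans (mul_le_mul_of_nonneg_left e2 (by positivity))
  have h4 : 12 * K * k ≤ ε / 8 * (M * v) := by
    have e1 : 12 * K * k = ε / 8 * (C0 * k * K) := by rw [hC0]; field_simp; ring
    rw [e1]
    exact mul_le_mul_of_nonneg_left hkM (by positivity)
  have h5 : C4 * lL * v * (M * (C6 * (lL + lℓ + 1) / ℓ)) =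
      C4 * C6 * lL * (lL + lℓ + 1) / ℓ * (M * v) := by ring
  have h6 : 2 * (v2 * (M * S' + k) + 6 * K * k) ≤ ε / 4 * (M * v) := by
    have e1 : 2 * (v2 * (M * S' + k)) ≤
        (2 * C4 * C6 * lL * (lL + lℓ + 1) / ℓ + 2 * C4 / C0 * lL / ℓ) * (M * v) := by
      have e2 : (2 * C4 * C6 * lL * (lL + lℓ + 1) / ℓ + 2 * C4 / C0 * lL / ℓ) * (M * v) =
          2 * (C4 * C6 * lL * (lL + lℓ + 1) / ℓ * (M * v)) +
          2 * (C4 / C0 * lL / ℓ * (M * v)) := by ring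
      rw [e2]
      nlinarith
    have e3 := mul_le_mul_of_nonneg_right has hMv.le
    linarith
  have h7 : (1 + 5 * δ) * (M * v) * S ≤ (1 + 5 * δ) * (M * v) * (1 - ε) := by
    refine mul_le_mul_of_nonneg_left hS ?_
    rw [hδ]; positivity
  have h8 : (1 + 5 * δ) * (M * v) * (1 - ε) + ε / 4 * (M * v) < (1 - 5 * δ) * (M * v) := by
    rw [hδ]
    have : 0 < ε * (M * v) := by positivity
    nlinarith [mul_pos hε this]
  linarith

end Pool.Agent.H1.Jac
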