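import Pool.Agent.H1.Jac.Cnt
import Pool.Agent.H1.Jac.MertA
import Pool.Agent.H24.KS.AbSieve

/-!
# Upper bound sieve for progressions

Part of `MP_4e17b9_nt`. Apply `Pool.Agent.H24.KS.absieve` with `κ = 1`, `c = 0`, `S := AP m p c`,
`P := Q.erase 2`, `E q i := q ∣ a + i`, `δ q := 1 / q`, `G := 1`, `N := m / p`, `E0 := 1`; the
hypothesis on the counts is `cnt` (divide: `m / (p ∏ q) = m / p ∏ (1/q)`). Choose `K` with
`bb K ≤ y < bb (K + 1)` (`bb K = 2 ^ (2 ^ K)`, so `bb (K + 1) = (bb K) ^ 2 ≤ y ^ 2`); the primes of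
`P` are at most `bb (K + 1)` and the error term is at most `(y ^ 2) ^ 16 = y ^ 32`.
Main term: `exp (- ∑_{q ∈ P} 1/q) ≤ exp (1/2) exp (- ∑_{q ∈ Q} 1/q) ≤ C (V Q)`, as
`1 - x ≥ exp (- x - x ^ 2)` for `x ≤ 1/2` (see `exp_le_one_sub` in `MertA`) and `∑ 1/q ^ 2 ≤ 1`
(see `sum_sq_le` in `MertA`). Error term: by `V_ge` with `k := max 3 y` (`Q.card ≤ y`, as `Q` is a
set of primes up to `y`), `V Q ≥ c / log (max 3 y) ≥ c / (2 y)`, hence
`y ^ 32 ≤ (2 / c) y ^ 33 (V Q) ≤ (2 / c) (m / p) (V Q)`: `N = 33` works.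
-/

set_option autoImplicit false

namespace Pool.Agent.H1.Jac

open Finset

private lemma exp_le_one_sub' {t : ℝ} (h0 : 0 ≤ t) (h1 : t ≤ 1 / 2) :
    Real.exp (-(t + t ^ 2)) ≤ 1 - t := by
  have hx : 0 ≤ t + t ^ 2 := by positivity
  have h2 := Real.quadratic_le_exp_of_nonneg hx
  have h3 : 1 ≤ (1 - t) * (1 + (t + t ^ 2) + (t + t ^ 2) ^ 2 / 2) := by
    have h4 : (1 - t) * (1 + (t + t ^ 2) + (t + t ^ 2) ^ 2 / 2) =
        1 + t ^ 2 * (1 - t - t ^ 2 - t ^ 3) / 2 := by ring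
    have h5 : 0 ≤ 1 - t - t ^ 2 - t ^ 3 := by
      have h6 : t ^ 2 ≤ (1 / 2) ^ 2 := pow_le_pow_left₀ h0 h1 2
      have h7 : t ^ 3 ≤ (1 / 2) ^ 3 := pow_le_pow_left₀ h0 h1 3
      linarith
    rw [h4]
    have h8 : 0 ≤ t ^ 2 * (1 - t - t ^ 2 - t ^ 3) / 2 := by positivity
    linarith
  have h9 : 1 ≤ (1 - t) * Real.exp (t + t ^ 2) :=
    h3.trans (mul_le_mul_of_nonneg_left h2 (by linarith))
  rw [Real.exp_neg, inv_le_iff_one_le_mul₀ (Real.exp_pos _)]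
  exact h9

private lemma sum_sq_le' (Q : Finset ℕ) : ∑ q ∈ Q, (1 / (q : ℝ)) ^ 2 ≤ 2 := by
  have h1 : ∑ q ∈ Q, (1 : ℝ) / (q : ℝ) ^ 2 ≤ Real.pi ^ 2 / 6 :=
    sum_le_hasSum Q (fun _ _ => by positivity) hasSum_zeta_two
  have h2 : ∑ q ∈ Q, (1 / (q : ℝ)) ^ 2 = ∑ q ∈ Q, (1 : ℝ) / (q : ℝ) ^ 2 :=
    sum_congr rfl fun q _ => by rw [div_pow, one_pow]
  rw [h2]
  have h3 := Real.pi_lt_d2
  have h4 := Real.pi_pos
  nlinarith

private lemma exists_bb (y : ℕ) (hy : 2 ≤ y) :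
    ∃ K : ℕ, y ≤ Pool.Agent.H95.Gol.bb K ∧ Pool.Agent.H95.Gol.bb K ≤ y ^ 2 := by
  have hex : ∃ K : ℕ, y ≤ Pool.Agent.H95.Gol.bb K := by
    refine ⟨y, ?_⟩
    unfold Pool.Agent.H95.Gol.bb
    have h1 : y < 2 ^ y := Nat.lt_two_pow_self
    have h2 : 2 ^ y < 2 ^ (2 ^ y) := Nat.lt_two_pow_self
    omega
  classical
  refine ⟨Nat.find hex, Nat.find_spec hex, ?_⟩
  rcases Nat.eq_zero_or_pos (Nat.find hex) with h0 | h0
  · rw [h0]
    have : Pool.Agent.H95.Gol.bb 0 = 2 := by unfold Pool.Agent.H95.Gol.bb; norm_num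
    rw [this]
    nlinarith
  · obtain ⟨k, hk⟩ : ∃ k, Nat.find hex = k + 1 := ⟨Nat.find hex - 1, by omega⟩
    have hlt : Pool.Agent.H95.Gol.bb k < y := by
      have := Nat.find_min hex (m := k) (by omega)
      omega
    rw [hk]
    have h3 : Pool.Agent.H95.Gol.bb (k + 1) = (Pool.Agent.H95.Gol.bb k) ^ 2 := by
      unfold Pool.Agent.H95.Gol.bb
      rw [← pow_mul, pow_succ]
    rw [h3]
    exact Nat.pow_le_pow_left hlt.le 2

theorem sieveU : ∃ C : ℝ, 0 < C ∧ ∃ N : ℕ, 1 ≤ N ∧ ∀ y : ℕ, 2 ≤ y → ∀ Q : Finset ℕ,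
    (∀ q ∈ Q, q.Prime) → (∀ q ∈ Q, q ≤ y) → ∀ m p c a : ℕ, 0 < p →
    (∀ q ∈ Q, Nat.Coprime p q) → (y : ℝ) ^ N ≤ (m : ℝ) / p →
    ((surv Q a (AP m p c)).card : ℝ) ≤ C * ((m : ℝ) / p * V Q) := by
  classical
  obtain ⟨C0, hC0, hs⟩ := Pool.Agent.H24.KS.absieve 1 0
  obtain ⟨c0, hc0, hV⟩ := V_ge
  refine ⟨C0 * Real.exp (5 / 2) + 2 / c0, by positivity, 33, by norm_num, ?_⟩
  intro y hy Q hQ hQy m p c a hp hpQ hm
  obtain ⟨K, hK1, hK2⟩ := exists_bb y hy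
  have hy0 : (2 : ℝ) ≤ y := by exact_mod_cast hy
  have hyp : (0 : ℝ) < y := by linarith
  have hM : (0 : ℝ) ≤ (m : ℝ) / p := by positivity
  -- the sieve
  have h1 := hs (AP m p c) (Q.erase 2) K (fun q i => q ∣ a + i) (fun q => 1 / (q : ℝ))
    (fun _ => 1) ((m : ℝ) / p) 1 hM zero_le_one
    (by
      intro q hq
      have hq' := mem_of_mem_erase hq
      have hq2 := ne_of_mem_erase hq
      have h2 := (hQ q hq').two_le
      exact ⟨hQ q hq', by omega, (hQy q hq').trans hK1⟩)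
    (by
      intro q hq
      have hq' := mem_of_mem_erase hq
      have hq1 : (1 : ℝ) ≤ q := by exact_mod_cast (hQ q hq').one_lt.le
      refine ⟨by positivity, ?_, ?_⟩
      · rw [div_le_one (by linarith)]
        exact hq1
      · simp)
    (by
      intro q hq
      simp)
    (by
      intro D hD
      have hD' : ∀ q ∈ D, q ∈ Q := fun q hq => mem_of_mem_erase (hD hq)
      have h2 := cnt m p c a hp D (fun q hq => hQ q (hD' q hq)) (fun q hq => hpQ q (hD' q hq))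
      have h3 : (m : ℝ) / (p * ∏ q ∈ D, (q : ℝ)) = (m : ℝ) / p * ∏ q ∈ D, (1 / (q : ℝ)) := by
        rw [prod_div_distrib, prod_const_one, ← div_div, mul_one_div]
      rw [h3] at h2
      have h2' : |(((AP m p c).filter (fun i => ∀ q ∈ D, q ∣ a + i)).card : ℝ) -
          (m : ℝ) / p * ∏ q ∈ D, (1 / (q : ℝ))| ≤ 1 * ∏ _q ∈ D, (1 : ℝ) := by
        rw [prod_const_one, mul_one]
        exact h2
      convert h2' using 6)
  have hsub : surv Q a (AP m p c) ⊆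
      (AP m p c).filter (fun i => ∀ q ∈ Q.erase 2, ¬ q ∣ a + i) := by
    intro i hi
    unfold surv at hi
    rw [mem_filter] at hi ⊢
    exact ⟨hi.1, fun q hq => hi.2 q (mem_of_mem_erase hq)⟩
  have h4 : ((surv Q a (AP m p c)).card : ℝ) ≤
      (((AP m p c).filter (fun i => ∀ q ∈ Q.erase 2, ¬ q ∣ a + i)).card : ℝ) := by
    exact_mod_cast card_le_card hsub
  -- main term
  have hsum : ∑ q ∈ Q, 1 / (q : ℝ) ≤ ∑ q ∈ Q.erase 2, 1 / (q : ℝ) + 1 / 2 := by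
    by_cases h2 : 2 ∈ Q
    · rw [← sum_erase_add Q _ h2]
      norm_num
    · rw [erase_eq_of_notMem h2]
      linarith
  have h5 : Real.exp (∑ q ∈ Q, -(1 / (q : ℝ) + (1 / (q : ℝ)) ^ 2)) ≤ V Q := by
    rw [Real.exp_sum]
    unfold V
    refine prod_le_prod (fun _ _ => (Real.exp_pos _).le) fun q hq => ?_
    have hq2 : (2 : ℝ) ≤ q := by exact_mod_cast (hQ q hq).two_le
    refine exp_le_one_sub' (by positivity) ?_
    exact one_div_le_one_div_of_le (by norm_num) hq2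
  have h6 : Real.exp (-∑ q ∈ Q.erase 2, 1 / (q : ℝ)) ≤ Real.exp (5 / 2) * V Q := by
    have h7 := sum_sq_le' Q
    have h8 : Real.exp (-∑ q ∈ Q.erase 2, 1 / (q : ℝ)) ≤
        Real.exp (5 / 2) * Real.exp (∑ q ∈ Q, -(1 / (q : ℝ) + (1 / (q : ℝ)) ^ 2)) := by
      rw [← Real.exp_add]
      refine Real.exp_le_exp.2 ?_
      rw [sum_neg_distrib, sum_add_distrib]
      linarith
    exact h8.trans (mul_le_mul_of_nonneg_left h5 (Real.exp_pos _).le)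
  -- error term
  have hk3 : 3 ≤ max 3 y := le_max_left _ _
  have hcard : Q.card ≤ max 3 y := by
    have hsub2 : Q ⊆ Ioc 0 y := by
      intro q hq
      rw [mem_Ioc]
      exact ⟨(hQ q hq).pos, hQy q hq⟩
    have h9 := card_le_card hsub2
    rw [Nat.card_Ioc] at h9
    have := le_max_right 3 y
    omega
  have h10 := hV (max 3 y) hk3 Q hQ hcard
  have hk1 : (1 : ℝ) < ((max 3 y : ℕ) : ℝ) := by
    exact_mod_cast (by omega : 1 < max 3 y)
  have hlk : 0 < Real.log ((max 3 y : ℕ) : ℝ) := Real.log_pos hk1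
  have hlk2 : Real.log ((max 3 y : ℕ) : ℝ) ≤ 2 * y := by
    have h11 := Real.log_le_sub_one_of_pos (x := ((max 3 y : ℕ) : ℝ)) (by linarith)
    have h12 : ((max 3 y : ℕ) : ℝ) ≤ 2 * y := by
      have : max 3 y ≤ 2 * y := by
        rcases le_total 3 y with h | h
        · rw [max_eq_right h]; omega
        · rw [max_eq_left h]; omega
      exact_mod_cast this
    linarith
  have h13 : c0 / (2 * y) ≤ V Q := by
    refine le_trans ?_ h10
    exact div_le_div_of_nonneg_left hc0.le hlk hlk2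
  have h14 : (1 : ℝ) / y ≤ 2 / c0 * V Q := by
    have h15 : (1 : ℝ) / y = 2 / c0 * (c0 / (2 * y)) := by
      field_simp
    rw [h15]
    exact mul_le_mul_of_nonneg_left h13 (by positivity)
  have h16 : ((Pool.Agent.H95.Gol.bb K : ℕ) : ℝ) ^ (8 * (0 + 2)) ≤ (m : ℝ) / p * (2 / c0 * V Q) := by
    have h17 : ((Pool.Agent.H95.Gol.bb K : ℕ) : ℝ) ≤ (y : ℝ) ^ 2 := by exact_mod_cast hK2
    have h18 : ((Pool.Agent.H95.Gol.bb K : ℕ) : ℝ) ^ (8 * (0 + 2)) ≤ ((y : ℝ) ^ 2) ^ (8 * (0 + 2)) :=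
      pow_le_pow_left₀ (by positivity) h17 _
    have h19 : ((y : ℝ) ^ 2) ^ (8 * (0 + 2)) = (y : ℝ) ^ 33 * (1 / y) := by
      rw [← pow_mul]
      field_simp
    calc ((Pool.Agent.H95.Gol.bb K : ℕ) : ℝ) ^ (8 * (0 + 2)) ≤ (y : ℝ) ^ 33 * (1 / y) := by
          rw [← h19]; exact h18
      _ ≤ (m : ℝ) / p * (1 / y) := mul_le_mul_of_nonneg_right hm (by positivity)
      _ ≤ (m : ℝ) / p * (2 / c0 * V Q) := mul_le_mul_of_nonneg_left h14 hM
  have h20 : C0 * ((m : ℝ) / p) * Real.exp (-∑ q ∈ Q.erase 2, 1 / (q : ℝ)) ≤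
      C0 * ((m : ℝ) / p) * (Real.exp (5 / 2) * V Q) :=
    mul_le_mul_of_nonneg_left h6 (by positivity)
  calc ((surv Q a (AP m p c)).card : ℝ)
      ≤ C0 * ((m : ℝ) / p) * Real.exp (-∑ q ∈ Q.erase 2, 1 / (q : ℝ)) +
        1 * ((Pool.Agent.H95.Gol.bb K : ℕ) : ℝ) ^ (8 * (0 + 2)) := by
        refine h4.trans (le_trans (le_of_eq ?_) h1)
        congr 2
        ext i
        simp only [mem_filter]
    _ ≤ C0 * ((m : ℝ) / p) * (Real.exp (5 / 2) * V Q) + (m : ℝ) / p * (2 / c0 * V Q) := by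
        rw [one_mul]
        exact add_le_add h20 h16
    _ = (C0 * Real.exp (5 / 2) + 2 / c0) * ((m : ℝ) / p * V Q) := by ring

end Pool.Agent.H1.Jac
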