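import Pool.Agent.H1.Jac.Main
import Pool.Agent.H1.Jac.SieveU

/-!
# The improved main estimate: union bound, classes of the largest primes, last inequality
-/

set_option autoImplicit false

namespace Pool.Agent.H1.Jac

open Finset Filter

lemma union_bound_two (Q E : Finset ℕ) (hE : ∀ p ∈ E, 0 < p) (m : ℕ) (thr : ℕ → ℝ) (lo T : ℝ)
    (hT : 0 ≤ T)
    (hlo : (((range (∏ q ∈ Q, q)).filter
      (fun a => ((surv Q a (range m)).card : ℝ) < lo)).card : ℝ) ≤ T)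
    (hup : ∀ p ∈ E, (∀ a c, ((surv Q a (AP m p c)).card : ℝ) ≤ thr p) ∨
      (p ≤ m ∧ ∀ c, (((range (∏ q ∈ Q, q)).filter
      (fun a => thr p < ((surv Q a (AP m p c)).card : ℝ))).card : ℝ) ≤ T))
    (hsum : ∑ p ∈ E, thr p < lo) :
    ((Bd Q E m).card : ℝ) ≤ T * (1 + E.card * m) := by
  classical
  set B0 := (range (∏ q ∈ Q, q)).filter (fun a => ((surv Q a (range m)).card : ℝ) < lo) with hB0
  set B1 : ℕ → ℕ → Finset ℕ := fun p c => (range (∏ q ∈ Q, q)).filter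
      (fun a => thr p < ((surv Q a (AP m p c)).card : ℝ)) with hB1
  set E1 := E.filter (fun p => ¬ ∀ a c, ((surv Q a (AP m p c)).card : ℝ) ≤ thr p) with hE1
  have hE1m : ∀ p ∈ E1, p ≤ m ∧ ∀ c, ((B1 p c).card : ℝ) ≤ T := by
    intro p hp
    rw [hE1, mem_filter] at hp
    rcases hup p hp.1 with h | h
    · exact absurd h hp.2
    · exact h
  have hsub : Bd Q E m ⊆ B0 ∪ E1.biUnion (fun p => (range p).biUnion (fun c => B1 p c)) := by
    intro a ha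
    rw [mem_Bd] at ha
    obtain ⟨haN, x, hxa, hcov⟩ := ha
    by_contra hcon
    rw [mem_union, not_or] at hcon
    obtain ⟨h1, h2⟩ := hcon
    have h3 : lo ≤ ((surv Q a (range m)).card : ℝ) := by
      by_contra h
      exact h1 (mem_filter.2 ⟨mem_range.2 haN, not_le.1 h⟩)
    have h4 := det Q E hE x m a hxa hcov
    have h5 : ∀ p ∈ E, ((surv Q a (AP m p (x % p).toNat)).card : ℝ) ≤ thr p := by
      intro p hp
      by_cases hpm : ∀ a c, ((surv Q a (AP m p c)).card : ℝ) ≤ thr p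
      · exact hpm _ _
      · by_contra h
        apply h2
        rw [mem_biUnion]
        refine ⟨p, mem_filter.2 ⟨hp, hpm⟩, ?_⟩
        rw [mem_biUnion]
        have hp0 : (0 : ℤ) < p := by exact_mod_cast hE p hp
        have h6 := Int.emod_lt_of_pos x hp0
        have h7 := Int.emod_nonneg x hp0.ne'
        refine ⟨(x % p).toNat, mem_range.2 (by omega), ?_⟩
        exact mem_filter.2 ⟨mem_range.2 haN, not_le.1 h⟩
    have h6 : ((surv Q a (range m)).card : ℝ) ≤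
        ∑ p ∈ E, ((surv Q a (AP m p (x % p).toNat)).card : ℝ) := by
      exact_mod_cast h4
    have h7 := sum_le_sum h5
    linarith
  have h1 := (card_le_card hsub).trans (card_union_le _ _)
  have h2 : ((E1.biUnion (fun p => (range p).biUnion (fun c => B1 p c))).card : ℝ) ≤
      T * (E.card * m) := by
    have h3 : ((E1.biUnion (fun p => (range p).biUnion (fun c => B1 p c))).card : ℝ) ≤
        ∑ p ∈ E1, ∑ c ∈ range p, ((B1 p c).card : ℝ) := by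
      have h4 : (E1.biUnion (fun p => (range p).biUnion (fun c => B1 p c))).card ≤
          ∑ p ∈ E1, ∑ c ∈ range p, (B1 p c).card :=
        card_biUnion_le.trans (sum_le_sum fun p _ => card_biUnion_le)
      exact_mod_cast h4
    refine h3.trans ?_
    have h5 : ∀ p ∈ E1, ∑ c ∈ range p, ((B1 p c).card : ℝ) ≤ m * T := by
      intro p hp
      obtain ⟨hpm, hc⟩ := hE1m p hp
      have h6 : ∑ c ∈ range p, ((B1 p c).card : ℝ) ≤ ∑ _c ∈ range p, T :=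
        sum_le_sum fun c _ => hc c
      refine h6.trans ?_
      rw [sum_const, card_range, nsmul_eq_mul]
      exact mul_le_mul_of_nonneg_right (by exact_mod_cast hpm) hT
    refine (sum_le_sum h5).trans ?_
    rw [sum_const, nsmul_eq_mul]
    have h6 : (E1.card : ℝ) ≤ E.card := by exact_mod_cast card_le_card (filter_subset _ _)
    have h7 : 0 ≤ (m : ℝ) * T := by positivity
    calc (E1.card : ℝ) * (m * T) ≤ E.card * (m * T) := mul_le_mul_of_nonneg_right h6 h7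
      _ = T * (E.card * m) := by ring
  have h3 : ((Bd Q E m).card : ℝ) ≤ (B0.card : ℝ) +
      ((E1.biUnion (fun p => (range p).biUnion (fun c => B1 p c))).card : ℝ) := by
    exact_mod_cast h1
  nlinarith

/-- Deterministic bound for the classes of the largest primes. -/
lemma det_big {C : ℝ} {N : ℕ} (hs : ∀ y : ℕ, 2 ≤ y → ∀ Q : Finset ℕ,
    (∀ q ∈ Q, q.Prime) → (∀ q ∈ Q, q ≤ y) → ∀ m p c a : ℕ, 0 < p →
    (∀ q ∈ Q, Nat.Coprime p q) → (y : ℝ) ^ N ≤ (m : ℝ) / p →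
    ((surv Q a (AP m p c)).card : ℝ) ≤ C * ((m : ℝ) / p * V Q))
    {Q : Finset ℕ} (hQ : ∀ q ∈ Q, q.Prime) {m p y : ℕ} (hy : 2 ≤ y) (hp : 0 < p)
    (hpQ : ∀ q ∈ Q, Nat.Coprime p q) (a c : ℕ) :
    ((surv Q a (AP m p c)).card : ℝ) ≤
      C * V (Q.filter (fun q => ¬ y < q)) * ((m : ℝ) * (1 / (p : ℝ)) + (y : ℝ) ^ N) := by
  have hp0 : (0 : ℝ) < p := by exact_mod_cast hp
  have h1 := hs y hy (Q.filter (fun q => ¬ y < q)) (fun q hq => hQ q (mem_filter.1 hq).1)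
    (fun q hq => by have := (mem_filter.1 hq).2; omega) (m + p * y ^ N) p c a hp
    (fun q hq => hpQ q (mem_filter.1 hq).1) (by
      rw [le_div_iff₀ hp0]
      push_cast
      have : (0 : ℝ) ≤ m := Nat.cast_nonneg m
      linarith)
  have h2 : surv Q a (AP m p c) ⊆
      surv (Q.filter (fun q => ¬ y < q)) a (AP (m + p * y ^ N) p c) := by
    intro i hi
    unfold surv AP at hi ⊢
    rw [mem_filter, mem_filter, mem_range] at hi ⊢
    refine ⟨⟨by omega, hi.1.2⟩, fun q hq => hi.2 q (mem_filter.1 hq).1⟩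
  have h3 : ((surv Q a (AP m p c)).card : ℝ) ≤
      ((surv (Q.filter (fun q => ¬ y < q)) a (AP (m + p * y ^ N) p c)).card : ℝ) := by
    exact_mod_cast card_le_card h2
  refine h3.trans (h1.trans (le_of_eq ?_))
  push_cast
  field_simp

/-- the thresholds for the number of survivors in the classes modulo `p` -/
noncomputable def thrF (A1 v2 K D y0 y2 : ℝ) (m L p : ℕ) : ℝ :=
  if p * L ≤ m then A1 * (1 / (p : ℝ)) else
    if (p : ℝ) ≤ y2 then (v2 * ((m : ℝ) / p + 1) + 6 * K) / Real.log 2 else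
    D * ((m : ℝ) * (1 / (p : ℝ)) + y0)

lemma thrF_le {A1 v2 K D y0 y2 : ℝ} {m L p : ℕ} (hA1 : 0 ≤ A1) (hv2 : 0 ≤ v2) (hK : 0 ≤ K)
    (hD : 0 ≤ D) (hy0 : 0 ≤ y0) :
    thrF A1 v2 K D y0 y2 m L p ≤ A1 * (1 / (p : ℝ)) +
      (if ¬ p * L ≤ m then 2 * (v2 * ((m : ℝ) * (1 / (p : ℝ)) + 1)) else 0) +
      (if (p : ℝ) ≤ y2 then 12 * K else 0) +
      (if ¬ (p : ℝ) ≤ y2 then D * ((m : ℝ) * (1 / (p : ℝ)) + y0) else 0) := by
  have hl2 : 1 / 2 ≤ Real.log 2 := by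
    have := Real.log_two_gt_d9
    linarith
  have hl2' : 0 < Real.log 2 := by linarith
  have f1 : 0 ≤ A1 * (1 / (p : ℝ)) := by positivity
  have f2 : (0 : ℝ) ≤ if (p : ℝ) ≤ y2 then 12 * K else 0 := by
    split_ifs <;> positivity
  have f3 : (0 : ℝ) ≤ if ¬ (p : ℝ) ≤ y2 then D * ((m : ℝ) * (1 / (p : ℝ)) + y0) else 0 := by
    split_ifs <;> positivity
  have f4 : (0 : ℝ) ≤ if ¬ p * L ≤ m then 2 * (v2 * ((m : ℝ) * (1 / (p : ℝ)) + 1)) else 0 := by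
    split_ifs <;> positivity
  by_cases hpL : p * L ≤ m
  · have ht : thrF A1 v2 K D y0 y2 m L p = A1 * (1 / (p : ℝ)) := if_pos hpL
    rw [ht]
    linarith
  · by_cases hpy : (p : ℝ) ≤ y2
    · have ht : thrF A1 v2 K D y0 y2 m L p = (v2 * ((m : ℝ) / p + 1) + 6 * K) / Real.log 2 := by
        unfold thrF; rw [if_neg hpL, if_pos hpy]
      have h3 : (v2 * ((m : ℝ) / p + 1) + 6 * K) / Real.log 2 ≤
          2 * (v2 * ((m : ℝ) * (1 / (p : ℝ)) + 1)) + 12 * K := by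
        rw [div_le_iff₀ hl2']
        have h4 : (m : ℝ) * (1 / (p : ℝ)) = (m : ℝ) / p := by ring
        rw [h4]
        have h5 : 0 ≤ v2 * ((m : ℝ) / p + 1) + 6 * K := by positivity
        nlinarith
      rw [ht, if_pos hpL, if_pos hpy]
      linarith
    · have ht : thrF A1 v2 K D y0 y2 m L p = D * ((m : ℝ) * (1 / (p : ℝ)) + y0) := by
        unfold thrF; rw [if_neg hpL, if_neg hpy]
      rw [ht, if_pos hpy]
      linarith

lemma thrF_sum {A1 v2 K D y0 y2 : ℝ} {m L k : ℕ} (hA1 : 0 ≤ A1) (hv2 : 0 ≤ v2) (hK : 0 ≤ K)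
    (hD : 0 ≤ D) (hy0 : 0 ≤ y0) (E : Finset ℕ) (hE : E.card ≤ k) :
    ∑ p ∈ E, thrF A1 v2 K D y0 y2 m L p ≤ A1 * (∑ p ∈ E, 1 / (p : ℝ)) +
      2 * (v2 * ((m : ℝ) * (∑ p ∈ E.filter (fun p => ¬ p * L ≤ m), 1 / (p : ℝ)) + k) +
        6 * K * (E.filter (fun p : ℕ => (p : ℝ) ≤ y2)).card) +
      D * ((m : ℝ) * (∑ p ∈ E.filter (fun p : ℕ => ¬ (p : ℝ) ≤ y2), 1 / (p : ℝ)) + k * y0) := by
  refine (sum_le_sum fun p _ => thrF_le (y2 := y2) (m := m) (L := L) (p := p) hA1 hv2 hK hD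
    hy0).trans ?_
  rw [sum_add_distrib, sum_add_distrib, sum_add_distrib, ← mul_sum, ← sum_filter, ← sum_filter,
    ← sum_filter]
  have e1 : ∑ p ∈ E.filter (fun p => ¬ p * L ≤ m), 2 * (v2 * ((m : ℝ) * (1 / (p : ℝ)) + 1)) ≤
      2 * (v2 * ((m : ℝ) * (∑ p ∈ E.filter (fun p => ¬ p * L ≤ m), 1 / (p : ℝ)) + k)) := by
    rw [← mul_sum, ← mul_sum, sum_add_distrib, ← mul_sum, sum_const, nsmul_eq_mul, mul_one]
    have e2 : ((E.filter (fun p => ¬ p * L ≤ m)).card : ℝ) ≤ k := by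
      exact_mod_cast (card_le_card (filter_subset _ _)).trans hE
    gcongr
  have e2 : ∑ p ∈ E.filter (fun p : ℕ => ¬ (p : ℝ) ≤ y2), D * ((m : ℝ) * (1 / (p : ℝ)) + y0) ≤
      D * ((m : ℝ) * (∑ p ∈ E.filter (fun p : ℕ => ¬ (p : ℝ) ≤ y2), 1 / (p : ℝ)) + k * y0) := by
    rw [← mul_sum, sum_add_distrib, ← mul_sum, sum_const, nsmul_eq_mul]
    have e2 : ((E.filter (fun p : ℕ => ¬ (p : ℝ) ≤ y2)).card : ℝ) ≤ k := by
      exact_mod_cast (card_le_card (filter_subset _ _)).trans hE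
    gcongr
  have e3 : ∑ p ∈ E.filter (fun p : ℕ => (p : ℝ) ≤ y2), 12 * K =
      2 * (6 * K * (E.filter (fun p : ℕ => (p : ℝ) ≤ y2)).card) := by
    rw [sum_const, nsmul_eq_mul]; ring
  rw [e3]
  linarith

/-- the last inequality -/
lemma final_two {ε δ C4 C6 C9 Cπ CS c c0 c7 lL lℓ ℓ K k M v v2 vy y0 B S S' S3 n2 n3 N4 : ℝ}
    (hε : 0 < ε) (hδ : δ = ε / 20) (hC4 : 0 < C4) (hC9 : 0 < C9) (hCπ : 0 < Cπ)
    (hCS : 0 < CS) (hc0 : 0 < c0) (hc7 : 0 < c7)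
    (hℓ : 1 ≤ ℓ) (hK : ℓ ≤ K) (hk : 0 < k) (hM : 0 < M) (hv : 0 < v) (hlL : 0 ≤ lL)
    (hlℓ : 0 < lℓ) (hv2 : v2 ≤ C4 * lL * v) (hS : S ≤ 1 - ε) (hS'0 : 0 ≤ S')
    (hS' : S' ≤ C6 * (lL + lℓ + 1) / ℓ) (hc : 0 < c) (hc4 : c ≤ 1 / 4)
    (hkM : k * K * ℓ ^ (1 - c) ≤ M) (hvge : c0 / ℓ ≤ v)
    (has : 2 * C4 * C6 * lL * (lL + lℓ + 1) / ℓ + 2 * C4 * lL / ℓ ≤ ε / 16)
    (hB0 : 0 < B) (hB : 288 * Cπ / (c0 * ε) ≤ B) (hn2 : n2 ≤ Cπ * (k * ℓ ^ (1 - c) / B) / ℓ)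
    (hN4 : 0 < N4) (hvy : vy ≤ N4 / c7 * (v * ℓ / lℓ))
    (hS30 : 0 ≤ S3) (hS3 : S3 ≤ C9 * (Real.log B + c * lℓ + 1) / ℓ)
    (hn30 : 0 ≤ n3) (hn3 : n3 ≤ k)
    (hy0 : 0 ≤ y0) (hy : y0 ≤ ℓ ^ (1 / 2 : ℝ)) (hcs : CS * N4 * C9 / c7 * c ≤ ε / 64)
    (has2 : CS * N4 * C9 / c7 * ((Real.log B + 1) / lℓ) ≤ ε / 64)
    (has3 : CS * N4 / c7 * (ℓ ^ (-(1 / 4) : ℝ) / lℓ) ≤ ε / 64) :
    (1 + 5 * δ) * (M * v) * S + 2 * (v2 * (M * S' + n3) + 6 * K * n2) +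
      CS * vy * (M * S3 + n3 * y0) < (1 - 5 * δ) * (M * v) := by
  have hMv : 0 < M * v := by positivity
  have hℓ0 : 0 < ℓ := by linarith
  have hK0 : 0 < K := by linarith
  have hpw : 0 < ℓ ^ (1 - c) := Real.rpow_pos_of_pos hℓ0 _
  have hpw1 : 1 ≤ ℓ ^ (1 - c) := Real.one_le_rpow hℓ (by linarith)
  -- class two, sieve part
  have h2 : v2 * (M * S') ≤ C4 * C6 * lL * (lL + lℓ + 1) / ℓ * (M * v) := by
    have e1 : v2 * (M * S') ≤ (C4 * lL * v) * (M * (C6 * (lL + lℓ + 1) / ℓ)) :=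
      mul_le_mul hv2 (mul_le_mul_of_nonneg_left hS' hM.le) (by positivity) (by positivity)
    refine e1.trans (le_of_eq ?_)
    ring
  have hkℓ : k * ℓ ≤ M := by
    refine le_trans ?_ hkM
    have e1 : k * ℓ ≤ k * K := mul_le_mul_of_nonneg_left hK hk.le
    have e2 : k * K * 1 ≤ k * K * ℓ ^ (1 - c) := mul_le_mul_of_nonneg_left hpw1 (by positivity)
    linarith
  have h3 : v2 * n3 ≤ C4 * lL / ℓ * (M * v) := by
    have e1 : v2 * n3 ≤ (C4 * lL * v) * k := mul_le_mul hv2 hn3 hn30 (by positivity)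
    have e2 : (C4 * lL * v) * k = C4 * lL / ℓ * (k * ℓ * v) := by field_simp
    rw [e2] at e1
    refine e1.trans (mul_le_mul_of_nonneg_left ?_ (by positivity))
    exact mul_le_mul_of_nonneg_right hkℓ hv.le
  have h4 : 2 * (v2 * (M * S' + n3)) ≤ ε / 16 * (M * v) := by
    have e3 := mul_le_mul_of_nonneg_right has hMv.le
    have e4 : (2 * C4 * C6 * lL * (lL + lℓ + 1) / ℓ + 2 * C4 * lL / ℓ) * (M * v) =
        2 * (C4 * C6 * lL * (lL + lℓ + 1) / ℓ * (M * v)) + 2 * (C4 * lL / ℓ * (M * v)) := by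
      ring
    rw [e4] at e3
    nlinarith
  -- class two, the number of primes
  have h5 : 12 * K * n2 ≤ ε / 24 * (M * v) := by
    have e1 : 12 * K * n2 ≤ 12 * K * (Cπ * (k * ℓ ^ (1 - c) / B) / ℓ) :=
      mul_le_mul_of_nonneg_left hn2 (by positivity)
    have e2 : 12 * K * (Cπ * (k * ℓ ^ (1 - c) / B) / ℓ) =
        (12 * Cπ / (c0 * B)) * (k * K * ℓ ^ (1 - c) * (c0 / ℓ)) := by
      field_simp
    have e3 : 12 * Cπ / (c0 * B) ≤ ε / 24 := by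
      rw [div_le_iff₀ (by positivity)] at hB ⊢
      nlinarith
    rw [e2] at e1
    have e4 : k * K * ℓ ^ (1 - c) * (c0 / ℓ) ≤ M * v :=
      mul_le_mul hkM hvge (by positivity) hM.le
    exact e1.trans (mul_le_mul e3 e4 (by positivity) (by positivity))
  -- class three
  have h6 : CS * vy * (M * S3) ≤ (CS * N4 * C9 / c7 * c +
      CS * N4 * C9 / c7 * ((Real.log B + 1) / lℓ)) * (M * v) := by
    have e1 : CS * vy * (M * S3) ≤ CS * (N4 / c7 * (v * ℓ / lℓ)) *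
        (M * (C9 * (Real.log B + c * lℓ + 1) / ℓ)) :=
      mul_le_mul (mul_le_mul_of_nonneg_left hvy hCS.le) (mul_le_mul_of_nonneg_left hS3 hM.le)
        (by positivity) (by positivity)
    refine e1.trans (le_of_eq ?_)
    field_simp
    ring
  have h7 : CS * vy * (n3 * y0) ≤ CS * N4 / c7 * (ℓ ^ (-(1 / 4) : ℝ) / lℓ) * (M * v) := by
    have e1 : CS * vy * (n3 * y0) ≤ CS * (N4 / c7 * (v * ℓ / lℓ)) * (k * ℓ ^ (1 / 2 : ℝ)) :=
      mul_le_mul (mul_le_mul_of_nonneg_left hvy hCS.le) (mul_le_mul hn3 hy hy0 hk.le)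
        (by positivity) (by positivity)
    have e2 : k * (ℓ * ℓ ^ (1 / 2 : ℝ)) ≤ ℓ ^ (-(1 / 4) : ℝ) * M := by
      have e3 : ℓ * ℓ ^ (1 / 2 : ℝ) = ℓ ^ (-(1 / 4) : ℝ) * ℓ ^ (7 / 4 : ℝ) := by
        rw [← Real.rpow_add hℓ0, ← Real.rpow_one_add' hℓ0.le (by norm_num)]
        norm_num
      have e4 : ℓ ^ (7 / 4 : ℝ) ≤ K * ℓ ^ (1 - c) := by
        have e5 : ℓ ^ (7 / 4 : ℝ) ≤ ℓ ^ (1 + (1 - c)) :=
          Real.rpow_le_rpow_of_exponent_le hℓ (by linarith)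
        have e6 : ℓ ^ (1 + (1 - c)) = ℓ * ℓ ^ (1 - c) := by
          rw [Real.rpow_add hℓ0, Real.rpow_one]
        rw [e6] at e5
        exact e5.trans (mul_le_mul_of_nonneg_right hK hpw.le)
      have e5 : 0 < ℓ ^ (-(1 / 4) : ℝ) := Real.rpow_pos_of_pos hℓ0 _
      calc k * (ℓ * ℓ ^ (1 / 2 : ℝ)) = ℓ ^ (-(1 / 4) : ℝ) * (k * ℓ ^ (7 / 4 : ℝ)) := by
            rw [e3]; ring
        _ ≤ ℓ ^ (-(1 / 4) : ℝ) * (k * (K * ℓ ^ (1 - c))) := by gcongr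
        _ ≤ ℓ ^ (-(1 / 4) : ℝ) * M := by
            refine mul_le_mul_of_nonneg_left ?_ e5.le
            linarith
    have e3 : CS * (N4 / c7 * (v * ℓ / lℓ)) * (k * ℓ ^ (1 / 2 : ℝ)) =
        CS * N4 / c7 * (v / lℓ) * (k * (ℓ * ℓ ^ (1 / 2 : ℝ))) := by ring
    rw [e3] at e1
    refine e1.trans ?_
    have e4 : CS * N4 / c7 * (ℓ ^ (-(1 / 4) : ℝ) / lℓ) * (M * v) =
        CS * N4 / c7 * (v / lℓ) * (ℓ ^ (-(1 / 4) : ℝ) * M) := by ring
    rw [e4]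
    exact mul_le_mul_of_nonneg_left e2 (by positivity)
  have h8 : CS * vy * (M * S3 + n3 * y0) ≤ 3 * (ε / 64) * (M * v) := by
    have e1 : (CS * N4 * C9 / c7 * c + CS * N4 * C9 / c7 * ((Real.log B + 1) / lℓ)) * (M * v) ≤
        (ε / 64 + ε / 64) * (M * v) :=
      mul_le_mul_of_nonneg_right (add_le_add hcs has2) hMv.le
    have e2 : CS * N4 / c7 * (ℓ ^ (-(1 / 4) : ℝ) / lℓ) * (M * v) ≤ ε / 64 * (M * v) :=
      mul_le_mul_of_nonneg_right has3 hMv.le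
    nlinarith
  have h9 : (1 + 5 * δ) * (M * v) * S ≤ (1 + 5 * δ) * (M * v) * (1 - ε) := by
    refine mul_le_mul_of_nonneg_left hS ?_
    rw [hδ]; positivity
  have h10 : (1 + 5 * δ) * (M * v) * (1 - ε) + ε / 4 * (M * v) < (1 - 5 * δ) * (M * v) := by
    rw [hδ]
    have : 0 < ε * (M * v) := by positivity
    nlinarith [mul_pos hε this]
  have h11 : 0 < ε * (M * v) := by positivity
  nlinarith

end Pool.Agent.H1.Jac
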