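import Pool.Agent.H1.Jac.Cnt
import Pool.Agent.H12.Brun

/-!
# Brun's pure sieve, two-sided

Part of `MP_4e17b9_nt`. The proof of `Pool.Agent.H12.brun` (with `Ω = AP m p c`,
`Ev q i := q ∣ a + i`, `δ q = 1/q`, `W = m/p`, `Err = 1` from `cnt`) gives for every `s`, with
`T = tsum' Q δ s`, `S = ∑ q ∈ Q, 1/q`:
`|∑_{i ∈ Ω} tsum' Q (ind i) s - W T| ≤ (|Q| + 1)^s`; by `bonferroni` the left sum is `≥` (`s` even) or `≤`
(`s` odd) the number of survivors, and `|T - V Q| ≤ esym Q δ (s+1) ≤ S^(s+1)/(s+1)!`. Use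
`s = r` and `s = r + 1`, one of them is even and the other one is odd.
(`AP.filter (∀ q ∈ Q, ¬ q ∣ a + i)` is `surv Q a (AP m p c)`.)
-/

set_option autoImplicit false

namespace Pool.Agent.H1.Jac

open Finset

private theorem brun_signed (Q : Finset ℕ) (Ω : Finset ℕ) (a : ℕ) (W : ℝ) (hW : 0 ≤ W)
    (hQ : ∀ q ∈ Q, q.Prime) (s : ℕ)
    (hcount : ∀ D ⊆ Q,
      |((Ω.filter (fun ω => ∀ q ∈ D, q ∣ a + ω)).card : ℝ) - W * ∏ q ∈ D, (1 / (q : ℝ))| ≤ 1) :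
    (-1 : ℝ) ^ s * (((Ω.filter (fun ω => ∀ q ∈ Q, ¬ q ∣ a + ω)).card : ℝ) -
      W * ∏ q ∈ Q, (1 - 1 / (q : ℝ))) ≤
      W * ((∑ q ∈ Q, 1 / (q : ℝ)) ^ (s + 1) / ((s + 1).factorial : ℝ)) +
        ((Q.card : ℝ) + 1) ^ s := by
  classical
  have hδ : ∀ q ∈ Q, 0 ≤ (fun q : ℕ => 1 / (q : ℝ)) q ∧ (fun q : ℕ => 1 / (q : ℝ)) q ≤ 1 := by
    intro q hq
    have h1 : (1 : ℝ) ≤ q := by exact_mod_cast (hQ q hq).one_lt.le
    refine ⟨by positivity, ?_⟩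
    simp only
    rw [div_le_one (by linarith)]
    exact h1
  -- pointwise
  have h1 : (-1 : ℝ) ^ s * (((Ω.filter (fun ω => ∀ q ∈ Q, ¬ q ∣ a + ω)).card : ℝ) -
      ∑ ω ∈ Ω, H12.tsum' Q (fun q => if q ∣ a + ω then (1 : ℝ) else 0) s) ≤ 0 := by
    rw [← sum_boole (R := ℝ), ← sum_sub_distrib, mul_sum]
    refine sum_nonpos fun ω _ => ?_
    have h := (H12.bonferroni Q (fun q => if q ∣ a + ω then (1:ℝ) else 0) (fun p _ => by
      split_ifs <;> norm_num) s).1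
    have h2 : (if ∀ q ∈ Q, ¬ q ∣ a + ω then (1:ℝ) else 0) =
        ∏ q ∈ Q, (1 - if q ∣ a + ω then (1:ℝ) else 0) := by
      split_ifs with hc
      · rw [prod_eq_one]
        intro p hp
        rw [if_neg (hc p hp), sub_zero]
      · push Not at hc
        obtain ⟨p, hp, hpe⟩ := hc
        symm
        refine prod_eq_zero hp ?_
        rw [if_pos hpe, sub_self]
    rw [h2]
    have e : (-1 : ℝ) ^ s * (∏ q ∈ Q, (1 - if q ∣ a + ω then (1:ℝ) else 0) -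
        H12.tsum' Q (fun q => if q ∣ a + ω then (1 : ℝ) else 0) s) =
        -((-1 : ℝ) ^ s * (H12.tsum' Q (fun q => if q ∣ a + ω then (1 : ℝ) else 0) s -
          ∏ q ∈ Q, (1 - if q ∣ a + ω then (1:ℝ) else 0))) := by ring
    rw [e]
    linarith
  have h2 : ∑ ω ∈ Ω, H12.tsum' Q (fun q => if q ∣ a + ω then (1:ℝ) else 0) s =
      ∑ j ∈ range (s+1), (-1)^j * ∑ D ∈ Q.powersetCard j,
        ((Ω.filter (fun ω => ∀ q ∈ D, q ∣ a + ω)).card : ℝ) := by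
    unfold H12.tsum' H12.esym
    rw [sum_comm]
    refine sum_congr rfl fun j _ => ?_
    rw [← mul_sum, sum_comm]
    congr 1
    refine sum_congr rfl fun D _ => ?_
    rw [← sum_boole (R := ℝ)]
    refine sum_congr rfl fun ω _ => ?_
    split_ifs with hc
    · exact prod_eq_one fun p hp => if_pos (hc p hp)
    · push Not at hc
      obtain ⟨p, hp, hpe⟩ := hc
      exact prod_eq_zero hp (if_neg hpe)
  have h3 : |∑ ω ∈ Ω, H12.tsum' Q (fun q => if q ∣ a + ω then (1:ℝ) else 0) s -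
      W * H12.tsum' Q (fun q : ℕ => 1 / (q : ℝ)) s| ≤ ((Q.card : ℝ) + 1) ^ s := by
    rw [h2]
    have e0 : ∑ j ∈ range (s+1), (-1:ℝ)^j * ∑ D ∈ Q.powersetCard j,
        ((Ω.filter (fun ω => ∀ q ∈ D, q ∣ a + ω)).card : ℝ) -
        W * H12.tsum' Q (fun q : ℕ => 1 / (q : ℝ)) s =
        ∑ j ∈ range (s+1), (-1:ℝ)^j * ∑ D ∈ Q.powersetCard j,
          (((Ω.filter (fun ω => ∀ q ∈ D, q ∣ a + ω)).card : ℝ) -
            W * ∏ q ∈ D, (1 / (q : ℝ))) := by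
      unfold H12.tsum' H12.esym
      rw [mul_sum, ← sum_sub_distrib]
      refine sum_congr rfl fun j _ => ?_
      rw [sum_sub_distrib, ← mul_sum]
      ring
    rw [e0]
    refine (abs_sum_le_sum_abs _ _).trans ?_
    refine le_trans ?_ (H12.sum_choose_le Q.card s)
    refine sum_le_sum fun j _ => ?_
    rw [abs_mul, abs_pow, abs_neg, abs_one, one_pow, one_mul]
    refine (abs_sum_le_sum_abs _ _).trans ?_
    have : ∑ D ∈ Q.powersetCard j,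
        |((Ω.filter (fun ω => ∀ q ∈ D, q ∣ a + ω)).card : ℝ) - W * ∏ q ∈ D, (1 / (q : ℝ))| ≤
        ∑ _D ∈ Q.powersetCard j, (1 : ℝ) := by
      refine sum_le_sum fun D hD => ?_
      rw [mem_powersetCard] at hD
      exact hcount D hD.1
    refine this.trans ?_
    rw [sum_const, card_powersetCard, nsmul_eq_mul, mul_one]
  have h4 := (H12.bonferroni Q (fun q : ℕ => 1 / (q : ℝ)) hδ s).2
  have h5 := H12.esym_le Q (fun q : ℕ => 1 / (q : ℝ)) (fun p hp => (hδ p hp).1) (s+1)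
  simp only at h4 h5
  have h6 : (-1 : ℝ) ^ s * (∑ ω ∈ Ω, H12.tsum' Q (fun q => if q ∣ a + ω then (1:ℝ) else 0) s -
      W * H12.tsum' Q (fun q : ℕ => 1 / (q : ℝ)) s) ≤ ((Q.card : ℝ) + 1) ^ s := by
    refine le_trans (le_abs_self _) ?_
    rw [abs_mul, abs_pow, abs_neg, abs_one, one_pow, one_mul]
    exact h3
  have h7 : W * ((-1 : ℝ) ^ s * (H12.tsum' Q (fun q : ℕ => 1 / (q : ℝ)) s -
      ∏ q ∈ Q, (1 - 1 / (q : ℝ)))) ≤
      W * ((∑ q ∈ Q, 1 / (q : ℝ)) ^ (s + 1) / ((s + 1).factorial : ℝ)) :=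
    mul_le_mul_of_nonneg_left (h4.trans h5) hW
  have e8 : (-1 : ℝ) ^ s * (((Ω.filter (fun ω => ∀ q ∈ Q, ¬ q ∣ a + ω)).card : ℝ) -
      W * ∏ q ∈ Q, (1 - 1 / (q : ℝ))) =
      (-1 : ℝ) ^ s * (((Ω.filter (fun ω => ∀ q ∈ Q, ¬ q ∣ a + ω)).card : ℝ) -
        ∑ ω ∈ Ω, H12.tsum' Q (fun q => if q ∣ a + ω then (1 : ℝ) else 0) s) +
      (-1 : ℝ) ^ s * (∑ ω ∈ Ω, H12.tsum' Q (fun q => if q ∣ a + ω then (1:ℝ) else 0) s -
        W * H12.tsum' Q (fun q : ℕ => 1 / (q : ℝ)) s) +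
      W * ((-1 : ℝ) ^ s * (H12.tsum' Q (fun q : ℕ => 1 / (q : ℝ)) s -
        ∏ q ∈ Q, (1 - 1 / (q : ℝ)))) := by ring
  rw [e8]
  linarith

theorem pure_brun (Q : Finset ℕ) (hQ : ∀ q ∈ Q, q.Prime) (m p c a r : ℕ) (hp : 0 < p)
    (hpQ : ∀ q ∈ Q, Nat.Coprime p q) :
    |((surv Q a (AP m p c)).card : ℝ) - (m : ℝ) / p * V Q| ≤
      (m : ℝ) / p * ((∑ q ∈ Q, 1 / (q : ℝ)) ^ (r + 1) / ((r + 1).factorial : ℝ) +
        (∑ q ∈ Q, 1 / (q : ℝ)) ^ (r + 2) / ((r + 2).factorial : ℝ)) +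
      ((Q.card : ℝ) + 1) ^ (r + 1) := by
  have hW : (0 : ℝ) ≤ (m : ℝ) / p := by positivity
  have hcount : ∀ D ⊆ Q,
      |(((AP m p c).filter (fun ω => ∀ q ∈ D, q ∣ a + ω)).card : ℝ) -
        (m : ℝ) / p * ∏ q ∈ D, (1 / (q : ℝ))| ≤ 1 := by
    intro D hD
    have h := cnt m p c a hp D (fun q hq => hQ q (hD hq)) (fun q hq => hpQ q (hD hq))
    have e : (m : ℝ) / (p * ∏ q ∈ D, (q : ℝ)) = (m : ℝ) / p * ∏ q ∈ D, (1 / (q : ℝ)) := by
      rw [prod_div_distrib, prod_const_one, div_mul_div_comm, mul_one]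
    rw [e] at h
    exact h
  have hS : (0 : ℝ) ≤ ∑ q ∈ Q, 1 / (q : ℝ) := sum_nonneg fun q _ => by positivity
  have hA := brun_signed Q (AP m p c) a _ hW hQ r hcount
  have hB := brun_signed Q (AP m p c) a _ hW hQ (r + 1) hcount
  have e : (surv Q a (AP m p c)) = (AP m p c).filter (fun ω => ∀ q ∈ Q, ¬ q ∣ a + ω) := rfl
  unfold V
  rw [e]
  set N : ℝ := (((AP m p c).filter (fun ω => ∀ q ∈ Q, ¬ q ∣ a + ω)).card : ℝ) with hN
  set S : ℝ := ∑ q ∈ Q, 1 / (q : ℝ) with hSd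
  set W : ℝ := (m : ℝ) / p with hWd
  set P : ℝ := ∏ q ∈ Q, (1 - 1 / (q : ℝ)) with hPd
  have hc1 : (1 : ℝ) ≤ (Q.card : ℝ) + 1 := by
    have : (0 : ℝ) ≤ (Q.card : ℝ) := Nat.cast_nonneg _
    linarith
  have hpow : ((Q.card : ℝ) + 1) ^ r ≤ ((Q.card : ℝ) + 1) ^ (r + 1) :=
    pow_le_pow_right₀ hc1 (Nat.le_succ r)
  have e1 : 0 ≤ W * (S ^ (r + 1) / ((r + 1).factorial : ℝ)) := by positivity
  have e2 : 0 ≤ W * (S ^ (r + 2) / ((r + 2).factorial : ℝ)) := by positivity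
  have hB' : (-1 : ℝ) ^ (r + 1) * (N - W * P) ≤
      W * (S ^ (r + 2) / ((r + 2).factorial : ℝ)) + ((Q.card : ℝ) + 1) ^ (r + 1) := hB
  rw [mul_add, abs_le]
  rcases Nat.even_or_odd r with hr | hr
  · have s1 : (-1 : ℝ) ^ r = 1 := hr.neg_one_pow
    have s2 : (-1 : ℝ) ^ (r + 1) = -1 := hr.add_one.neg_one_pow
    rw [s1] at hA
    rw [s2] at hB'
    constructor <;> linarith
  · have s1 : (-1 : ℝ) ^ r = -1 := hr.neg_one_pow
    have s2 : (-1 : ℝ) ^ (r + 1) = 1 := hr.add_one.neg_one_pow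
    rw [s1] at hA
    rw [s2] at hB'
    constructor <;> linarith

end Pool.Agent.H1.Jac
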